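import Pool.Agent.H942R3.AXDyn

set_option autoImplicit false

open Finset Filter Topology

namespace H942R3.AX

theorem na_add (a : ℕ) (x : ℝ) (n w : ℕ) :
    na a x (n + w) = na a x n + na a (x * (a:ℝ) ^ n) w := by
  classical
  simp only [na, Finset.card_filter]
  rw [Finset.sum_range_add]
  congr 1
  refine Finset.sum_congr rfl fun i _ => ?_
  simp only [act_shift]

theorem na_mul (a : ℕ) (x : ℝ) (N w : ℕ) :
    na a x (N * w) = ∑ r ∈ range N, na a (x * (a:ℝ) ^ (r * w)) w := by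
  induction N with
  | zero => simp [na]
  | succ N ih => rw [add_mul, one_mul, na_add, ih, Finset.sum_range_succ]

theorem na_mono (a : ℕ) (x : ℝ) {n n' : ℕ} (h : n ≤ n') : na a x n ≤ na a x n' := by
  obtain ⟨d, rfl⟩ := Nat.exists_eq_add_of_le h
  rw [na_add]
  exact Nat.le_add_right _ _

theorem pigeon (a : ℕ) (x : ℝ) (h w L : ℕ) (hw : 1 ≤ w) (hwL : w ≤ L) (hL : h * na a x L < L) :
    ∃ r : ℕ, h * na a (x * (a:ℝ) ^ (r * w)) w < 2 * w := by
  by_contra hcon
  push Not at hcon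
  set N := L / w with hN
  have hN1 : 1 ≤ N := (Nat.one_le_div_iff (by omega)).2 hwL
  have h1 : N * w ≤ L := Nat.div_mul_le_self L w
  have h2 : L < (N + 1) * w := by
    rw [hN, mul_comm]; exact Nat.lt_mul_div_succ L (by omega)
  have h3 : N * (2 * w) ≤ h * na a x (N * w) := by
    rw [na_mul, Finset.mul_sum]
    calc N * (2 * w) = ∑ r ∈ range N, 2 * w := by simp
      _ ≤ _ := Finset.sum_le_sum fun r _ => hcon r
  have h4 : h * na a x (N * w) ≤ h * na a x L := Nat.mul_le_mul_left h (na_mono a x h1)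
  nlinarith

/-- the bad moduli are multiples of the special denominators -/
theorem bad_dvd (a : ℕ) (ha : 4 ≤ a) (h W L X q k : ℕ) (hX : X < 2 ^ W) (hWL : W ≤ L)
    (hq : q ≤ X) (hqa : q.Coprime a) (hk : 0 < k) (hkq : k < q)
    (hL : h * na a ((k : ℝ) / q) L < L) :
    ∃ w ∈ Ioc (h / 2) W, ∃ q' ∈ (Qs a h w).filter (fun q' => 2 ^ (w - 1) ≤ q'), q' ∣ q := by
  set g := Nat.gcd k q with hg
  have hgpos : 0 < g := Nat.gcd_pos_of_pos_left _ hk
  obtain ⟨p', hp'⟩ := Nat.gcd_dvd_left k q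
  obtain ⟨q', hq'⟩ := Nat.gcd_dvd_right k q
  rw [← hg] at hp' hq'
  have hgk : g ≤ k := Nat.gcd_le_left _ hk
  have hq'2 : 2 ≤ q' := by
    by_contra hcon
    push Not at hcon
    interval_cases q' <;> omega
  have hcop : Nat.Coprime p' q' := by
    have h1 := Nat.coprime_div_gcd_div_gcd (m := k) (n := q) (by rw [← hg]; exact hgpos)
    rw [← hg] at h1
    have e1 : k / g = p' := by rw [hp']; exact Nat.mul_div_cancel_left _ hgpos
    have e2 : q / g = q' := by rw [hq']; exact Nat.mul_div_cancel_left _ hgpos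
    rwa [e1, e2] at h1
  have hq'a : Nat.Coprime q' a := Nat.Coprime.coprime_dvd_left ⟨g, by rw [hq']; ring⟩ hqa
  set w := Nat.log 2 q' + 1 with hw
  have hq'lt : q' < 2 ^ w := Nat.lt_pow_succ_log_self (by norm_num) q'
  have hq'ge : 2 ^ (w - 1) ≤ q' := by
    rw [hw, Nat.add_sub_cancel]
    exact Nat.pow_log_le_self 2 (by omega)
  have hq'q : q' ≤ q := Nat.le_of_dvd (by omega) ⟨g, by rw [hq']; ring⟩
  have hwW : w ≤ W := by
    rw [hw]
    have : Nat.log 2 q' < W := by
      apply Nat.log_lt_of_lt_pow (by omega)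
      omega
    omega
  obtain ⟨r, hr⟩ := pigeon a ((k : ℝ) / q) h w L (by omega) (by omega) hL
  have hx : (k : ℝ) / q * (a:ℝ) ^ (r * w) = (((p' * a ^ (r * w) : ℕ) : ℤ) : ℝ) / q' := by
    rw [hp', hq']
    push_cast
    have h1 : (g : ℝ) ≠ 0 := by exact_mod_cast hgpos.ne'
    have h2 : (q' : ℝ) ≠ 0 := by
      have : q' ≠ 0 := by omega
      exact_mod_cast this
    field_simp
  rw [hx] at hr
  have hc : IsCoprime (((p' * a ^ (r * w) : ℕ) : ℤ)) (q' : ℤ) := by
    apply Nat.isCoprime_iff_coprime.2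
    exact Nat.Coprime.mul_left hcop (Nat.Coprime.pow_left _ hq'a.symm)
  have hmem : q' ∈ Qs a h w := by
    classical
    rw [Qs, Finset.mem_filter, Finset.mem_range]
    exact ⟨hq'lt, by omega, _, hc, hr⟩
  obtain ⟨i, hi, hact⟩ := exists_act a ha w q' _ hq'2 hq'lt hc
  have hna : 1 ≤ na a ((((p' * a ^ (r * w) : ℕ) : ℤ) : ℝ) / q') w := by
    classical
    rw [na]
    apply Finset.card_pos.2
    exact ⟨i, by rw [Finset.mem_filter, Finset.mem_range]; exact ⟨hi, hact⟩⟩
  refine ⟨w, ?_, q', ?_, ⟨g, by rw [hq']; ring⟩⟩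
  · rw [Finset.mem_Ioc]
    refine ⟨?_, hwW⟩
    have : h * 1 ≤ h * na a ((((p' * a ^ (r * w) : ℕ) : ℤ) : ℝ) / q') w := Nat.mul_le_mul_left h hna
    omega
  · rw [Finset.mem_filter]
    exact ⟨hmem, hq'ge⟩

theorem Qs_small (a : ℕ) (ha : 4 ≤ a) : ∃ h0 : ℕ, 0 < h0 ∧ ∀ h ≥ h0, ∀ w : ℕ,
    ((Qs a h w).card : ℝ) ≤ (5 / 4) ^ w := by
  have ha' : (0:ℝ) < a := by
    have : 0 < a := by omega
    exact_mod_cast this
  set z : ℝ := 1 / (16 * a) with hz
  have hz0 : 0 < z := by rw [hz]; positivity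
  have hz1 : z ≤ 1 := by
    rw [hz, div_le_one (by positivity)]
    have : (4:ℝ) ≤ a := by exact_mod_cast ha
    linarith
  have h1 : Tendsto (fun h : ℕ => z ^ ((2:ℝ) / h)) atTop (𝓝 1) := by
    have h2 : Tendsto (fun h : ℕ => (2:ℝ) / h) atTop (𝓝 0) := tendsto_const_div_atTop_nhds_zero_nat 2
    have h3 : ContinuousAt (fun y : ℝ => z ^ y) 0 := Real.continuousAt_const_rpow hz0.ne'
    have h4 := h3.tendsto.comp h2
    rw [Real.rpow_zero] at h4
    exact h4
  have h5 : ∀ᶠ h : ℕ in atTop, (9 / 10 : ℝ) < z ^ ((2:ℝ) / h) :=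
    h1.eventually (lt_mem_nhds (by norm_num))
  obtain ⟨h0, hh0⟩ := Filter.eventually_atTop.1 h5
  refine ⟨h0 + 1, by omega, fun h hh w => ?_⟩
  have h6 := Qs_card a ha h w (by omega) z hz0 hz1
  have h7 := hh0 h (by omega)
  have h8 : 1 + 2 * a * z = 9 / 8 := by
    rw [hz]; field_simp; norm_num
  rw [h8] at h6
  have h9 : ((Qs a h w).card : ℝ) * (9 / 10) ^ w ≤ (9 / 8) ^ w := by
    refine le_trans ?_ h6
    apply mul_le_mul_of_nonneg_left _ (by positivity)
    exact pow_le_pow_left₀ (by norm_num) h7.le w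
  have h10 : (9 / 8 : ℝ) ^ w = (5 / 4) ^ w * (9 / 10) ^ w := by
    rw [← mul_pow]; norm_num
  rw [h10] at h9
  exact le_of_mul_le_mul_right h9 (by positivity)

open Classical in
/-- counting the bad moduli -/
theorem bad_card (a : ℕ) (ha : 4 ≤ a) (h W L X : ℕ) (hX : X < 2 ^ W) (hWL : W ≤ L)
    (hQ : ∀ w : ℕ, ((Qs a h w).card : ℝ) ≤ (5 / 4) ^ w) :
    (((Icc 1 X).filter (fun q : ℕ => q.Coprime a ∧ ∃ k : ℕ, 0 < k ∧ k < q ∧
      h * na a ((k : ℝ) / q) L < L)).card : ℝ) ≤ X * (16 / 3 * (5 / 8) ^ (h / 2 + 1)) := by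
  have hsub : ((Icc 1 X).filter (fun q : ℕ => q.Coprime a ∧ ∃ k : ℕ, 0 < k ∧ k < q ∧
      h * na a ((k : ℝ) / q) L < L)) ⊆
      (Ioc (h / 2) W).biUnion (fun w => ((Qs a h w).filter (fun q' => 2 ^ (w - 1) ≤ q')).biUnion
        (fun q' => (Ioc 0 X).filter (fun q : ℕ => q' ∣ q))) := by
    intro q hq
    rw [Finset.mem_filter, Finset.mem_Icc] at hq
    obtain ⟨⟨hq1, hqX⟩, hqa, k, hk, hkq, hL⟩ := hq
    obtain ⟨w, hw, q', hq', hd⟩ := bad_dvd a ha h W L X q k hX hWL hqX hqa hk hkq hL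
    rw [Finset.mem_biUnion]
    refine ⟨w, hw, ?_⟩
    rw [Finset.mem_biUnion]
    refine ⟨q', hq', ?_⟩
    rw [Finset.mem_filter, Finset.mem_Ioc]
    exact ⟨⟨by omega, hqX⟩, hd⟩
  have h1 : (((Icc 1 X).filter (fun q : ℕ => q.Coprime a ∧ ∃ k : ℕ, 0 < k ∧ k < q ∧
      h * na a ((k : ℝ) / q) L < L)).card : ℝ) ≤
      ∑ w ∈ Ioc (h / 2) W, ∑ q' ∈ (Qs a h w).filter (fun q' => 2 ^ (w - 1) ≤ q'),
        (((Ioc 0 X).filter (fun q : ℕ => q' ∣ q)).card : ℝ) := by
    have h2 : ((Icc 1 X).filter (fun q : ℕ => q.Coprime a ∧ ∃ k : ℕ, 0 < k ∧ k < q ∧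
      h * na a ((k : ℝ) / q) L < L)).card ≤
      ∑ w ∈ Ioc (h / 2) W, ∑ q' ∈ (Qs a h w).filter (fun q' => 2 ^ (w - 1) ≤ q'),
        ((Ioc 0 X).filter (fun q : ℕ => q' ∣ q)).card := by
      refine (Finset.card_le_card hsub).trans (Finset.card_biUnion_le.trans ?_)
      exact Finset.sum_le_sum fun w _ => Finset.card_biUnion_le
    exact_mod_cast h2
  refine h1.trans ?_
  have h3 : ∀ w ∈ Ioc (h / 2) W, ∑ q' ∈ (Qs a h w).filter (fun q' => 2 ^ (w - 1) ≤ q'),
        (((Ioc 0 X).filter (fun q : ℕ => q' ∣ q)).card : ℝ) ≤ X * (2 * (5 / 8) ^ w) := by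
    intro w hw
    rw [Finset.mem_Ioc] at hw
    have hw1 : 1 ≤ w := by omega
    have h4 : ∀ q' ∈ (Qs a h w).filter (fun q' => 2 ^ (w - 1) ≤ q'),
        (((Ioc 0 X).filter (fun q : ℕ => q' ∣ q)).card : ℝ) ≤ X * (2 / 2 ^ w) := by
      intro q' hq'
      rw [Finset.mem_filter] at hq'
      rw [Nat.Ioc_filter_dvd_card_eq_div]
      have h5 : ((X / q' : ℕ) : ℝ) ≤ (X : ℝ) / q' := Nat.cast_div_le
      refine h5.trans ?_
      have h6 : (2:ℝ) ^ (w - 1) ≤ q' := by exact_mod_cast hq'.2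
      have h7 : (2:ℝ) / 2 ^ w = 1 / 2 ^ (w - 1) := by
        have : (2:ℝ) ^ w = 2 ^ (w - 1) * 2 := by
          rw [← pow_succ]; congr 1; omega
        rw [this]; field_simp
      rw [h7, mul_one_div]
      exact div_le_div_of_nonneg_left (by positivity) (by positivity) h6
    refine (Finset.sum_le_sum h4).trans ?_
    rw [Finset.sum_const, nsmul_eq_mul]
    have h8 : (((Qs a h w).filter (fun q' => 2 ^ (w - 1) ≤ q')).card : ℝ) ≤ (5 / 4) ^ w := by
      refine le_trans ?_ (hQ w)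
      exact_mod_cast Finset.card_filter_le _ _
    have h9 : (5 / 8 : ℝ) ^ w = (5 / 4) ^ w / 2 ^ w := by
      rw [← div_pow]; norm_num
    rw [h9]
    calc (((Qs a h w).filter (fun q' => 2 ^ (w - 1) ≤ q')).card : ℝ) * (X * (2 / 2 ^ w))
        ≤ (5 / 4) ^ w * (X * (2 / 2 ^ w)) := mul_le_mul_of_nonneg_right h8 (by positivity)
      _ = _ := by ring
  refine (Finset.sum_le_sum h3).trans ?_
  rw [← Finset.mul_sum]
  apply mul_le_mul_of_nonneg_left _ (by positivity)
  rw [← Finset.mul_sum]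
  have h10 : Ioc (h / 2) W = Ico (h / 2 + 1) (W + 1) := by
    ext w; rw [Finset.mem_Ioc, Finset.mem_Ico]; omega
  rw [h10]
  have h11 := geom_sum_Ico_le_of_lt_one (x := (5 / 8 : ℝ)) (m := h / 2 + 1) (n := W + 1) (by norm_num) (by norm_num)
  have h12 : (5 / 8 : ℝ) ^ (h / 2 + 1) / (1 - 5 / 8) = 8 / 3 * (5 / 8) ^ (h / 2 + 1) := by
    ring
  rw [h12] at h11
  linarith

/-- for good moduli the total variation distance is controlled by products over fewer digits -/
theorem good_bound (a : ℕ) (ha : 2 ≤ a) (h R m q : ℕ) (hR : 1 ≤ R)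
    (κ : ℝ) (hκ0 : 0 ≤ κ) (hκ1 : κ ≤ 1) (hκ : κ ^ h = 1 - 1 / (a:ℝ) ^ 2)
    (hgood : ∀ k, 0 < k → k < q → R * m ≤ h * na a ((k : ℝ) / q) (R * m)) :
    ∑ k ∈ (range q).erase 0, ∏ j ∈ range (R * m), cs q k (a ^ j) ≤
      ∑ r ∈ range R, κ ^ m * ∑ k ∈ range q,
        ∏ j ∈ range (R * m) \ Ico (r * m) (r * m + m), cs q k (a ^ j) := by
  classical
  have key : ∀ k, 0 < k → k < q → ∏ j ∈ range (R * m), cs q k (a ^ j) ≤
      ∑ r ∈ range R, κ ^ m * ∏ j ∈ range (R * m) \ Ico (r * m) (r * m + m), cs q k (a ^ j) := by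
    intro k hk hkq
    have h1 := hgood k hk hkq
    obtain ⟨r, hr, hr2⟩ : ∃ r < R, m ≤ h * na a ((k : ℝ) / q * (a:ℝ) ^ (r * m)) m := by
      by_contra hcon
      push Not at hcon
      rw [na_mul, Finset.mul_sum] at h1
      have h2 : ∑ r ∈ range R, h * na a ((k : ℝ) / q * (a:ℝ) ^ (r * m)) m < ∑ r ∈ range R, m := by
        apply Finset.sum_lt_sum_of_nonempty
        · exact ⟨0, Finset.mem_range.2 (by omega)⟩
        · intro r hr
          exact hcon r (Finset.mem_range.1 hr)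
      rw [Finset.sum_const, Finset.card_range, smul_eq_mul] at h2
      omega
    have hsub : Ico (r * m) (r * m + m) ⊆ range (R * m) := by
      intro j hj
      rw [Finset.mem_Ico] at hj
      rw [Finset.mem_range]
      have : (r + 1) * m ≤ R * m := Nat.mul_le_mul_right m hr
      have h3 : (r + 1) * m = r * m + m := by ring
      omega
    have h3 : ∏ j ∈ range (R * m), cs q k (a ^ j) =
        (∏ j ∈ Ico (r * m) (r * m + m), cs q k (a ^ j)) *
          ∏ j ∈ range (R * m) \ Ico (r * m) (r * m + m), cs q k (a ^ j) := by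
      exact (Finset.prod_sdiff hsub).symm.trans (mul_comm _ _)
    have h4 : ∏ j ∈ Ico (r * m) (r * m + m), cs q k (a ^ j) ≤ κ ^ m := by
      have h5 : ∏ j ∈ Ico (r * m) (r * m + m), cs q k (a ^ j) =
          ∏ i ∈ range m, cs q k (a ^ (r * m + i)) := by
        rw [Finset.prod_Ico_eq_prod_range]
        rw [Nat.add_sub_cancel_left]
      rw [h5]
      have hρ0 : 0 ≤ 1 - 1 / (a:ℝ) ^ 2 := by
        rw [← hκ]; exact pow_nonneg hκ0 _
      calc ∏ i ∈ range m, cs q k (a ^ (r * m + i))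
          ≤ ∏ i ∈ range m, (if act a ((k : ℝ) / q * (a:ℝ) ^ (r * m)) i then 1 - 1 / (a:ℝ) ^ 2 else 1) := by
            apply Finset.prod_le_prod
            · intro i _; exact cs_nonneg _ _ _
            · intro i _
              split_ifs with hact
              · rw [act_shift] at hact
                exact cs_act a q k _ (by omega) hact
              · exact cs_le_one _ _ _
        _ = (1 - 1 / (a:ℝ) ^ 2) ^ (na a ((k : ℝ) / q * (a:ℝ) ^ (r * m)) m) := by
            rw [Finset.prod_ite, Finset.prod_const_one, mul_one, Finset.prod_const, na]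
        _ = κ ^ (h * na a ((k : ℝ) / q * (a:ℝ) ^ (r * m)) m) := by
            rw [← hκ, ← pow_mul]
        _ ≤ κ ^ m := pow_le_pow_of_le_one hκ0 hκ1 hr2
    rw [h3]
    have h6 : ∀ r' : ℕ, 0 ≤ κ ^ m * ∏ j ∈ range (R * m) \ Ico (r' * m) (r' * m + m), cs q k (a ^ j) := by
      intro r'
      apply mul_nonneg (pow_nonneg hκ0 _)
      exact Finset.prod_nonneg fun j _ => cs_nonneg _ _ _
    calc (∏ j ∈ Ico (r * m) (r * m + m), cs q k (a ^ j)) *
          ∏ j ∈ range (R * m) \ Ico (r * m) (r * m + m), cs q k (a ^ j)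
        ≤ κ ^ m * ∏ j ∈ range (R * m) \ Ico (r * m) (r * m + m), cs q k (a ^ j) := by
          apply mul_le_mul_of_nonneg_right h4
          exact Finset.prod_nonneg fun j _ => cs_nonneg _ _ _
      _ ≤ _ := Finset.single_le_sum (f := fun r' => κ ^ m *
          ∏ j ∈ range (R * m) \ Ico (r' * m) (r' * m + m), cs q k (a ^ j))
          (fun r' _ => h6 r') (Finset.mem_range.2 hr)
  calc ∑ k ∈ (range q).erase 0, ∏ j ∈ range (R * m), cs q k (a ^ j)
      ≤ ∑ k ∈ (range q).erase 0, ∑ r ∈ range R, κ ^ m *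
          ∏ j ∈ range (R * m) \ Ico (r * m) (r * m + m), cs q k (a ^ j) := by
        apply Finset.sum_le_sum
        intro k hk
        rw [Finset.mem_erase, Finset.mem_range] at hk
        exact key k (Nat.pos_of_ne_zero hk.1) hk.2
    _ ≤ ∑ k ∈ range q, ∑ r ∈ range R, κ ^ m *
          ∏ j ∈ range (R * m) \ Ico (r * m) (r * m + m), cs q k (a ^ j) := by
        apply Finset.sum_le_sum_of_subset_of_nonneg (Finset.erase_subset _ _)
        intro k _ _
        apply Finset.sum_nonneg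
        intro r _
        apply mul_nonneg (pow_nonneg hκ0 _)
        exact Finset.prod_nonneg fun j _ => cs_nonneg _ _ _
    _ = _ := by
        rw [Finset.sum_comm]
        refine Finset.sum_congr rfl fun r _ => ?_
        rw [Finset.mul_sum]

/-- the trivial lower bound -/
theorem tv_lower (a q n : ℕ) (hq : 0 < q) (h : tv a q n ≤ 1 / 4) : 3 / 4 * (q:ℝ) ≤ 2 ^ n := by
  have hq' : (0:ℝ) < q := by exact_mod_cast hq
  set T := (range q).filter (fun r => law a q n r ≠ 0) with hT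
  have hTcard : T.card ≤ 2 ^ n := by
    have h1 : T ⊆ (univ : Finset (Fin n → Fin 2)).image (fun b => pos a n b % q) := by
      intro r hr
      rw [hT, Finset.mem_filter] at hr
      rw [Finset.mem_image]
      by_contra hcon
      push Not at hcon
      apply hr.2
      rw [law]
      have : (univ.filter (fun b : Fin n → Fin 2 => pos a n b % q = r)) = ∅ := by
        apply Finset.filter_eq_empty_iff.2
        intro b _
        exact hcon b (Finset.mem_univ b)
      rw [this]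
      simp
    refine (Finset.card_le_card h1).trans (Finset.card_image_le.trans ?_)
    simp
  have h2 : ∑ r ∈ range q, |law a q n r - 1 / q| ≥ 2 * (1 - T.card / q) := by
    have h3 : ∑ r ∈ range q, |law a q n r - 1 / q| =
        ∑ r ∈ T, |law a q n r - 1 / q| + ∑ r ∈ (range q).filter (fun r => ¬ law a q n r ≠ 0), |law a q n r - 1 / q| := by
      rw [hT, Finset.sum_filter_add_sum_filter_not]
    have h4 : ∑ r ∈ (range q).filter (fun r => ¬ law a q n r ≠ 0), |law a q n r - 1 / q| =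
        ((range q).filter (fun r => ¬ law a q n r ≠ 0)).card / q := by
      rw [Finset.card_eq_sum_ones]
      push_cast
      rw [Finset.sum_div]
      refine Finset.sum_congr rfl fun r hr => ?_
      rw [Finset.mem_filter, not_not] at hr
      rw [hr.2, zero_sub, abs_neg, abs_of_pos (by positivity)]
    have h5 : ∑ r ∈ T, |law a q n r - 1 / q| ≥ 1 - T.card / q := by
      have h6 : ∑ r ∈ T, law a q n r = 1 := by
        rw [← sum_law a q n hq, hT, Finset.sum_filter_ne_zero]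
      calc ∑ r ∈ T, |law a q n r - 1 / q| ≥ ∑ r ∈ T, (law a q n r - 1 / q) :=
            Finset.sum_le_sum fun r _ => le_abs_self _
        _ = 1 - T.card / q := by
            rw [Finset.sum_sub_distrib, h6, Finset.sum_const, nsmul_eq_mul]
            ring
    have h7 := Finset.card_filter_add_card_filter_not (s := range q) (fun r => law a q n r ≠ 0)
    rw [← hT, Finset.card_range] at h7
    have h8 : (((range q).filter (fun r => ¬ law a q n r ≠ 0)).card : ℝ) = q - T.card := by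
      rw [eq_sub_iff_add_eq, add_comm]
      exact_mod_cast h7
    rw [h3, h4, h8]
    have h9 : ((q:ℝ) - T.card) / q = 1 - T.card / q := by
      rw [sub_div, div_self hq'.ne']
    rw [h9]
    linarith
  have h10 : tv a q n = 1 / 2 * ∑ r ∈ range q, |law a q n r - 1 / q| := rfl
  have h11 : 1 - (T.card : ℝ) / q ≤ 1 / 4 := by linarith
  have h12 : 3 / 4 ≤ (T.card : ℝ) / q := by linarith
  rw [le_div_iff₀ hq'] at h12
  have h13 : (T.card : ℝ) ≤ 2 ^ n := by exact_mod_cast hTcard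
  linarith

end H942R3.AX
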