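import Mathlib

set_option autoImplicit false

open Finset

namespace H942R3.AX

/-- `X_n = ∑_{i < n} b_i a^(n-1-i)`, the position at time `n` of the walk `X_0 = 0`,
`X_{i+1} = a X_i + b_i` with digits `b_0, …, b_{n-1}`. -/
def pos (a n : ℕ) (b : Fin n → Fin 2) : ℕ := ∑ i : Fin n, (b i : ℕ) * a ^ (n - 1 - (i : ℕ))

/-- `P_{n,q}(r)`: the probability that `X_n mod q = r` when the digits are independent and
uniform on `{0,1}`. -/
noncomputable def law (a q n r : ℕ) : ℝ :=
  ((univ.filter (fun b : Fin n → Fin 2 => pos a n b % q = r)).card : ℝ) / 2 ^ n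

/-- `d_q(n)`: the total variation distance between `P_{n,q}` and the uniform law mod `q`. -/
noncomputable def tv (a q n : ℕ) : ℝ := 1 / 2 * ∑ r ∈ range q, |law a q n r - 1 / q|

end H942R3.AX
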