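import Pool.Agent.H942R3.AXFour

set_option autoImplicit false

open Finset

namespace H942R3.AX

/-- position `j` is active for `x`: `x a^j` is at distance at least `1/(2a)` from the integers -/
def act (a : ℕ) (x : ℝ) (j : ℕ) : Prop := 1 / (2 * (a : ℝ)) ≤ |x * a ^ j - round (x * (a : ℝ) ^ j)|

theorem cos_sq_round (z : ℝ) : Real.cos (Real.pi * z) ^ 2 ≤ 1 - 4 * (z - round z) ^ 2 := by
  set u := z - round z with hu
  have h1 : Real.cos (Real.pi * z) ^ 2 = Real.cos (Real.pi * u) ^ 2 := by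
    rw [Real.cos_sq, Real.cos_sq]
    congr 2
    rw [show 2 * (Real.pi * u) = 2 * (Real.pi * z) - (round z : ℤ) * (2 * Real.pi) by rw [hu]; ring]
    rw [Real.cos_sub_int_mul_two_pi]
  have hu2 : |u| ≤ 1 / 2 := abs_sub_round z
  have h2 : Real.cos (Real.pi * u) ^ 2 = 1 - Real.sin (Real.pi * |u|) ^ 2 := by
    rw [Real.cos_sq']
    congr 1
    rcases abs_cases u with ⟨h, _⟩ | ⟨h, _⟩
    · rw [h]
    · rw [h, mul_neg, Real.sin_neg, neg_sq]
  have h3 : 2 * |u| ≤ Real.sin (Real.pi * |u|) := by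
    have h4 := Real.mul_le_sin (x := Real.pi * |u|) (by positivity) (by
      have := Real.pi_pos
      nlinarith)
    have h5 : 2 / Real.pi * (Real.pi * |u|) = 2 * |u| := by
      field_simp
    rw [h5] at h4
    exact h4
  rw [h1, h2]
  have h6 : (2 * |u|) ^ 2 ≤ Real.sin (Real.pi * |u|) ^ 2 := by
    apply pow_le_pow_left₀ (by positivity) h3
  have h7 : (2 * |u|) ^ 2 = 4 * u ^ 2 := by rw [mul_pow, sq_abs]; norm_num
  linarith

theorem cs_act (a q k j : ℕ) (ha : 1 ≤ a) (h : act a ((k : ℝ) / q) j) :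
    cs q k (a ^ j) ≤ 1 - 1 / (a : ℝ) ^ 2 := by
  have ha' : (0:ℝ) < a := by exact_mod_cast ha
  rw [cs]
  have e : (k : ℝ) * ((a ^ j : ℕ) : ℝ) / q = (k : ℝ) / q * (a : ℝ) ^ j := by
    push_cast; ring
  rw [e]
  refine (cos_sq_round _).trans ?_
  rw [act] at h
  have h2 : (1 / (2 * (a : ℝ))) ^ 2 ≤ ((k : ℝ) / q * a ^ j - round ((k : ℝ) / q * (a : ℝ) ^ j)) ^ 2 := by
    rw [← sq_abs ((k : ℝ) / q * a ^ j - round ((k : ℝ) / q * (a : ℝ) ^ j))]
    exact pow_le_pow_left₀ (by positivity) h 2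
  have h3 : (1 / (2 * (a : ℝ))) ^ 2 = 1 / 4 * (1 / (a:ℝ) ^ 2) := by
    field_simp; norm_num
  rw [h3] at h2
  linarith

/-- the carry -/
noncomputable def cy (a : ℕ) (x : ℝ) (j : ℕ) : ℤ :=
  round (x * (a : ℝ) ^ (j + 1)) - a * round (x * (a : ℝ) ^ j)

theorem cy_eq (a : ℕ) (x : ℝ) (j : ℕ) : (cy a x j : ℝ) =
    a * (x * (a : ℝ) ^ j - round (x * (a : ℝ) ^ j)) -
      (x * (a : ℝ) ^ (j + 1) - round (x * (a : ℝ) ^ (j + 1))) := by
  rw [cy]
  push_cast
  ring

theorem cy_abs (a : ℕ) (ha : 1 ≤ a) (x : ℝ) (j : ℕ) : |cy a x j| ≤ a := by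
  have h1 := abs_sub_round (x * (a : ℝ) ^ j)
  have h2 := abs_sub_round (x * (a : ℝ) ^ (j + 1))
  have ha' : (1:ℝ) ≤ a := by exact_mod_cast ha
  have h3 : |(cy a x j : ℝ)| ≤ a := by
    rw [cy_eq]
    calc |a * (x * (a : ℝ) ^ j - round (x * (a : ℝ) ^ j)) -
      (x * (a : ℝ) ^ (j + 1) - round (x * (a : ℝ) ^ (j + 1)))|
        ≤ |a * (x * (a : ℝ) ^ j - round (x * (a : ℝ) ^ j))| +
          |x * (a : ℝ) ^ (j + 1) - round (x * (a : ℝ) ^ (j + 1))| := abs_sub _ _
      _ ≤ a * (1 / 2) + 1 / 2 := by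
          rw [abs_mul, abs_of_nonneg (by linarith : (0:ℝ) ≤ a)]
          exact add_le_add (mul_le_mul_of_nonneg_left h1 (by linarith)) h2
      _ ≤ a := by linarith
  exact_mod_cast h3

theorem cy_zero (a : ℕ) (ha : 1 ≤ a) (x : ℝ) (j : ℕ) (h : ¬ act a x j) : cy a x j = 0 := by
  have ha' : (0:ℝ) < a := by exact_mod_cast ha
  rw [act, not_le] at h
  have h2 := abs_sub_round (x * (a : ℝ) ^ (j + 1))
  have h3 : |a * (x * (a : ℝ) ^ j - round (x * (a : ℝ) ^ j))| < 1 / 2 := by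
    rw [abs_mul, abs_of_pos ha']
    calc (a:ℝ) * |x * (a : ℝ) ^ j - round (x * (a : ℝ) ^ j)| < a * (1 / (2 * a)) :=
          mul_lt_mul_of_pos_left h ha'
      _ = 1 / 2 := by field_simp
  have h4 : |(cy a x j : ℝ)| < 1 := by
    rw [cy_eq]
    calc _ ≤ |a * (x * (a : ℝ) ^ j - round (x * (a : ℝ) ^ j))| +
          |x * (a : ℝ) ^ (j + 1) - round (x * (a : ℝ) ^ (j + 1))| := abs_sub _ _
      _ < 1 := by linarith
  have h5 : |cy a x j| < 1 := by exact_mod_cast h4
  exact Int.abs_lt_one_iff.1 h5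

theorem act_shift (a : ℕ) (x : ℝ) (j i : ℕ) : act a (x * (a:ℝ) ^ j) i ↔ act a x (j + i) := by
  rw [act, act]
  rw [mul_assoc, ← pow_add]

theorem cy_sum (a : ℕ) (x : ℝ) (w : ℕ) :
    x * (a : ℝ) ^ w - round (x * (a : ℝ) ^ w) =
      (a:ℝ) ^ w * (x - round x) - ∑ i ∈ range w, (cy a x i : ℝ) * (a:ℝ) ^ (w - 1 - i) := by
  induction w with
  | zero => simp
  | succ w ih =>
    have h1 := cy_eq a x w
    have h2 : x * (a : ℝ) ^ (w + 1) - round (x * (a : ℝ) ^ (w + 1)) =
      a * (x * (a : ℝ) ^ w - round (x * (a : ℝ) ^ w)) - cy a x w := by linarith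
    rw [h2, ih, Finset.sum_range_succ]
    have h3 : ∑ i ∈ range w, (cy a x i : ℝ) * (a:ℝ) ^ (w + 1 - 1 - i)
        = a * ∑ i ∈ range w, (cy a x i : ℝ) * (a:ℝ) ^ (w - 1 - i) := by
      rw [Finset.mul_sum]
      refine Finset.sum_congr rfl fun i hi => ?_
      rw [Finset.mem_range] at hi
      have : w + 1 - 1 - i = (w - 1 - i) + 1 := by omega
      rw [this, pow_succ]
      ring
    rw [h3]
    simp only [Nat.add_sub_cancel, Nat.sub_self, pow_zero, mul_one]
    ring

/-- two reduced fractions with small denominators and the same carries have the same denominator -/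
theorem same_den (a : ℕ) (ha : 4 ≤ a) (w : ℕ) (q q' : ℕ) (p p' : ℤ) (hq : 0 < q) (hq' : 0 < q')
    (hqw : q < 2 ^ w) (hqw' : q' < 2 ^ w) (hp : IsCoprime p q) (hp' : IsCoprime p' q')
    (hc : ∀ i < w, cy a ((p : ℝ) / q) i = cy a ((p' : ℝ) / q') i) : q = q' := by
  have hqr : (0:ℝ) < q := by exact_mod_cast hq
  have hqr' : (0:ℝ) < q' := by exact_mod_cast hq'
  set x := (p : ℝ) / q with hx
  set x' := (p' : ℝ) / q' with hx'
  have h1 := cy_sum a x w
  have h2 := cy_sum a x' w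
  have h3 : ∑ i ∈ range w, (cy a x i : ℝ) * (a:ℝ) ^ (w - 1 - i) =
      ∑ i ∈ range w, (cy a x' i : ℝ) * (a:ℝ) ^ (w - 1 - i) := by
    refine Finset.sum_congr rfl fun i hi => ?_
    rw [hc i (Finset.mem_range.1 hi)]
  have b1 := abs_sub_round (x * (a : ℝ) ^ w)
  have b2 := abs_sub_round (x' * (a : ℝ) ^ w)
  have haw : (4:ℝ) ^ w ≤ (a:ℝ) ^ w := by
    apply pow_le_pow_left₀ (by norm_num)
    exact_mod_cast ha
  have haw0 : (0:ℝ) < (a:ℝ) ^ w := lt_of_lt_of_le (by positivity) haw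
  have h4 : (a:ℝ) ^ w * |(x - round x) - (x' - round x')| ≤ 1 := by
    rw [← abs_of_pos haw0, ← abs_mul]
    have : (a:ℝ) ^ w * ((x - round x) - (x' - round x')) =
        (x * (a : ℝ) ^ w - round (x * (a : ℝ) ^ w)) - (x' * (a : ℝ) ^ w - round (x' * (a : ℝ) ^ w)) := by
      rw [h1, h2, h3]; ring
    rw [this]
    calc _ ≤ |x * (a : ℝ) ^ w - round (x * (a : ℝ) ^ w)| + |x' * (a : ℝ) ^ w - round (x' * (a : ℝ) ^ w)| :=
          abs_sub _ _
      _ ≤ 1 := by linarith
  -- integers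
  set P : ℤ := p - round x * q with hP
  set P' : ℤ := p' - round x' * q' with hP'
  have e1 : x - round x = (P : ℝ) / q := by
    rw [hP, hx]; push_cast; field_simp
  have e2 : x' - round x' = (P' : ℝ) / q' := by
    rw [hP', hx']; push_cast; field_simp
  have hPc : IsCoprime P q := by
    rw [hP, sub_eq_add_neg, ← neg_mul]
    exact IsCoprime.add_mul_right_left hp _
  have hPc' : IsCoprime P' q' := by
    rw [hP', sub_eq_add_neg, ← neg_mul]
    exact IsCoprime.add_mul_right_left hp' _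
  rw [e1, e2] at h4
  have h5 : |(P : ℝ) * q' - P' * q| < 1 := by
    have h6 : (P : ℝ) / q - (P' : ℝ) / q' = ((P : ℝ) * q' - P' * q) / (q * q') := by
      field_simp
    rw [h6, abs_div, abs_of_pos (mul_pos hqr hqr')] at h4
    have h7 : (q:ℝ) * q' < 4 ^ w := by
      have g1 : (q:ℝ) < 2 ^ w := by exact_mod_cast hqw
      have g2 : (q':ℝ) < 2 ^ w := by exact_mod_cast hqw'
      have g3 : (4:ℝ) ^ w = 2 ^ w * 2 ^ w := by rw [← mul_pow]; norm_num
      rw [g3]
      exact mul_lt_mul g1 g2.le hqr' (by positivity)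
    have h8 : |(P : ℝ) * q' - P' * q| / (q * q') * (a:ℝ) ^ w ≤ 1 := by linarith
    rw [div_mul_eq_mul_div, div_le_iff₀ (mul_pos hqr hqr')] at h8
    by_contra hcon
    push Not at hcon
    have : (a:ℝ) ^ w ≤ |(P : ℝ) * q' - P' * q| * (a:ℝ) ^ w := le_mul_of_one_le_left haw0.le hcon
    linarith
  have h9 : |P * q' - P' * q| < 1 := by exact_mod_cast h5
  have h10 : P * q' = P' * q := by
    have := Int.abs_lt_one_iff.1 h9
    linarith
  have d1 : (q : ℤ) ∣ q' := by
    have : (q : ℤ) ∣ P * q' := ⟨P', by rw [h10]; ring⟩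
    exact hPc.symm.dvd_of_dvd_mul_left this
  have d2 : (q' : ℤ) ∣ q := by
    have : (q' : ℤ) ∣ P' * q := ⟨P, by rw [← h10]; ring⟩
    exact hPc'.symm.dvd_of_dvd_mul_left this
  exact Nat.dvd_antisymm (Int.natCast_dvd_natCast.1 d1) (Int.natCast_dvd_natCast.1 d2)

theorem exists_act (a : ℕ) (ha : 4 ≤ a) (w : ℕ) (q : ℕ) (p : ℤ) (hq : 2 ≤ q)
    (hqw : q < 2 ^ w) (hp : IsCoprime p q) : ∃ i < w, act a ((p : ℝ) / q) i := by
  by_contra hcon
  push Not at hcon
  have hqr : (0:ℝ) < q := by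
    have : 0 < q := by omega
    exact_mod_cast this
  set x := (p : ℝ) / q with hx
  have h1 := cy_sum a x w
  have h3 : ∑ i ∈ range w, (cy a x i : ℝ) * (a:ℝ) ^ (w - 1 - i) = 0 := by
    apply Finset.sum_eq_zero
    intro i hi
    rw [cy_zero a (by omega) x i (hcon i (Finset.mem_range.1 hi))]
    simp
  rw [h3, sub_zero] at h1
  have b1 := abs_sub_round (x * (a : ℝ) ^ w)
  rw [h1, abs_mul] at b1
  have haw : (4:ℝ) ^ w ≤ (a:ℝ) ^ w := by
    apply pow_le_pow_left₀ (by norm_num)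
    exact_mod_cast ha
  have haw0 : (0:ℝ) < (a:ℝ) ^ w := lt_of_lt_of_le (by positivity) haw
  rw [abs_of_pos haw0] at b1
  set P : ℤ := p - round x * q with hP
  have e1 : x - round x = (P : ℝ) / q := by
    rw [hP, hx]; push_cast; field_simp
  have hP0 : P ≠ 0 := by
    intro h0
    have h1 : p = round x * q := by linarith
    have h2 : (q : ℤ) ∣ p := ⟨round x, by rw [h1]; ring⟩
    have h3 : IsUnit (q : ℤ) := (IsCoprime.isUnit_of_dvd' hp h2 dvd_rfl)
    rw [Int.isUnit_iff] at h3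
    omega
  have h5 : (1:ℝ) ≤ |(P:ℝ)| := by
    have : (1:ℤ) ≤ |P| := Int.one_le_abs hP0
    exact_mod_cast this
  rw [e1, abs_div, abs_of_pos hqr] at b1
  have h6 : (q:ℝ) < 2 ^ w := by exact_mod_cast hqw
  have h7 : (2:ℝ) ^ w ≤ 4 ^ w := pow_le_pow_left₀ (by norm_num) (by norm_num) w
  rw [mul_div_assoc', div_le_iff₀ hqr] at b1
  have h8 : (a:ℝ) ^ w ≤ (a:ℝ) ^ w * |(P:ℝ)| := le_mul_of_one_le_right haw0.le h5
  linarith

open Classical in
/-- number of active positions in `[0, n)` -/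
noncomputable def na (a : ℕ) (x : ℝ) (n : ℕ) : ℕ := ((range n).filter (fun j => act a x j)).card

open Classical in
/-- the denominators below `2^w` of fractions with few active positions in `[0, w)` -/
noncomputable def Qs (a h w : ℕ) : Finset ℕ := (range (2 ^ w)).filter
  (fun q => 0 < q ∧ ∃ p : ℤ, IsCoprime p q ∧ h * na a ((p : ℝ) / q) w < 2 * w)

open Classical in
theorem Qs_card (a : ℕ) (ha : 4 ≤ a) (h w : ℕ) (hh : 0 < h) (z : ℝ) (hz : 0 < z) (hz1 : z ≤ 1) :
    ((Qs a h w).card : ℝ) * (z ^ ((2:ℝ) / h)) ^ w ≤ (1 + 2 * a * z) ^ w := by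
  set T := (Fintype.piFinset (fun _ : Fin w => Icc (-(a:ℤ)) a)).filter
    (fun c => h * (univ.filter (fun i => c i ≠ 0)).card < 2 * w) with hT
  have h1 : (Qs a h w).card ≤ T.card := by
    have hex : ∀ q ∈ Qs a h w, ∃ p : ℤ, IsCoprime p q ∧ h * na a ((p : ℝ) / q) w < 2 * w := by
      intro q hq
      rw [Qs, Finset.mem_filter] at hq
      exact hq.2.2
    choose! P hP using hex
    apply Finset.card_le_card_of_injOn (fun q => fun i : Fin w => cy a ((P q : ℝ) / q) i)
    · intro q hq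
      have hq' : q ∈ Qs a h w := hq
      rw [hT]
      simp only [Finset.coe_filter, Set.mem_ofPred_eq, Fintype.mem_piFinset, Finset.mem_Icc]
      refine ⟨fun i => abs_le.1 (cy_abs a (by omega) _ _), ?_⟩
      refine lt_of_le_of_lt (Nat.mul_le_mul_left h ?_) (hP q hq').2
      rw [na]
      apply Finset.card_le_card_of_injOn (fun i : Fin w => (i : ℕ))
      · intro i hi
        simp only [Finset.coe_filter, Finset.mem_univ, true_and, Set.mem_ofPred_eq] at hi
        simp only [Finset.coe_filter, Finset.mem_range, Set.mem_ofPred_eq]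
        refine ⟨i.2, ?_⟩
        by_contra hn
        exact hi (cy_zero a (by omega) _ _ hn)
      · intro i _ j _ hij
        exact Fin.ext hij
    · intro q hq q' hq' heq
      have hqm : q ∈ Qs a h w := hq
      have hqm' : q' ∈ Qs a h w := hq'
      have h1 := hqm
      have h2 := hqm'
      rw [Qs, Finset.mem_filter, Finset.mem_range] at h1 h2
      apply same_den a ha w q q' (P q) (P q') h1.2.1 h2.2.1 h1.1 h2.1 (hP q hqm).1 (hP q' hqm').1
      intro i hi
      exact congrFun heq ⟨i, hi⟩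
  have h2 : (T.card : ℝ) * (z ^ ((2:ℝ) / h)) ^ w ≤
      ∑ c ∈ Fintype.piFinset (fun _ : Fin w => Icc (-(a:ℤ)) a), ∏ i, (if c i = 0 then (1:ℝ) else z) := by
    calc (T.card : ℝ) * (z ^ ((2:ℝ) / h)) ^ w = ∑ c ∈ T, (z ^ ((2:ℝ) / h)) ^ w := by
          rw [Finset.sum_const, nsmul_eq_mul]
      _ ≤ ∑ c ∈ T, ∏ i, (if c i = 0 then (1:ℝ) else z) := by
          apply Finset.sum_le_sum
          intro c hc
          rw [hT, Finset.mem_filter] at hc
          rw [Finset.prod_ite, Finset.prod_const_one, one_mul, Finset.prod_const]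
          rw [← Real.rpow_natCast z, ← Real.rpow_natCast (z ^ ((2:ℝ) / h)), ← Real.rpow_mul hz.le]
          apply Real.rpow_le_rpow_of_exponent_ge hz hz1
          have h3 := hc.2
          have hh' : (0:ℝ) < h := by exact_mod_cast hh
          rw [div_mul_eq_mul_div, le_div_iff₀ hh']
          have h4 : (h:ℝ) * ((univ.filter (fun i => c i ≠ 0)).card : ℝ) < 2 * w := by exact_mod_cast h3
          have h5 : (univ.filter (fun i => ¬ c i = 0)).card = (univ.filter (fun i => c i ≠ 0)).card := rfl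
          rw [h5]
          linarith
      _ ≤ _ := by
          apply Finset.sum_le_sum_of_subset_of_nonneg
          · rw [hT]; exact Finset.filter_subset _ _
          · intro c _ _
            apply Finset.prod_nonneg
            intro i _
            split_ifs <;> [norm_num; exact hz.le]
  have h3 : ∑ c ∈ Fintype.piFinset (fun _ : Fin w => Icc (-(a:ℤ)) a), ∏ i, (if c i = 0 then (1:ℝ) else z)
      = (1 + 2 * a * z) ^ w := by
    have h4 := Finset.prod_univ_sum (fun _ : Fin w => Icc (-(a:ℤ)) a)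
      (fun _ t => if t = 0 then (1:ℝ) else z)
    rw [← h4]
    rw [Finset.prod_const, Finset.card_univ, Fintype.card_fin]
    congr 1
    rw [Finset.sum_ite, Finset.sum_const, Finset.sum_const]
    have h5 : (Icc (-(a:ℤ)) a).filter (fun t => t = 0) = {0} := by
      ext t
      simp only [Finset.mem_filter, Finset.mem_Icc, Finset.mem_singleton]
      constructor
      · rintro ⟨_, h⟩; exact h
      · rintro rfl; simp
    have h6 : ((Icc (-(a:ℤ)) a).filter (fun t => ¬ t = 0)).card = 2 * a := by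
      have h7 := Finset.card_filter_add_card_filter_not (s := Icc (-(a:ℤ)) a) (fun t => t = 0)
      rw [h5, Finset.card_singleton, Int.card_Icc] at h7
      omega
    rw [h5, h6]
    simp
  rw [h3] at h2
  refine le_trans ?_ h2
  apply mul_le_mul_of_nonneg_right _ (by positivity)
  exact_mod_cast h1

end H942R3.AX
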