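import Pool.Agent.H942R3.AXDef
import Pool.Agent.H353R2.Z2

set_option autoImplicit false

open Finset

namespace H942R3.AX

/-- `e(t k / q)` -/
noncomputable def ee (q : ℕ) (k : ℕ) (t : ℤ) : ℂ :=
  Complex.exp (2 * Real.pi * Complex.I * ((k : ℂ) * t / q))

theorem ee_pow (q k : ℕ) (t : ℤ) : ee q k t = (Complex.exp (2 * Real.pi * Complex.I * (t / q))) ^ k := by
  rw [ee, ← Complex.exp_nat_mul]
  congr 1
  ring

theorem orth (q : ℕ) (hq : 0 < q) (t : ℤ) :
    ∑ k ∈ range q, ee q k t = if (q : ℤ) ∣ t then (q : ℂ) else 0 := by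
  have hq' : (q : ℂ) ≠ 0 := by exact_mod_cast hq.ne'
  simp only [ee_pow]
  split_ifs with h
  · obtain ⟨s, rfl⟩ := h
    have : Complex.exp (2 * Real.pi * Complex.I * (((q : ℤ) * s : ℤ) / q)) = 1 := by
      rw [Complex.exp_eq_one_iff]
      refine ⟨s, ?_⟩
      push_cast
      field_simp
    rw [this]
    simp
  · have h1 : Complex.exp (2 * Real.pi * Complex.I * (t / q)) ≠ 1 := by
      intro h1
      rw [Complex.exp_eq_one_iff] at h1
      obtain ⟨n, hn⟩ := h1
      apply h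
      have h2 : (t : ℂ) / q = n := by
        have h3 : (2 * Real.pi * Complex.I : ℂ) ≠ 0 := by
          simp [Real.pi_ne_zero]
        have h4 : (2 * Real.pi * Complex.I : ℂ) * (t / q) = (2 * Real.pi * Complex.I) * n := by
          rw [hn]; ring
        exact mul_left_cancel₀ h3 h4
      rw [div_eq_iff hq'] at h2
      refine ⟨n, ?_⟩
      have h5 : (t : ℂ) = ((n * q : ℤ) : ℂ) := by rw [h2]; push_cast; ring
      have h6 : t = n * q := by exact_mod_cast h5
      rw [h6]; ring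
    rw [geom_sum_eq h1]
    have h2 : Complex.exp (2 * Real.pi * Complex.I * (t / q)) ^ q = 1 := by
      rw [← Complex.exp_nat_mul, Complex.exp_eq_one_iff]
      refine ⟨t, ?_⟩
      field_simp
    rw [h2]
    simp

theorem ee_mul_conj (q k : ℕ) (s t : ℤ) :
    ee q k s * (starRingEnd ℂ) (ee q k t) = ee q k (s - t) := by
  simp only [ee]
  rw [← Complex.exp_conj, ← Complex.exp_add]
  congr 1
  simp only [map_mul, map_div₀, Complex.conj_I, map_ofNat, Complex.conj_ofReal, map_natCast, map_intCast]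
  push_cast
  ring

theorem ee_add (q k : ℕ) (s t : ℤ) : ee q k s * ee q k t = ee q k (s + t) := by
  simp only [ee]
  rw [← Complex.exp_add]
  congr 1
  push_cast
  ring

theorem parseval {ι : Type*} (q : ℕ) (hq : 0 < q) (I : Finset ι) (g : ι → ℤ) :
    ∑ k ∈ range q, ‖∑ i ∈ I, ee q k (g i)‖ ^ 2
      = q * (((I ×ˢ I).filter (fun p => (q : ℤ) ∣ g p.1 - g p.2)).card : ℝ) := by
  have h : (((∑ k ∈ range q, ‖∑ i ∈ I, ee q k (g i)‖ ^ 2 : ℝ)) : ℂ)
      = ((q * (((I ×ˢ I).filter (fun p => (q : ℤ) ∣ g p.1 - g p.2)).card : ℝ) : ℝ) : ℂ) := by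
    push_cast
    have h1 : ∀ k, ((‖∑ i ∈ I, ee q k (g i)‖ : ℂ)) ^ 2
        = ∑ p ∈ I ×ˢ I, ee q k (g p.1 - g p.2) := by
      intro k
      rw [← Complex.mul_conj']
      rw [map_sum, Finset.sum_mul_sum, Finset.sum_product]
      refine Finset.sum_congr rfl fun i _ => Finset.sum_congr rfl fun j _ => ?_
      rw [ee_mul_conj]
    simp only [h1]
    rw [Finset.sum_comm]
    simp only [orth q hq]
    rw [← Finset.sum_filter, Finset.sum_const, nsmul_eq_mul]
    ring
  exact_mod_cast h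

/-- the squared cosine -/
noncomputable def cs (q k n : ℕ) : ℝ := Real.cos (Real.pi * ((k : ℝ) * n / q)) ^ 2

theorem norm_one_add_ee (q k n : ℕ) : ‖1 + ee q k n‖ ^ 2 = 4 * cs q k n := by
  have h1 : ee q k n = Complex.exp ((2 * (Real.pi * ((k : ℝ) * n / q)) : ℝ) * Complex.I) := by
    rw [ee]
    congr 1
    push_cast
    ring
  rw [h1, Complex.exp_mul_I, ← Complex.ofReal_cos, ← Complex.ofReal_sin, ← Complex.normSq_eq_norm_sq]
  set θ := Real.pi * ((k : ℝ) * n / q) with hθ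
  rw [show (1 : ℂ) + ((Real.cos (2 * θ) : ℝ) + (Real.sin (2 * θ) : ℝ) * Complex.I)
    = ((1 + Real.cos (2 * θ) : ℝ) : ℂ) + (Real.sin (2 * θ) : ℝ) * Complex.I by push_cast; ring]
  rw [Complex.normSq_add_mul_I]
  rw [cs, ← hθ, Real.cos_two_mul, Real.sin_two_mul]
  have := Real.sin_sq_add_cos_sq θ
  have h2 : Real.sin θ ^ 2 = 1 - Real.cos θ ^ 2 := by linarith
  calc (1 + (2 * Real.cos θ ^ 2 - 1)) ^ 2 + (2 * Real.sin θ * Real.cos θ) ^ 2
      = 4 * Real.cos θ ^ 2 * (Real.cos θ ^ 2 + Real.sin θ ^ 2) := by ring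
    _ = 4 * Real.cos θ ^ 2 := by rw [h2]; ring

theorem cs_nonneg (q k n : ℕ) : 0 ≤ cs q k n := sq_nonneg _

theorem cs_le_one (q k n : ℕ) : cs q k n ≤ 1 := by
  rw [cs]
  exact Real.cos_sq_le_one _

/-- subset sums of powers -/
def sg (a : ℕ) (B : Finset ℕ) : ℕ := ∑ j ∈ B, a ^ j

theorem prod_ee (a q k : ℕ) (B : Finset ℕ) :
    ee q k ((sg a B : ℕ) : ℤ) = ∏ j ∈ B, ee q k ((a ^ j : ℕ) : ℤ) := by
  induction B using Finset.induction_on with
  | empty => simp [sg, ee]
  | insert j B hj ih =>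
    rw [Finset.prod_insert hj, ← ih, ee_add]
    congr 1
    simp only [sg]
    rw [Finset.sum_insert hj]
    push_cast
    ring

theorem sum_powerset (a q k : ℕ) (S : Finset ℕ) :
    ∑ B ∈ S.powerset, ee q k ((sg a B : ℕ) : ℤ) = ∏ j ∈ S, (1 + ee q k ((a ^ j : ℕ) : ℤ)) := by
  rw [Finset.prod_one_add]
  refine Finset.sum_congr rfl fun B _ => ?_
  exact prod_ee a q k B

theorem norm_powerset (a q k : ℕ) (S : Finset ℕ) :
    ‖∑ B ∈ S.powerset, ee q k ((sg a B : ℕ) : ℤ)‖ ^ 2 = 4 ^ S.card * ∏ j ∈ S, cs q k (a ^ j) := by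
  rw [sum_powerset, norm_prod, ← Finset.prod_pow]
  simp only [norm_one_add_ee]
  rw [Finset.prod_mul_distrib, Finset.prod_const]

theorem sum_digits (a q k n : ℕ) :
    ∑ b : Fin n → Fin 2, ee q k ((pos a n b : ℕ) : ℤ)
      = ∏ j ∈ range n, (1 + ee q k ((a ^ j : ℕ) : ℤ)) := by
  have h1 : ∀ b : Fin n → Fin 2, ee q k ((pos a n b : ℕ) : ℤ)
      = ∏ i : Fin n, ee q k (((b i : ℕ) * a ^ (n - 1 - (i : ℕ)) : ℕ) : ℤ) := by
    intro b
    rw [pos]
    simp only [ee]
    rw [← Complex.exp_sum]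
    congr 1
    push_cast
    rw [Finset.mul_sum, Finset.sum_div, Finset.mul_sum]
  simp only [h1]
  have h2 := Finset.prod_univ_sum (fun _ : Fin n => (univ : Finset (Fin 2)))
    (fun i c => ee q k (((c : ℕ) * a ^ (n - 1 - (i : ℕ)) : ℕ) : ℤ))
  rw [Fintype.piFinset_univ] at h2
  rw [← h2]
  rw [← Finset.prod_range_reflect, ← Fin.prod_univ_eq_prod_range (fun j => 1 + ee q k ((a ^ (n - 1 - j) : ℕ) : ℤ))]
  refine Finset.prod_congr rfl fun i _ => ?_
  rw [Fin.sum_univ_two]
  simp [ee]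

theorem norm_digits (a q k n : ℕ) :
    ‖∑ b : Fin n → Fin 2, ee q k ((pos a n b : ℕ) : ℤ)‖ ^ 2 = 4 ^ n * ∏ j ∈ range n, cs q k (a ^ j) := by
  rw [sum_digits, norm_prod, ← Finset.prod_pow]
  simp only [norm_one_add_ee]
  rw [Finset.prod_mul_distrib, Finset.prod_const, Finset.card_range]

theorem sum_law (a q n : ℕ) (hq : 0 < q) : ∑ r ∈ range q, law a q n r = 1 := by
  simp only [law]
  rw [← Finset.sum_div, ← Nat.cast_sum]
  have h := Finset.card_eq_sum_card_fiberwise (s := (univ : Finset (Fin n → Fin 2)))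
    (t := range q) (f := fun b => pos a n b % q) (by
      intro b _
      simpa using Nat.mod_lt _ hq)
  rw [← h]
  simp

theorem sum_law_sq (a q n : ℕ) (hq : 0 < q) :
    ∑ r ∈ range q, law a q n r ^ 2 =
      ((((univ : Finset (Fin n → Fin 2)) ×ˢ univ).filter
        (fun p => (q : ℤ) ∣ ((pos a n p.1 : ℕ) : ℤ) - ((pos a n p.2 : ℕ) : ℤ))).card : ℝ) / 4 ^ n := by
  have h := Finset.card_eq_sum_card_fiberwise
    (s := (((univ : Finset (Fin n → Fin 2)) ×ˢ univ).filter
        (fun p => (q : ℤ) ∣ ((pos a n p.1 : ℕ) : ℤ) - ((pos a n p.2 : ℕ) : ℤ))))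
    (t := range q) (f := fun p => pos a n p.1 % q) (by
      intro b _
      simpa using Nat.mod_lt _ hq)
  rw [h]
  push_cast
  rw [Finset.sum_div]
  refine Finset.sum_congr rfl fun r hr => ?_
  have hcard : ((((univ : Finset (Fin n → Fin 2)) ×ˢ univ).filter
        (fun p => (q : ℤ) ∣ ((pos a n p.1 : ℕ) : ℤ) - ((pos a n p.2 : ℕ) : ℤ))).filter
        (fun p => pos a n p.1 % q = r)) =
      (univ.filter (fun b : Fin n → Fin 2 => pos a n b % q = r)) ×ˢ
        (univ.filter (fun b : Fin n → Fin 2 => pos a n b % q = r)) := by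
    ext ⟨b, b'⟩
    simp only [Finset.mem_filter, Finset.mem_product, Finset.mem_univ, true_and, and_true]
    constructor
    · rintro ⟨h1, h2⟩
      refine ⟨h2, ?_⟩
      rw [← h2]
      have h3 : ((pos a n b' : ℕ) : ℤ) ≡ ((pos a n b : ℕ) : ℤ) [ZMOD q] :=
        (Int.modEq_iff_dvd).2 h1
      have h4 : pos a n b' ≡ pos a n b [MOD q] := (Int.natCast_modEq_iff).1 h3
      exact h4
    · rintro ⟨h1, h2⟩
      refine ⟨?_, h1⟩
      have h4 : pos a n b' ≡ pos a n b [MOD q] := by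
        show _ % _ = _ % _
        rw [h1, h2]
      exact (Int.modEq_iff_dvd).1 ((Int.natCast_modEq_iff).2 h4)
  rw [hcard, Finset.card_product, law]
  push_cast
  rw [div_pow, ← pow_mul, mul_comm n 2, pow_mul]
  norm_num
  ring

/-- the `L²` bound for the total variation distance -/
theorem tv_bound (a q n : ℕ) (hq : 0 < q) :
    (2 * tv a q n) ^ 2 ≤ ∑ k ∈ (range q).erase 0, ∏ j ∈ range n, cs q k (a ^ j) := by
  have hq' : (0 : ℝ) < q := by exact_mod_cast hq
  have h1 : (2 * tv a q n) ^ 2 ≤ q * ∑ r ∈ range q, (law a q n r - 1 / q) ^ 2 := by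
    rw [tv, show 2 * (1 / 2 * ∑ r ∈ range q, |law a q n r - 1 / q|)
      = ∑ r ∈ range q, |law a q n r - 1 / q| by ring]
    have := sq_sum_le_card_mul_sum_sq (s := range q) (f := fun r => |law a q n r - 1 / q|)
    rw [Finset.card_range] at this
    simpa only [sq_abs] using this
  have h2 : ∑ r ∈ range q, (law a q n r - 1 / q) ^ 2 = (∑ r ∈ range q, law a q n r ^ 2) - 1 / q := by
    have : ∀ r, (law a q n r - 1 / q) ^ 2 = law a q n r ^ 2 - 2 / q * law a q n r + (1 / q) ^ 2 := by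
      intro r; ring
    simp only [this]
    rw [Finset.sum_add_distrib, Finset.sum_sub_distrib, ← Finset.mul_sum, sum_law a q n hq,
      Finset.sum_const, Finset.card_range, nsmul_eq_mul]
    field_simp
    ring
  have h3 : ∑ k ∈ range q, ∏ j ∈ range n, cs q k (a ^ j) = q * ∑ r ∈ range q, law a q n r ^ 2 := by
    have h4 := parseval q hq (univ : Finset (Fin n → Fin 2)) (fun b => ((pos a n b : ℕ) : ℤ))
    simp only [norm_digits] at h4
    rw [← Finset.mul_sum] at h4
    rw [sum_law_sq a q n hq]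
    have h5 : (0:ℝ) < 4 ^ n := by positivity
    rw [mul_div_assoc', ← h4, mul_div_cancel_left₀ _ h5.ne']
  have h6 : ∑ k ∈ range q, ∏ j ∈ range n, cs q k (a ^ j) =
      (∏ j ∈ range n, cs q 0 (a ^ j)) + ∑ k ∈ (range q).erase 0, ∏ j ∈ range n, cs q k (a ^ j) := by
    exact (Finset.add_sum_erase (range q) (fun k => ∏ j ∈ range n, cs q k (a ^ j))
      (Finset.mem_range.2 hq)).symm
  have h7 : ∏ j ∈ range n, cs q 0 (a ^ j) = 1 := by
    apply Finset.prod_eq_one
    intro j _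
    simp [cs]
  rw [h2] at h1
  have h8 : (q : ℝ) * ((∑ r ∈ range q, law a q n r ^ 2) - 1 / q) = q * ∑ r ∈ range q, law a q n r ^ 2 - 1 := by
    field_simp
  rw [h8, ← h3, h6, h7] at h1
  linarith

/-! ### collisions on average over `q` -/

theorem sg_inj (a : ℕ) (ha : 2 ≤ a) : ∀ B B' : Finset ℕ, sg a B = sg a B' → B = B' := by
  -- compare smallest elements of the symmetric difference through division by powers
  have key : ∀ (n : ℕ) (B B' : Finset ℕ), (∀ j ∈ B, j < n) → (∀ j ∈ B', j < n) →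
      sg a B = sg a B' → B = B' := by
    intro n
    induction n with
    | zero =>
      intro B B' h h' _
      have h1 : B = ∅ := by
        apply Finset.eq_empty_of_forall_notMem
        intro j hj; exact absurd (h j hj) (by omega)
      have h2 : B' = ∅ := by
        apply Finset.eq_empty_of_forall_notMem
        intro j hj; exact absurd (h' j hj) (by omega)
      rw [h1, h2]
    | succ n ih =>
      intro B B' h h' he
      have hlt : ∀ C : Finset ℕ, (∀ j ∈ C, j < n) → sg a C < a ^ n := by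
        intro C hC
        calc sg a C ≤ ∑ j ∈ range n, a ^ j := by
              apply Finset.sum_le_sum_of_subset
              intro j hj; exact Finset.mem_range.2 (hC j hj)
          _ < a ^ n := Nat.geomSum_lt ha (fun j hj => Finset.mem_range.1 hj)
      have hsplit : ∀ C : Finset ℕ, (∀ j ∈ C, j < n + 1) →
          sg a C = sg a (C.erase n) + (if n ∈ C then a ^ n else 0) ∧ ∀ j ∈ C.erase n, j < n := by
        intro C hC
        constructor
        · split_ifs with hn
          · simp only [sg]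
            rw [Finset.sum_erase_add _ _ hn]
          · rw [Finset.erase_eq_of_notMem hn, add_zero]
        · intro j hj
          rw [Finset.mem_erase] at hj
          have := hC j hj.2
          omega
      obtain ⟨e1, f1⟩ := hsplit B h
      obtain ⟨e2, f2⟩ := hsplit B' h'
      have g1 := hlt _ f1
      have g2 := hlt _ f2
      by_cases hn : n ∈ B
      · by_cases hn' : n ∈ B'
        · rw [if_pos hn] at e1
          rw [if_pos hn'] at e2
          have := ih _ _ f1 f2 (by omega)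
          rw [← Finset.insert_erase hn, this, Finset.insert_erase hn']
        · rw [if_pos hn] at e1
          rw [if_neg hn'] at e2
          omega
      · by_cases hn' : n ∈ B'
        · rw [if_neg hn] at e1
          rw [if_pos hn'] at e2
          omega
        · rw [if_neg hn] at e1
          rw [if_neg hn'] at e2
          have := ih _ _ f1 f2 (by omega)
          rw [Finset.erase_eq_of_notMem hn, Finset.erase_eq_of_notMem hn'] at this
          exact this
  intro B B' h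
  obtain ⟨n, hn⟩ : ∃ n, (∀ j ∈ B, j < n) ∧ (∀ j ∈ B', j < n) := by
    refine ⟨(B ∪ B').sup id + 1, ?_, ?_⟩
    · intro j hj
      have : j ≤ (B ∪ B').sup id := Finset.le_sup (f := id) (Finset.mem_union_left _ hj)
      omega
    · intro j hj
      have : j ≤ (B ∪ B').sup id := Finset.le_sup (f := id) (Finset.mem_union_right _ hj)
      omega
  exact key n B B' hn.1 hn.2 h

theorem sg_lt (a : ℕ) (ha : 2 ≤ a) (L : ℕ) (B : Finset ℕ) (hB : B ⊆ range L) : sg a B < a ^ L := by
  calc sg a B ≤ ∑ j ∈ range L, a ^ j := Finset.sum_le_sum_of_subset hB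
    _ < a ^ L := Nat.geomSum_lt ha (fun j hj => Finset.mem_range.1 hj)

/-- average over the moduli of the `L²` norm -/
theorem sum_mod (a : ℕ) (ha : 2 ≤ a) (L x : ℕ) (S : Finset ℕ) (hS : S ⊆ range L) (τ : ℝ)
    (hτ0 : 0 ≤ τ)
    (hτ : ∀ n : ℕ, n ≠ 0 → n < a ^ L → (n.divisors.card : ℝ) ≤ τ) :
    ∑ q ∈ Icc 1 x, ∑ k ∈ range q, ∏ j ∈ S, cs q k (a ^ j) ≤ x * (x / 2 ^ S.card + τ) := by
  have h4 : (0:ℝ) < 4 ^ S.card := by positivity
  have h1 : ∀ q ∈ Icc 1 x, ∑ k ∈ range q, ∏ j ∈ S, cs q k (a ^ j) ≤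
      x * ((((S.powerset ×ˢ S.powerset).filter
        (fun p => (q : ℤ) ∣ ((sg a p.1 : ℕ) : ℤ) - ((sg a p.2 : ℕ) : ℤ))).card : ℝ) / 4 ^ S.card) := by
    intro q hq
    rw [Finset.mem_Icc] at hq
    have h2 := parseval q (by omega) S.powerset (fun B => ((sg a B : ℕ) : ℤ))
    simp only [norm_powerset] at h2
    rw [← Finset.mul_sum] at h2
    have h3 : ∑ k ∈ range q, ∏ j ∈ S, cs q k (a ^ j) = q * ((((S.powerset ×ˢ S.powerset).filter
        (fun p => (q : ℤ) ∣ ((sg a p.1 : ℕ) : ℤ) - ((sg a p.2 : ℕ) : ℤ))).card : ℝ) / 4 ^ S.card) := by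
      rw [mul_div_assoc', ← h2, mul_div_cancel_left₀ _ h4.ne']
    rw [h3]
    apply mul_le_mul_of_nonneg_right _ (by positivity)
    exact_mod_cast hq.2
  refine (Finset.sum_le_sum h1).trans ?_
  rw [← Finset.mul_sum, ← Finset.sum_div]
  apply mul_le_mul_of_nonneg_left _ (by positivity)
  rw [div_le_iff₀ h4]
  -- count pairs
  have h5 : (∑ q ∈ Icc 1 x, (((S.powerset ×ˢ S.powerset).filter
        (fun p => (q : ℤ) ∣ ((sg a p.1 : ℕ) : ℤ) - ((sg a p.2 : ℕ) : ℤ))).card : ℝ))
      = ∑ p ∈ S.powerset ×ˢ S.powerset, (((Icc 1 x).filter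
        (fun q : ℕ => (q : ℤ) ∣ ((sg a p.1 : ℕ) : ℤ) - ((sg a p.2 : ℕ) : ℤ))).card : ℝ) := by
    simp only [Finset.card_filter]
    push_cast
    rw [Finset.sum_comm]
  rw [h5]
  have h6 : ∀ p ∈ S.powerset ×ˢ S.powerset, (((Icc 1 x).filter
        (fun q : ℕ => (q : ℤ) ∣ ((sg a p.1 : ℕ) : ℤ) - ((sg a p.2 : ℕ) : ℤ))).card : ℝ) ≤
        (if p.1 = p.2 then (x : ℝ) else 0) + τ := by
    rintro ⟨B, B'⟩ hp
    simp only [Finset.mem_product, Finset.mem_powerset] at hp
    split_ifs with h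
    · have : (((Icc 1 x).filter
        (fun q : ℕ => (q : ℤ) ∣ ((sg a B : ℕ) : ℤ) - ((sg a B' : ℕ) : ℤ))).card : ℝ) ≤ x := by
        have := Finset.card_filter_le (Icc 1 x) (fun q : ℕ => (q : ℤ) ∣ ((sg a B : ℕ) : ℤ) - ((sg a B' : ℕ) : ℤ))
        rw [Nat.card_Icc, Nat.add_sub_cancel] at this
        exact_mod_cast this
      linarith
    · rw [zero_add]
      have hne : sg a B ≠ sg a B' := fun h' => h (sg_inj a ha B B' h')
      have hd : (((sg a B : ℕ) : ℤ) - ((sg a B' : ℕ) : ℤ)).natAbs ≠ 0 := by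
        rw [Int.natAbs_ne_zero]
        intro h0
        apply hne
        have : ((sg a B : ℕ) : ℤ) = ((sg a B' : ℕ) : ℤ) := by linarith
        exact_mod_cast this
      have hlt : (((sg a B : ℕ) : ℤ) - ((sg a B' : ℕ) : ℤ)).natAbs < a ^ L := by
        have g1 := sg_lt a ha L B (hp.1.trans hS)
        have g2 := sg_lt a ha L B' (hp.2.trans hS)
        omega
      refine le_trans ?_ (hτ _ hd hlt)
      have : ((Icc 1 x).filter
        (fun q : ℕ => (q : ℤ) ∣ ((sg a B : ℕ) : ℤ) - ((sg a B' : ℕ) : ℤ))) ⊆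
        (((sg a B : ℕ) : ℤ) - ((sg a B' : ℕ) : ℤ)).natAbs.divisors := by
        intro q hq
        rw [Finset.mem_filter] at hq
        rw [Nat.mem_divisors]
        exact ⟨Int.natCast_dvd.1 hq.2, hd⟩
      exact_mod_cast Finset.card_le_card this
  refine (Finset.sum_le_sum h6).trans ?_
  rw [Finset.sum_add_distrib, Finset.sum_const, Finset.card_product, Finset.card_powerset,
    nsmul_eq_mul]
  have h7 : ∑ p ∈ S.powerset ×ˢ S.powerset, (if p.1 = p.2 then (x : ℝ) else 0) = 2 ^ S.card * x := by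
    rw [Finset.sum_product]
    simp only [Finset.sum_ite_eq]
    rw [Finset.sum_congr rfl (g := fun _ => (x:ℝ)) (by intro B hB; rw [if_pos hB])]
    rw [Finset.sum_const, Finset.card_powerset, nsmul_eq_mul]
    push_cast
    ring
  rw [h7]
  have h8 : (4:ℝ) ^ S.card = 2 ^ S.card * 2 ^ S.card := by
    rw [← mul_pow]; norm_num
  rw [h8]
  push_cast
  have h9 : (0:ℝ) < 2 ^ S.card := by positivity
  rw [add_mul, div_mul_eq_mul_div, mul_div_assoc]
  rw [show (2:ℝ) ^ S.card * 2 ^ S.card / 2 ^ S.card = 2 ^ S.card by field_simp]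
  nlinarith

end H942R3.AX
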