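import Pool.Agent.H942R3.AXCount

set_option autoImplicit false

open Finset Filter Topology

namespace H942R3.AX

open Classical in
/-- for a proportion close to one of the moduli up to `X` the distance after `R m` steps is
at most `1/4` -/
theorem most_good (a : ℕ) (ha : 4 ≤ a) (R : ℕ) (hR : 2 ≤ R) (ε : ℝ) (hε : 0 < ε) :
    ∃ X0 : ℕ, ∀ X ≥ X0, ∀ m : ℕ, Nat.log 2 X + 1 ≤ (R - 1) * m →
      m ≤ Nat.log 2 X + 1 →
      (((Icc 1 X).filter (fun q : ℕ => q.Coprime a ∧ 1 / 4 < tv a q (R * m))).card : ℝ) ≤ ε * X := by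
  have ha1 : (1:ℝ) < a := by
    have : 1 < a := by omega
    exact_mod_cast this
  have ha0 : (0:ℝ) < a := by linarith
  obtain ⟨h0, hh0, hQ⟩ := Qs_small a ha
  -- choose `h`
  have hlim : Tendsto (fun n : ℕ => 16 / 3 * (5 / 8 : ℝ) ^ n) atTop (𝓝 (16 / 3 * 0)) :=
    (tendsto_pow_atTop_nhds_zero_of_lt_one (by norm_num) (by norm_num)).const_mul _
  rw [mul_zero] at hlim
  obtain ⟨n1, hn1⟩ := Filter.eventually_atTop.1 (hlim.eventually (gt_mem_nhds (show 0 < ε / 2 by linarith)))
  set h := max h0 (2 * n1) with hh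
  have hh0' : h0 ≤ h := le_max_left _ _
  have hhn : n1 ≤ h / 2 + 1 := by
    have : 2 * n1 ≤ h := le_max_right _ _
    omega
  have hhpos : 0 < h := by omega
  have hQh := hQ h hh0'
  -- the contraction factor
  set ρ : ℝ := 1 - 1 / (a:ℝ) ^ 2 with hρ
  have hρ0 : 0 < ρ := by
    rw [hρ, sub_pos, div_lt_one (by positivity)]
    nlinarith
  have hρ1 : ρ < 1 := by
    rw [hρ]
    have : 0 < 1 / (a:ℝ) ^ 2 := by positivity
    linarith
  set κ : ℝ := ρ ^ ((1:ℝ) / h) with hκd
  have hhr : (0:ℝ) < h := by exact_mod_cast hhpos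
  have hκ0 : 0 < κ := Real.rpow_pos_of_pos hρ0 _
  have hκ1 : κ < 1 := Real.rpow_lt_one hρ0.le hρ1 (by positivity)
  have hκ : κ ^ h = 1 - 1 / (a:ℝ) ^ 2 := by
    rw [hκd, ← Real.rpow_natCast, ← Real.rpow_mul hρ0.le, one_div_mul_cancel hhr.ne', Real.rpow_one]
  -- the exponent in the divisor bound
  have hRr : (0:ℝ) < R := by
    have : 0 < R := by omega
    exact_mod_cast this
  have hla : 0 < Real.log a := Real.log_pos ha1
  have hlκ : Real.log κ < 0 := Real.log_neg hκ0 hκ1
  set e1 : ℝ := -Real.log κ / (2 * R * Real.log a) with he1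
  have he1pos : 0 < e1 := by
    rw [he1]; apply div_pos <;> [linarith; positivity]
  obtain ⟨C, hC0, hC⟩ := H353.divisor_bound_real e1 he1pos
  set κ' : ℝ := κ * (a:ℝ) ^ (R * e1) with hκ'
  have hκ'eq : κ' = Real.exp (Real.log κ / 2) := by
    rw [hκ', Real.rpow_def_of_pos ha0, ← Real.exp_log hκ0, ← Real.exp_add, Real.log_exp]
    congr 1
    rw [he1]
    field_simp
    ring
  have hκ'0 : 0 < κ' := by rw [hκ'eq]; exact Real.exp_pos _
  have hκ'1 : κ' < 1 := by
    rw [hκ'eq, Real.exp_lt_one_iff]; linarith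
  -- smallness for large `m`
  have hlim2 : Tendsto (fun m : ℕ => 4 * R * (κ ^ m + C * κ' ^ m)) atTop (𝓝 (4 * R * (0 + C * 0))) :=
    ((tendsto_pow_atTop_nhds_zero_of_lt_one hκ0.le hκ1).add
      ((tendsto_pow_atTop_nhds_zero_of_lt_one hκ'0.le hκ'1).const_mul C)).const_mul _
  rw [mul_zero, add_zero, mul_zero] at hlim2
  obtain ⟨m1, hm1⟩ := Filter.eventually_atTop.1 (hlim2.eventually (gt_mem_nhds (show 0 < ε / 2 by linarith)))
  refine ⟨2 ^ (R * m1 + 1), fun X hX m hm hm' => ?_⟩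
  have hlX : R * m1 + 1 ≤ Nat.log 2 X := by
    apply (Nat.le_log_iff_pow_le (by norm_num) (by
      have : 0 < 2 ^ (R * m1 + 1) := by positivity
      omega)).2 hX
  have hmm1 : m1 ≤ m := by
    by_contra hcon
    push Not at hcon
    have h1 : (R - 1) * m ≤ R * m := Nat.mul_le_mul_right m (by omega)
    have h2 : R * m ≤ R * m1 := Nat.mul_le_mul_left R hcon.le
    omega
  set W := Nat.log 2 X + 1 with hW
  have hXW : X < 2 ^ W := Nat.lt_pow_succ_log_self (by norm_num) X
  have hWL : W ≤ R * m := by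
    have h1 : (R - 1) * m ≤ R * m := Nat.mul_le_mul_right m (by omega)
    omega
  set L := R * m with hL
  set bad := (Icc 1 X).filter (fun q : ℕ => q.Coprime a ∧ ∃ k : ℕ, 0 < k ∧ k < q ∧
      h * na a ((k : ℝ) / q) L < L) with hbad
  set G := (Icc 1 X).filter (fun q : ℕ => (q.Coprime a ∧ 1 / 4 < tv a q L) ∧ ¬ (∃ k : ℕ, 0 < k ∧ k < q ∧
      h * na a ((k : ℝ) / q) L < L)) with hG
  have hcover : ((Icc 1 X).filter (fun q : ℕ => q.Coprime a ∧ 1 / 4 < tv a q L)) ⊆ bad ∪ G := by
    intro q hq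
    rw [Finset.mem_filter] at hq
    rw [Finset.mem_union, hbad, hG, Finset.mem_filter, Finset.mem_filter]
    by_cases hb : ∃ k : ℕ, 0 < k ∧ k < q ∧ h * na a ((k : ℝ) / q) L < L
    · left; exact ⟨hq.1, hq.2.1, hb⟩
    · right; exact ⟨hq.1, hq.2, hb⟩
  have hb1 : (bad.card : ℝ) ≤ X * (16 / 3 * (5 / 8) ^ (h / 2 + 1)) :=
    bad_card a ha h W L X hXW hWL hQh
  have hb2 : (bad.card : ℝ) ≤ ε / 2 * X := by
    have := hn1 (h / 2 + 1) hhn
    have hX0 : (0:ℝ) ≤ X := Nat.cast_nonneg X
    nlinarith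
  -- the good moduli
  set τ : ℝ := C * ((a:ℝ) ^ L) ^ e1 with hτ
  have hτ0 : 0 ≤ τ := by rw [hτ]; positivity
  have hτb : ∀ n : ℕ, n ≠ 0 → n < a ^ L → (n.divisors.card : ℝ) ≤ τ := by
    intro n hn hnL
    refine (hC n hn).trans ?_
    rw [hτ]
    apply mul_le_mul_of_nonneg_left _ hC0.le
    apply Real.rpow_le_rpow (Nat.cast_nonneg _) _ he1pos.le
    exact_mod_cast hnL.le
  have hGsum : (G.card : ℝ) * (1 / 4) ≤ ∑ q ∈ G, (2 * tv a q L) ^ 2 := by
    rw [← nsmul_eq_mul, ← Finset.sum_const]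
    apply Finset.sum_le_sum
    intro q hq
    rw [hG, Finset.mem_filter] at hq
    have := hq.2.1.2
    nlinarith
  have hGsum2 : ∑ q ∈ G, (2 * tv a q L) ^ 2 ≤ R * (κ ^ m * (X * (1 + τ))) := by
    calc ∑ q ∈ G, (2 * tv a q L) ^ 2
        ≤ ∑ q ∈ G, ∑ r ∈ range R, κ ^ m * ∑ k ∈ range q,
            ∏ j ∈ range (R * m) \ Ico (r * m) (r * m + m), cs q k (a ^ j) := by
          apply Finset.sum_le_sum
          intro q hq
          rw [hG, Finset.mem_filter, Finset.mem_Icc] at hq
          refine (tv_bound a q L (by omega)).trans ?_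
          refine good_bound a (by omega) h R m q (by omega) κ hκ0.le hκ1.le hκ ?_
          intro k hk hkq
          by_contra hcon
          push Not at hcon
          exact hq.2.2 ⟨k, hk, hkq, hcon⟩
      _ ≤ ∑ q ∈ Icc 1 X, ∑ r ∈ range R, κ ^ m * ∑ k ∈ range q,
            ∏ j ∈ range (R * m) \ Ico (r * m) (r * m + m), cs q k (a ^ j) := by
          apply Finset.sum_le_sum_of_subset_of_nonneg
          · rw [hG]; exact Finset.filter_subset _ _
          · intro q _ _
            apply Finset.sum_nonneg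
            intro r _
            apply mul_nonneg (pow_nonneg hκ0.le _)
            apply Finset.sum_nonneg
            intro k _
            exact Finset.prod_nonneg fun j _ => cs_nonneg _ _ _
      _ = ∑ r ∈ range R, κ ^ m * ∑ q ∈ Icc 1 X, ∑ k ∈ range q,
            ∏ j ∈ range (R * m) \ Ico (r * m) (r * m + m), cs q k (a ^ j) := by
          rw [Finset.sum_comm]
          refine Finset.sum_congr rfl fun r _ => ?_
          rw [Finset.mul_sum]
      _ ≤ ∑ r ∈ range R, κ ^ m * (X * (1 + τ)) := by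
          apply Finset.sum_le_sum
          intro r hr
          rw [Finset.mem_range] at hr
          apply mul_le_mul_of_nonneg_left _ (pow_nonneg hκ0.le _)
          have hsub : Ico (r * m) (r * m + m) ⊆ range (R * m) := by
            intro j hj
            rw [Finset.mem_Ico] at hj
            rw [Finset.mem_range]
            have : (r + 1) * m ≤ R * m := Nat.mul_le_mul_right m hr
            have h3 : (r + 1) * m = r * m + m := by ring
            omega
          have hcard : (range (R * m) \ Ico (r * m) (r * m + m)).card = (R - 1) * m := by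
            rw [Finset.card_sdiff_of_subset hsub, Finset.card_range, Nat.card_Ico,
              Nat.add_sub_cancel_left, Nat.sub_mul, one_mul]
          refine (sum_mod a (by omega) L X _ Finset.sdiff_subset τ hτ0 hτb).trans ?_
          rw [hcard]
          apply mul_le_mul_of_nonneg_left _ (Nat.cast_nonneg X)
          have h5 : (X : ℝ) ≤ 2 ^ ((R - 1) * m) := by
            have h6 : X ≤ 2 ^ ((R - 1) * m) := by
              calc X ≤ 2 ^ W := hXW.le
                _ ≤ 2 ^ ((R - 1) * m) := Nat.pow_le_pow_right (by norm_num) hm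
            exact_mod_cast h6
          have h7 : (X : ℝ) / 2 ^ ((R - 1) * m) ≤ 1 := by
            rw [div_le_one (by positivity)]; exact h5
          linarith
      _ = R * (κ ^ m * (X * (1 + τ))) := by
          rw [Finset.sum_const, Finset.card_range, nsmul_eq_mul]
  have hτκ : κ ^ m * τ = C * κ' ^ m := by
    rw [hτ, hκ', mul_pow, ← Real.rpow_natCast ((a:ℝ) ^ (R * e1)) m, ← Real.rpow_mul ha0.le,
      ← Real.rpow_natCast (a:ℝ) L, ← Real.rpow_mul ha0.le, hL]
    push_cast
    rw [show (R:ℝ) * m * e1 = R * e1 * m by ring]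
    ring
  have hGcard : (G.card : ℝ) ≤ ε / 2 * X := by
    have h1 := hm1 m hmm1
    have h2 : (G.card : ℝ) * (1 / 4) ≤ R * (κ ^ m * (X * (1 + τ))) := hGsum.trans hGsum2
    have h3 : R * (κ ^ m * (X * (1 + τ))) = R * (κ ^ m + C * κ' ^ m) * X := by
      rw [← hτκ]; ring
    rw [h3] at h2
    have hX0 : (0:ℝ) ≤ X := Nat.cast_nonneg X
    nlinarith
  have hfin : (((Icc 1 X).filter (fun q : ℕ => q.Coprime a ∧ 1 / 4 < tv a q L)).card : ℝ) ≤
      bad.card + G.card := by
    have := (Finset.card_le_card hcover).trans (Finset.card_union_le _ _)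
    exact_mod_cast this
  linarith

open Classical in
/-- the set of exceptional moduli up to `X` -/
noncomputable def exc (a : ℕ) (δ : ℝ) (X : ℕ) : Finset ℕ :=
  (Icc 2 X).filter (fun q : ℕ => q.Coprime a ∧
    ¬ ∃ t : ℕ, IsLeast {n : ℕ | tv a q n ≤ 1 / 4} t ∧ |(t:ℝ) / Real.logb 2 q - 1| ≤ δ)

theorem exc_small (a : ℕ) (ha : 4 ≤ a) (δ : ℝ) (hδ : 0 < δ) (ε : ℝ) (hε : 0 < ε) :
    ∃ X0 : ℕ, ∀ X ≥ X0, ((exc a δ X).card : ℝ) ≤ ε * X := by
  classical
  -- choose `R`
  obtain ⟨R, hR2, hRδ⟩ : ∃ R : ℕ, 2 ≤ R ∧ (R : ℝ) ≤ (1 + δ / 4) * (R - 1) := by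
    obtain ⟨n, hn⟩ := exists_nat_gt (4 / δ)
    refine ⟨n + 2, by omega, ?_⟩
    push_cast
    have h1 : 4 / δ < n + 1 := by linarith
    rw [div_lt_iff₀ hδ] at h1
    nlinarith
  obtain ⟨X1, hX1⟩ := most_good a ha R hR2 (ε / 2) (by linarith)
  -- lower cut-off for q: `q ≥ θ X`, with `θ = ε/2` (at most one)
  set θ : ℝ := min (ε / 2) 1 with hθ
  have hθ0 : 0 < θ := by rw [hθ]; exact lt_min (by linarith) one_pos
  have hθ1 : θ ≤ 1 := min_le_right _ _
  have hθε : θ ≤ ε / 2 := min_le_left _ _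
  -- logs
  have hlog : Tendsto (fun X : ℕ => Real.logb 2 X) atTop atTop :=
    (Real.tendsto_logb_atTop (by norm_num)).comp tendsto_natCast_atTop_atTop
  obtain ⟨X2, hX2⟩ := Filter.eventually_atTop.1 (hlog.eventually
    (eventually_ge_atTop ((R + (1 + δ) * (-Real.logb 2 θ)) * 4 / (3 * δ) + (1 / δ - Real.logb 2 θ + 1))))
  refine ⟨max (max X1 X2) 2, fun X hX => ?_⟩
  have hXX1 : X1 ≤ X := le_trans (le_trans (le_max_left _ _) (le_max_left _ _)) hX
  have hXX2 : X2 ≤ X := le_trans (le_trans (le_max_right _ _) (le_max_left _ _)) hX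
  have hX2' : 2 ≤ X := le_trans (le_max_right _ _) hX
  have hXpos : (0:ℝ) < X := by
    have : 0 < X := by omega
    exact_mod_cast this
  set l := Nat.log 2 X with hl
  set m := l / (R - 1) + 1 with hm
  have hm1 : l + 1 ≤ (R - 1) * m := by
    rw [hm]
    have := Nat.lt_mul_div_succ l (show 0 < R - 1 by omega)
    omega
  have hm2 : m ≤ l + 1 := by
    rw [hm]
    have := Nat.div_le_self l (R - 1)
    omega
  have hgood := hX1 X hXX1 m hm1 hm2
  set LX := Real.logb 2 X with hLX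
  have hlLX : (l : ℝ) ≤ LX := by
    rw [hLX, Real.le_logb_iff_rpow_le (by norm_num) hXpos, Real.rpow_natCast]
    have := Nat.pow_log_le_self 2 (show X ≠ 0 by omega)
    exact_mod_cast this
  have hLm : ((R * m : ℕ) : ℝ) ≤ (1 + δ / 4) * LX + R := by
    have h1 : ((l / (R - 1) : ℕ) : ℝ) ≤ (l : ℝ) / ((R - 1 : ℕ) : ℝ) := Nat.cast_div_le
    have hR1 : ((R - 1 : ℕ) : ℝ) = (R : ℝ) - 1 := by
      rw [Nat.cast_sub (by omega)]; simp
    rw [hR1] at h1
    have hR1pos : (0:ℝ) < (R : ℝ) - 1 := by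
      have : (2:ℝ) ≤ R := by exact_mod_cast hR2
      linarith
    rw [hm]
    push_cast
    have h2 : (R : ℝ) * ((l : ℝ) / ((R:ℝ) - 1)) ≤ (1 + δ / 4) * LX := by
      rw [mul_div_assoc', div_le_iff₀ hR1pos]
      have hl0 : (0:ℝ) ≤ l := Nat.cast_nonneg l
      have hR0 : (0:ℝ) ≤ R := Nat.cast_nonneg R
      calc (R:ℝ) * l ≤ ((1 + δ / 4) * (R - 1)) * l := mul_le_mul_of_nonneg_right hRδ hl0
        _ ≤ ((1 + δ / 4) * (R - 1)) * LX := by
            apply mul_le_mul_of_nonneg_left hlLX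
            apply mul_nonneg (by linarith) hR1pos.le
        _ = _ := by ring
    have hR0 : (0:ℝ) ≤ R := Nat.cast_nonneg R
    calc (R:ℝ) * ((l / (R - 1) : ℕ) + 1) = R * ((l / (R - 1) : ℕ) : ℝ) + R := by ring
      _ ≤ R * ((l : ℝ) / ((R:ℝ) - 1)) + R := by
          have := mul_le_mul_of_nonneg_left h1 hR0
          linarith
      _ ≤ _ := by linarith
  have hLXbig := hX2 X hXX2
  rw [← hLX] at hLXbig
  have hθlog : Real.logb 2 θ ≤ 0 := Real.logb_nonpos (by norm_num) hθ0.le hθ1
  -- cover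
  have hcover : exc a δ X ⊆ ((Icc 1 X).filter (fun q : ℕ => q.Coprime a ∧ 1 / 4 < tv a q (R * m))) ∪
      (Icc 1 X).filter (fun q : ℕ => (q : ℝ) ≤ θ * X) := by
    intro q hq
    rw [exc, Finset.mem_filter, Finset.mem_Icc] at hq
    obtain ⟨⟨hq2, hqX⟩, hqa, hno⟩ := hq
    rw [Finset.mem_union, Finset.mem_filter, Finset.mem_filter, Finset.mem_Icc]
    by_contra hcon
    push Not at hcon
    obtain ⟨hc1, hc2⟩ := hcon
    have hA := hc1 ⟨by omega, hqX⟩ hqa
    have hB := hc2 ⟨by omega, hqX⟩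
    apply hno
    have hex : ∃ n : ℕ, tv a q n ≤ 1 / 4 := ⟨R * m, hA⟩
    refine ⟨Nat.find hex, ⟨Nat.find_spec hex, fun n hn => Nat.find_min' hex hn⟩, ?_⟩
    set t := Nat.find hex with ht
    have htL : t ≤ R * m := Nat.find_min' hex hA
    have hqpos : (0:ℝ) < q := by
      have : 0 < q := by omega
      exact_mod_cast this
    set Lq := Real.logb 2 q with hLq
    have hLqLX : LX + Real.logb 2 θ ≤ Lq := by
      rw [hLX, hLq, add_comm, ← Real.logb_mul hθ0.ne' hXpos.ne']
      exact Real.logb_le_logb_of_le (by norm_num) (by positivity) hB.le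
    have hkey : (R + (1 + δ) * (-Real.logb 2 θ)) * 4 / (3 * δ) ≤ LX := by
      have h1 : 0 < 1 / δ := by positivity
      linarith
    have hkey2 : 1 / δ ≤ Lq := by
      have h1 : 0 ≤ (R + (1 + δ) * (-Real.logb 2 θ)) * 4 / (3 * δ) := by
        apply div_nonneg _ (by positivity)
        apply mul_nonneg _ (by norm_num)
        apply add_nonneg (Nat.cast_nonneg R)
        apply mul_nonneg (by linarith) (by linarith)
      linarith
    have hLqpos : 0 < Lq := lt_of_lt_of_le (by positivity) hkey2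
    -- upper bound
    have hup : (t : ℝ) ≤ (1 + δ) * Lq := by
      have h1 : (t : ℝ) ≤ ((R * m : ℕ) : ℝ) := by exact_mod_cast htL
      rw [div_le_iff₀ (by positivity)] at hkey
      have h2 : (1 + δ) * (LX + Real.logb 2 θ) ≤ (1 + δ) * Lq :=
        mul_le_mul_of_nonneg_left hLqLX (by linarith)
      nlinarith
    -- lower bound
    have hlow : (1 - δ) * Lq ≤ t := by
      have h1 : 3 / 4 * (q:ℝ) ≤ 2 ^ t := tv_lower a q t (by omega) (Nat.find_spec hex)
      have h2 : Real.logb 2 (3 / 4 * q) ≤ t := by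
        rw [Real.logb_le_iff_le_rpow (by norm_num) (by positivity), Real.rpow_natCast]
        exact h1
      rw [Real.logb_mul (by norm_num) hqpos.ne'] at h2
      have h3 : -1 ≤ Real.logb 2 (3 / 4 : ℝ) := by
        rw [Real.le_logb_iff_rpow_le (by norm_num) (by norm_num)]
        rw [Real.rpow_neg_one]; norm_num
      have h4 : 1 ≤ δ * Lq := by
        rw [div_le_iff₀ hδ] at hkey2
        linarith
      nlinarith
    rw [abs_le]
    constructor
    · rw [neg_le_sub_iff_le_add]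
      have : 1 - δ ≤ (t:ℝ) / Lq := by
        rw [le_div_iff₀ hLqpos]; exact hlow
      linarith
    · have : (t:ℝ) / Lq ≤ 1 + δ := by
        rw [div_le_iff₀ hLqpos]; exact hup
      linarith
  have hcard2 : (((Icc 1 X).filter (fun q : ℕ => (q : ℝ) ≤ θ * X)).card : ℝ) ≤ θ * X := by
    have h1 : (Icc 1 X).filter (fun q : ℕ => (q : ℝ) ≤ θ * X) ⊆ Icc 1 ⌊θ * X⌋₊ := by
      intro q hq
      rw [Finset.mem_filter, Finset.mem_Icc] at hq
      rw [Finset.mem_Icc]
      exact ⟨hq.1.1, Nat.le_floor hq.2⟩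
    have h2 := Finset.card_le_card h1
    rw [Nat.card_Icc, Nat.add_sub_cancel] at h2
    calc (((Icc 1 X).filter (fun q : ℕ => (q : ℝ) ≤ θ * X)).card : ℝ) ≤ (⌊θ * X⌋₊ : ℝ) := by exact_mod_cast h2
      _ ≤ θ * X := Nat.floor_le (by positivity)
  have h5 : ((exc a δ X).card : ℝ) ≤
      (((Icc 1 X).filter (fun q : ℕ => q.Coprime a ∧ 1 / 4 < tv a q (R * m))).card : ℝ) +
      (((Icc 1 X).filter (fun q : ℕ => (q : ℝ) ≤ θ * X)).card : ℝ) := by
    have := (Finset.card_le_card hcover).trans (Finset.card_union_le _ _)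
    exact_mod_cast this
  have h6 : θ * X ≤ ε / 2 * X := mul_le_mul_of_nonneg_right hθε hXpos.le
  linarith

/-- a lower bound for the number of integers up to `X` which are coprime to `a` -/
theorem coprime_card (a : ℕ) (ha : 1 ≤ a) (X : ℕ) (hX : a ≤ X) :
    (X : ℝ) / (2 * a) ≤ (((Icc 1 X).filter (fun q : ℕ => q.Coprime a)).card : ℝ) := by
  have h1 : (range (X / a)).image (fun i => i * a + 1) ⊆ (Icc 1 X).filter (fun q : ℕ => q.Coprime a) := by
    intro q hq
    rw [Finset.mem_image] at hq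
    obtain ⟨i, hi, rfl⟩ := hq
    rw [Finset.mem_range] at hi
    rw [Finset.mem_filter, Finset.mem_Icc]
    refine ⟨⟨by omega, ?_⟩, ?_⟩
    · have h2 : (i + 1) * a ≤ X := by
        calc (i + 1) * a ≤ (X / a) * a := Nat.mul_le_mul_right a hi
          _ ≤ X := Nat.div_mul_le_self X a
      nlinarith
    · rw [Nat.coprime_mul_right_add_left]
      exact Nat.coprime_one_left a
  have h2 : X / a ≤ ((Icc 1 X).filter (fun q : ℕ => q.Coprime a)).card := by
    calc X / a = ((range (X / a)).image (fun i => i * a + 1)).card := by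
          rw [Finset.card_image_of_injective, Finset.card_range]
          intro i j hij
          simp only [Nat.add_right_cancel_iff] at hij
          exact Nat.eq_of_mul_eq_mul_right (by omega) hij
      _ ≤ _ := Finset.card_le_card h1
  have h3 : (X : ℝ) / (2 * a) ≤ ((X / a : ℕ) : ℝ) := by
    have h4 : X < (X / a + 1) * a := by
      rw [mul_comm]; exact Nat.lt_mul_div_succ X (by omega)
    have h5 : 1 ≤ X / a := (Nat.one_le_div_iff (by omega)).2 hX
    have h6 : X ≤ (X / a) * (2 * a) := by nlinarith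
    have ha0 : (0:ℝ) < 2 * a := by
      have : 0 < a := by omega
      have : (0:ℝ) < a := by exact_mod_cast this
      linarith
    rw [div_le_iff₀ ha0]
    exact_mod_cast h6
  refine h3.trans ?_
  exact_mod_cast h2

end H942R3.AX
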