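import Pool.Agent.H942R3.JMDef

open Finset Filter Topology

namespace H942JM

lemma M_le_one (θ : ℝ) : M θ ≤ 1 := by
  unfold M
  have := Real.cos_le_one (2 * Real.pi * θ)
  linarith

lemma half_le_M (θ : ℝ) : 1 / 2 ≤ M θ := by
  unfold M
  have := Real.neg_one_le_cos (2 * Real.pi * θ)
  linarith

lemma M_nonneg (θ : ℝ) : 0 ≤ M θ := by linarith [half_le_M θ]

lemma M_neg (θ : ℝ) : M (-θ) = M θ := by
  unfold M
  rw [mul_neg, Real.cos_neg]

lemma M_add_int (θ : ℝ) (z : ℤ) : M (θ + z) = M θ := by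
  unfold M
  have : 2 * Real.pi * (θ + z) = 2 * Real.pi * θ + z * (2 * Real.pi) := by ring
  rw [this, Real.cos_add_int_mul_two_pi]

lemma M_lower (θ : ℝ) : 1 - 5 * θ ^ 2 ≤ M θ := by
  unfold M
  have h1 := Real.one_sub_sq_div_two_le_cos (x := 2 * Real.pi * θ)
  have h2 : Real.pi ^ 2 ≤ 10 := by
    have := Real.pi_lt_d2
    have h0 := Real.pi_pos
    nlinarith
  nlinarith [sq_nonneg θ, mul_nonneg (sub_nonneg.mpr h2) (sq_nonneg θ)]

lemma M_sub_abs (x y : ℝ) : |M x - M y| ≤ 2 * |x - y| := by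
  unfold M
  have h1 := Real.abs_cos_sub_cos_le (2 * Real.pi * x) (2 * Real.pi * y)
  have e : 3 / 4 + 1 / 4 * Real.cos (2 * Real.pi * x) - (3 / 4 + 1 / 4 * Real.cos (2 * Real.pi * y))
    = 1 / 4 * (Real.cos (2 * Real.pi * x) - Real.cos (2 * Real.pi * y)) := by ring
  rw [e, abs_mul, abs_of_pos (by norm_num : (0:ℝ) < 1 / 4)]
  have e2 : 2 * Real.pi * x - 2 * Real.pi * y = 2 * Real.pi * (x - y) := by ring
  rw [e2, abs_mul, abs_of_pos Real.two_pi_pos] at h1
  have h3 := Real.pi_le_four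
  nlinarith [abs_nonneg (x - y)]

lemma M_zero : M 0 = 1 := by
  unfold M; rw [mul_zero, Real.cos_zero]; norm_num

lemma M_diff (x y : ℝ) : |M (x - y) - M x * M y| ≤ 4 * |y| := by
  have h1 := M_sub_abs (x - y) x
  have h2 := M_sub_abs 0 y
  rw [M_zero] at h2
  have e1 : x - y - x = -y := by ring
  have e2 : (0 : ℝ) - y = -y := by ring
  rw [e1, abs_neg] at h1
  rw [e2, abs_neg] at h2
  have e : M (x - y) - M x * M y = (M (x - y) - M x) + M x * (1 - M y) := by ring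
  rw [e]
  have h3 : |M x * (1 - M y)| ≤ 2 * |y| := by
    rw [abs_mul, abs_of_nonneg (M_nonneg x)]
    calc M x * |1 - M y| ≤ 1 * |1 - M y| :=
          mul_le_mul_of_nonneg_right (M_le_one x) (abs_nonneg _)
      _ ≤ 2 * |y| := by rw [one_mul]; exact h2
  calc _ ≤ |M (x - y) - M x| + |M x * (1 - M y)| := abs_add_le _ _
    _ ≤ 4 * |y| := by linarith

lemma M_diff' (x y : ℝ) : |M (x - y) - M x * M y| ≤ 4 * |x| := by
  have h := M_diff y x
  rw [mul_comm (M y) (M x), ← M_neg (y - x), neg_sub] at h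
  exact h

lemma prod_lower (y : ℕ → ℝ) (hy : ∀ t, |y t| ≤ (1 / 2) ^ t) (m : ℕ) :
    1 / 4 * (7 / 12 + 5 / 12 * (1 / 4 : ℝ) ^ m) ≤ ∏ t ∈ range (m + 2), M (y t) := by
  induction m with
  | zero =>
    rw [zero_add, Finset.prod_range_succ, Finset.prod_range_succ, Finset.prod_range_zero]
    have h0 := half_le_M (y 0)
    have h1 := half_le_M (y 1)
    nlinarith
  | succ m ih =>
    rw [show m + 1 + 2 = (m + 2) + 1 from rfl, Finset.prod_range_succ]
    have h1 := M_lower (y (m + 2))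
    have h2 : (y (m + 2)) ^ 2 ≤ 1 / 16 * (1 / 4 : ℝ) ^ m := by
      have h3 := hy (m + 2)
      have h4 : (y (m + 2)) ^ 2 = |y (m + 2)| ^ 2 := (sq_abs _).symm
      have h5 : |y (m + 2)| ^ 2 ≤ ((1 / 2 : ℝ) ^ (m + 2)) ^ 2 :=
        pow_le_pow_left₀ (abs_nonneg _) h3 2
      have h6 : ((1 / 2 : ℝ) ^ (m + 2)) ^ 2 = 1 / 16 * (1 / 4 : ℝ) ^ m := by
        rw [← pow_mul, mul_comm (m + 2) 2, pow_mul, pow_add]
        norm_num
        ring
      rw [h4]; rw [h6] at h5; exact h5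
    set z := (1 / 4 : ℝ) ^ m with hz
    have hz0 : 0 < z := by positivity
    have hz1 : z ≤ 1 := pow_le_one₀ (by norm_num) (by norm_num)
    have h7 : 1 - 5 / 16 * z ≤ M (y (m + 2)) := by linarith
    have h8 : (1 / 4 : ℝ) ^ (m + 1) = 1 / 4 * z := by rw [pow_succ, mul_comm]
    rw [h8]
    calc 1 / 4 * (7 / 12 + 5 / 12 * (1 / 4 * z))
        ≤ (1 / 4 * (7 / 12 + 5 / 12 * z)) * (1 - 5 / 16 * z) := by nlinarith
      _ ≤ (1 / 4 * (7 / 12 + 5 / 12 * z)) * M (y (m + 2)) :=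
          mul_le_mul_of_nonneg_left h7 (by positivity)
      _ ≤ _ := mul_le_mul_of_nonneg_right ih (M_nonneg _)

lemma sum_shift (F : ℕ → ℝ) (m : ℕ) (hF : ∀ j, F (j + m) = F j) (i : ℕ) :
    ∑ k ∈ range m, F (i + k) = ∑ k ∈ range m, F k := by
  induction i with
  | zero => simp
  | succ i ih =>
    rw [← ih]
    have h1 := Finset.sum_range_succ (fun k => F (i + k)) m
    have h2 := Finset.sum_range_succ' (fun k => F (i + k)) m
    rw [h1] at h2
    simp only [hF, add_zero] at h2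
    have h3 : ∑ k ∈ range m, F (i + 1 + k) = ∑ k ∈ range m, F (i + (k + 1)) :=
      Finset.sum_congr rfl fun k _ => by congr 1; ring
    rw [h3]
    linarith

lemma prod_shift (F : ℕ → ℝ) (m : ℕ) (hF : ∀ j, F (j + m) = F j) (hne : ∀ j, F j ≠ 0) (i : ℕ) :
    ∏ k ∈ range m, F (i + k) = ∏ k ∈ range m, F k := by
  induction i with
  | zero => simp
  | succ i ih =>
    rw [← ih]
    have h1 := Finset.prod_range_succ (fun k => F (i + k)) m
    have h2 := Finset.prod_range_succ' (fun k => F (i + k)) m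
    rw [h1] at h2
    simp only [hF, add_zero] at h2
    have h3 : ∏ k ∈ range m, F (i + 1 + k) = ∏ k ∈ range m, F (i + (k + 1)) :=
      Finset.prod_congr rfl fun k _ => by congr 1; ring
    rw [h3]
    exact (mul_right_cancel₀ (hne i) h2).symm

lemma prod_periods (F : ℕ → ℝ) (m : ℕ) (hF : ∀ j, F (j + m) = F j) (hne : ∀ j, F j ≠ 0)
    (i L : ℕ) :
    ∏ k ∈ range (L * m), F (i + k) = (∏ k ∈ range m, F k) ^ L := by
  induction L with
  | zero => simp
  | succ L ih =>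
    rw [add_mul, one_mul, Finset.prod_range_add, ih, pow_succ]
    congr 1
    rw [← prod_shift F m hF hne (i + L * m)]
    exact Finset.prod_congr rfl fun k _ => by congr 1; ring

lemma prod_lower_n (F : ℕ → ℝ) (m : ℕ) (hF : ∀ j, F (j + m) = F j) (hpos : ∀ j, 0 < F j)
    (hle : ∀ j, F j ≤ 1) (i L n : ℕ) (hn : n ≤ L * m) :
    (∏ k ∈ range m, F k) ^ L ≤ ∏ k ∈ range n, F (i + k) := by
  rw [← prod_periods F m hF (fun j => (hpos j).ne') i L]
  obtain ⟨e, he⟩ := Nat.exists_eq_add_of_le hn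
  rw [he, Finset.prod_range_add]
  have h1 : ∏ x ∈ range e, F (i + (n + x)) ≤ 1 :=
    Finset.prod_le_one (fun x _ => (hpos _).le) fun x _ => hle _
  have h2 : 0 ≤ ∏ x ∈ range n, F (i + x) := Finset.prod_nonneg fun x _ => (hpos _).le
  nlinarith

lemma prod_sub_prod (u v : ℕ → ℝ) (hu0 : ∀ k, 0 ≤ u k) (hu1 : ∀ k, u k ≤ 1)
    (hv0 : ∀ k, 0 ≤ v k) (hv1 : ∀ k, v k ≤ 1) (n : ℕ) :
    |∏ k ∈ range n, u k - ∏ k ∈ range n, v k| ≤ ∑ k ∈ range n, |u k - v k| := by
  induction n with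
  | zero => simp
  | succ n ih =>
    rw [Finset.prod_range_succ, Finset.prod_range_succ, Finset.sum_range_succ]
    have hU0 : 0 ≤ ∏ k ∈ range n, u k := Finset.prod_nonneg fun k _ => hu0 k
    have hU1 : ∏ k ∈ range n, u k ≤ 1 := Finset.prod_le_one (fun k _ => hu0 k) fun k _ => hu1 k
    set U := ∏ k ∈ range n, u k
    set V := ∏ k ∈ range n, v k
    have e : U * u n - V * v n = U * (u n - v n) + (U - V) * v n := by ring
    rw [e]
    calc |U * (u n - v n) + (U - V) * v n|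
        ≤ |U * (u n - v n)| + |(U - V) * v n| := abs_add_le _ _
      _ = U * |u n - v n| + |U - V| * v n := by
          rw [abs_mul, abs_mul, abs_of_nonneg hU0, abs_of_nonneg (hv0 n)]
      _ ≤ 1 * |u n - v n| + |U - V| * 1 := by
          gcongr
          exact hv1 n
      _ ≤ _ := by linarith

/-- The geometric sequence of frequencies. -/
noncomputable def g (a c m : ℕ) (j : ℕ) : ℝ := (c : ℝ) * (a : ℝ) ^ j / ((a : ℝ) ^ m - 1)

section
variable {a c m : ℕ}

lemma denom_pos (ha : 2 ≤ a) (hm : 2 ≤ m) : (0 : ℝ) < (a : ℝ) ^ m - 1 := by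
  have h1 : (1 : ℝ) < a := by exact_mod_cast (by omega : 1 < a)
  have := one_lt_pow₀ h1 (by omega : m ≠ 0)
  linarith

lemma g_pow_mul (i k : ℕ) : (a : ℝ) ^ k * g a c m i = g a c m (i + k) := by
  unfold g
  rw [pow_add]
  ring

lemma g_period (ha : 2 ≤ a) (hm : 2 ≤ m) (j : ℕ) :
    g a c m (j + m) = g a c m j + ((c * a ^ j : ℕ) : ℤ) := by
  have h := denom_pos ha hm
  unfold g
  rw [pow_add]
  push_cast
  field_simp
  ring

lemma g_pos (ha : 2 ≤ a) (hc : 1 ≤ c) (hm : 2 ≤ m) (j : ℕ) : 0 < g a c m j := by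
  have h := denom_pos ha hm
  have h1 : (0 : ℝ) < a := by exact_mod_cast (by omega : 0 < a)
  have h2 : (0 : ℝ) < c := by exact_mod_cast (by omega : 0 < c)
  unfold g
  positivity

lemma g_last (ha : 2 ≤ a) (hm : 2 ≤ m) (h1 : c * a ^ (m - 1) + 1 < a ^ m) :
    g a c m (m - 1) < 1 := by
  have h := denom_pos ha hm
  unfold g
  rw [div_lt_one h]
  have : ((c * a ^ (m - 1) + 1 : ℕ) : ℝ) < ((a ^ m : ℕ) : ℝ) := by exact_mod_cast h1
  push_cast at this
  linarith

lemma g_strictMono (ha : 2 ≤ a) (hc : 1 ≤ c) (hm : 2 ≤ m) : StrictMono (g a c m) := by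
  apply strictMono_nat_of_lt_succ
  intro n
  rw [← g_pow_mul n 1, pow_one]
  have h1 : (2 : ℝ) ≤ a := by exact_mod_cast ha
  have h2 := g_pos (c := c) ha hc hm n
  nlinarith

lemma g_le (ha : 2 ≤ a) (hc : 1 ≤ c) (hm : 2 ≤ m) (h1 : c * a ^ (m - 1) + 1 < a ^ m)
    (t : ℕ) (ht : t < m) : g a c m (m - 1 - t) ≤ (1 / 2) ^ t := by
  have h2 := g_last ha hm h1
  have h3 := g_pow_mul (a := a) (c := c) (m := m) (m - 1 - t) t
  rw [show m - 1 - t + t = m - 1 by omega] at h3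
  rw [← h3] at h2
  have h4 : (2 : ℝ) ^ t ≤ (a : ℝ) ^ t :=
    pow_le_pow_left₀ (by norm_num) (by exact_mod_cast ha) t
  have h5 := g_pos (c := c) ha hc hm (m - 1 - t)
  have h6 : (2 : ℝ) ^ t * g a c m (m - 1 - t) ≤ 1 := by
    calc _ ≤ (a : ℝ) ^ t * g a c m (m - 1 - t) := mul_le_mul_of_nonneg_right h4 h5.le
      _ ≤ 1 := h2.le
  rw [one_div, inv_pow, ← one_div, le_div_iff₀ (by positivity)]
  linarith [mul_comm (g a c m (m - 1 - t)) ((2:ℝ) ^ t)]

/-- Product over one period. -/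
lemma period_prod (ha : 2 ≤ a) (hc : 1 ≤ c) (hm : 2 ≤ m) (h1 : c * a ^ (m - 1) + 1 < a ^ m) :
    1 / 8 ≤ ∏ k ∈ range m, M (g a c m k) := by
  rw [← Finset.prod_range_reflect]
  obtain ⟨m', rfl⟩ := Nat.exists_eq_add_of_le' hm
  set y : ℕ → ℝ := fun t => if t < m' + 2 then g a c (m' + 2) (m' + 2 - 1 - t) else 0 with hy
  have hyb : ∀ t, |y t| ≤ (1 / 2) ^ t := by
    intro t
    rw [hy]
    simp only
    split_ifs with h
    · rw [abs_of_pos (g_pos ha hc hm _)]
      exact g_le ha hc hm h1 t h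
    · rw [abs_zero]; positivity
  have h2 := prod_lower y hyb m'
  have h3 : ∏ t ∈ range (m' + 2), M (y t)
      = ∏ j ∈ range (m' + 2), M (g a c (m' + 2) (m' + 2 - 1 - j)) := by
    refine Finset.prod_congr rfl fun t ht => ?_
    rw [hy]
    simp only
    rw [if_pos (Finset.mem_range.mp ht)]
  rw [← h3]
  have h4 : (0 : ℝ) < (1 / 4 : ℝ) ^ m' := by positivity
  linarith

/-- The pair correlation. -/
noncomputable def G (a c m : ℕ) (i j : ℕ) : ℝ :=
  |M (g a c m i - g a c m j) - M (g a c m i) * M (g a c m j)|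

lemma G_per_left (ha : 2 ≤ a) (hm : 2 ≤ m) (i j : ℕ) : G a c m (i + m) j = G a c m i j := by
  unfold G
  rw [g_period ha hm, M_add_int,
    show g a c m i + (((c * a ^ i : ℕ) : ℤ) : ℝ) - g a c m j
      = (g a c m i - g a c m j) + (((c * a ^ i : ℕ) : ℤ) : ℝ) by ring, M_add_int]

lemma G_symm (i j : ℕ) : G a c m i j = G a c m j i := by
  unfold G
  rw [mul_comm (M (g a c m i)), ← M_neg, neg_sub]

lemma G_per_right (ha : 2 ≤ a) (hm : 2 ≤ m) (i j : ℕ) : G a c m i (j + m) = G a c m i j := by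
  rw [G_symm, G_per_left ha hm, G_symm]

lemma G_sum_shift (ha : 2 ≤ a) (hm : 2 ≤ m) (k : ℕ) :
    ∑ i ∈ range m, ∑ j ∈ range m, G a c m (i + k) (j + k)
      = ∑ i ∈ range m, ∑ j ∈ range m, G a c m i j := by
  have h1 : ∀ i, ∑ j ∈ range m, G a c m (i + k) (j + k) = ∑ j ∈ range m, G a c m (i + k) j := by
    intro i
    rw [← sum_shift (fun j => G a c m (i + k) j) m (fun j => G_per_right ha hm _ _) k]
    exact Finset.sum_congr rfl fun j _ => by rw [add_comm j k]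
  simp_rw [h1]
  rw [← sum_shift (fun i => ∑ j ∈ range m, G a c m i j) m
    (fun i => Finset.sum_congr rfl fun j _ => G_per_left ha hm _ _) k]
  exact Finset.sum_congr rfl fun i _ => by rw [add_comm i k]

lemma G_le (ha : 2 ≤ a) (hc : 1 ≤ c) (hm : 2 ≤ m) (h1 : c * a ^ (m - 1) + 1 < a ^ m)
    (t u : ℕ) (ht : t < m) (hu : u < m) :
    G a c m (m - 1 - t) (m - 1 - u) ≤ 4 * ((3 / 4) ^ t * (3 / 4) ^ u) := by
  have hgt := g_le ha hc hm h1 t ht
  have hgu := g_le ha hc hm h1 u hu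
  have hpt := g_pos (c := c) ha hc hm (m - 1 - t)
  have hpu := g_pos (c := c) ha hc hm (m - 1 - u)
  have key : ∀ s : ℕ, ((1 : ℝ) / 2) ^ s ≤ (3 / 4) ^ s * (3 / 4) ^ s := by
    intro s
    rw [← mul_pow]
    exact pow_le_pow_left₀ (by norm_num) (by norm_num) s
  unfold G
  rcases le_total t u with htu | hut
  · refine (M_diff _ _).trans ?_
    rw [abs_of_pos hpu]
    refine mul_le_mul_of_nonneg_left (hgu.trans ((key u).trans ?_)) (by norm_num)
    exact mul_le_mul_of_nonneg_right (pow_le_pow_of_le_one (by norm_num) (by norm_num) htu)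
      (by positivity)
  · refine (M_diff' _ _).trans ?_
    rw [abs_of_pos hpt]
    refine mul_le_mul_of_nonneg_left (hgt.trans ((key t).trans ?_)) (by norm_num)
    exact mul_le_mul_of_nonneg_left (pow_le_pow_of_le_one (by norm_num) (by norm_num) hut)
      (by positivity)

lemma geom34 (m : ℕ) : ∑ t ∈ range m, (3 / 4 : ℝ) ^ t ≤ 4 := by
  rw [geom_sum_eq (by norm_num)]
  have : (0 : ℝ) < (3 / 4 : ℝ) ^ m := by positivity
  rw [div_le_iff_of_neg (by norm_num)]
  linarith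

lemma G_total (ha : 2 ≤ a) (hc : 1 ≤ c) (hm : 2 ≤ m) (h1 : c * a ^ (m - 1) + 1 < a ^ m) :
    ∑ i ∈ range m, ∑ j ∈ range m, G a c m i j ≤ 64 := by
  rw [← Finset.sum_range_reflect]
  have h2 : ∀ i, ∑ j ∈ range m, G a c m i j = ∑ j ∈ range m, G a c m i (m - 1 - j) := by
    intro i
    rw [← Finset.sum_range_reflect]
  simp_rw [h2]
  calc ∑ t ∈ range m, ∑ u ∈ range m, G a c m (m - 1 - t) (m - 1 - u)
      ≤ ∑ t ∈ range m, ∑ u ∈ range m, 4 * ((3 / 4 : ℝ) ^ t * (3 / 4) ^ u) := by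
        refine Finset.sum_le_sum fun t ht => Finset.sum_le_sum fun u hu => ?_
        exact G_le ha hc hm h1 t u (Finset.mem_range.mp ht) (Finset.mem_range.mp hu)
    _ = 4 * ((∑ t ∈ range m, (3 / 4 : ℝ) ^ t) * ∑ u ∈ range m, (3 / 4 : ℝ) ^ u) := by
        rw [Finset.sum_mul_sum, Finset.mul_sum]
        exact Finset.sum_congr rfl fun t _ => by rw [Finset.mul_sum]
    _ ≤ 64 := by
        have h3 := geom34 m
        have h4 : 0 ≤ ∑ t ∈ range m, (3 / 4 : ℝ) ^ t := Finset.sum_nonneg fun t _ => by positivity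
        nlinarith

end

end H942JM
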