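import Mathlib

/-!
# Definitions for the joint mixing problem of the base-2 and base-3 walks
-/

open Finset Filter Topology

namespace H942JM

/-- The law of `X_n`, where `X_0 = 0` and `X_{n+1} = a X_n + b_n` with `b_n` independent of
law `μ`. -/
noncomputable def law (μ : ℤ →₀ ℝ) (a : ℤ) : ℕ → (ℤ →₀ ℝ)
  | 0 => Finsupp.single 0 1
  | n + 1 => (law μ a n).sum fun x p => μ.sum fun b r => Finsupp.single (a * x + b) (p * r)

/-- The mass which `P` gives to the residue class of `r` modulo `q`. -/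
noncomputable def residueMass (P : ℤ →₀ ℝ) (q : ℕ) (r : ℕ) : ℝ :=
  P.sum fun x p => if (q : ℤ) ∣ x - r then p else 0

/-- Total variation distance of `X_n mod q` from the uniform measure on `ℤ / q ℤ`. -/
noncomputable def tvDist (μ : ℤ →₀ ℝ) (a : ℤ) (q n : ℕ) : ℝ :=
  (1 / 2) * ∑ r ∈ range q, |residueMass (law μ a n) q r - 1 / (q : ℝ)|

/-- Shannon entropy (natural logarithm). -/
noncomputable def entropy (P : ℤ →₀ ℝ) : ℝ := P.sum fun _ p => p * Real.log (1 / p)

/-- The entropy rate of the base-`a` walk. -/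
noncomputable def entropyRate (μ : ℤ →₀ ℝ) (a : ℤ) : ℝ :=
  limUnder atTop fun n : ℕ => entropy (law μ a n) / (n : ℝ)

/-- `μ` is a finitely supported probability measure on `ℤ` whose support differences have
greatest common divisor one. -/
structure IsStepLaw (μ : ℤ →₀ ℝ) : Prop where
  nonneg : ∀ x, 0 ≤ μ x
  total : (μ.sum fun _ p => p) = 1
  gcd_one : ∀ d : ℤ, (∀ x ∈ μ.support, ∀ y ∈ μ.support, d ∣ x - y) → IsUnit d

/-- The base-`a` walk modulo `q` is mixed up to `ε` from time `(1+ε) log q / H(μ,a)` on. -/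
def MixesFast (μ : ℤ →₀ ℝ) (a : ℤ) (ε : ℝ) (q : ℕ) : Prop :=
  ∀ n : ℕ, (1 + ε) * Real.log q / entropyRate μ a ≤ (n : ℝ) → tvDist μ a q n ≤ ε

/-- The assertion of Q1. -/
def JointMixing : Prop :=
  ∀ μ : ℤ →₀ ℝ, IsStepLaw μ → ∀ ε : ℝ, 0 < ε → ∃ q₀ : ℕ, ∀ q : ℕ, q₀ ≤ q → Nat.gcd q 6 = 1 →
    MixesFast μ 2 ε q ∨ MixesFast μ 3 ε q

/-- The step law `3/4 δ_0 + 1/8 δ_1 + 1/8 δ_{-1}`. -/
noncomputable def mu0 : ℤ →₀ ℝ :=
  Finsupp.single 0 (3 / 4) + Finsupp.single 1 (1 / 8) + Finsupp.single (-1) (1 / 8)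

/-- Expectation of `f`. -/
noncomputable def E (P : ℤ →₀ ℝ) (f : ℤ → ℝ) : ℝ := P.sum fun x p => p * f x

lemma E_add_fun (P : ℤ →₀ ℝ) (f g : ℤ → ℝ) : E P (fun x => f x + g x) = E P f + E P g := by
  unfold E Finsupp.sum
  rw [← Finset.sum_add_distrib]
  exact Finset.sum_congr rfl fun x _ => by ring

lemma E_smul_fun (P : ℤ →₀ ℝ) (c : ℝ) (f : ℤ → ℝ) : E P (fun x => c * f x) = c * E P f := by
  unfold E Finsupp.sum
  rw [Finset.mul_sum]
  exact Finset.sum_congr rfl fun x _ => by ring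

lemma E_sum_fun {ι : Type*} (P : ℤ →₀ ℝ) (s : Finset ι) (f : ι → ℤ → ℝ) :
    E P (fun x => ∑ i ∈ s, f i x) = ∑ i ∈ s, E P (f i) := by
  unfold E Finsupp.sum
  rw [Finset.sum_comm]
  refine Finset.sum_congr rfl fun x _ => ?_
  simp only [Finset.mul_sum]

lemma E_law_succ (a : ℤ) (n : ℕ) (f : ℤ → ℝ) :
    E (law mu0 a (n + 1)) f = E (law mu0 a n)
      (fun x => 3 / 4 * f (a * x) + 1 / 8 * f (a * x + 1) + 1 / 8 * f (a * x - 1)) := by
  have key : ∀ (x : ℤ) (p : ℝ),
      ((mu0.sum fun b r => Finsupp.single (a * x + b) (p * r)).sum fun x p => p * f x)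
        = p * (3 / 4 * f (a * x) + 1 / 8 * f (a * x + 1) + 1 / 8 * f (a * x - 1)) := by
    intro x p
    rw [Finsupp.sum_sum_index (by intro a; ring) (by intro a b1 b2; ring)]
    have : ∀ (b : ℤ) (r : ℝ), ((Finsupp.single (a * x + b) (p * r)).sum fun x p => p * f x)
        = p * r * f (a * x + b) := by
      intro b r
      rw [Finsupp.sum_single_index (by ring)]
    simp only [this]
    unfold mu0
    rw [Finsupp.sum_add_index' (by intro a; ring) (by intro a b1 b2; ring),
      Finsupp.sum_add_index' (by intro a; ring) (by intro a b1 b2; ring),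
      Finsupp.sum_single_index (by ring), Finsupp.sum_single_index (by ring),
      Finsupp.sum_single_index (by ring)]
    rw [add_zero, ← sub_eq_add_neg]
    ring
  unfold E
  rw [law, Finsupp.sum_sum_index (by intro a; ring) (by intro a b1 b2; ring)]
  unfold Finsupp.sum
  refine Finset.sum_congr rfl fun x _ => ?_
  exact key x _

lemma law_nonneg {μ : ℤ →₀ ℝ} (hμ : ∀ x, 0 ≤ μ x) (a : ℤ) (n : ℕ) (x : ℤ) :
    0 ≤ law μ a n x := by
  induction n generalizing x with
  | zero =>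
    rw [law, Finsupp.single_apply]
    split_ifs <;> norm_num
  | succ n ih =>
    rw [law]
    unfold Finsupp.sum
    rw [Finsupp.finsetSum_apply]
    refine Finset.sum_nonneg fun y _ => ?_
    rw [Finsupp.finsetSum_apply]
    refine Finset.sum_nonneg fun b _ => ?_
    rw [Finsupp.single_apply]
    split_ifs
    · exact mul_nonneg (ih y) (hμ b)
    · exact le_rfl

lemma mu0_apply (x : ℤ) : mu0 x = (if 0 = x then 3 / 4 else 0) + (if 1 = x then 1 / 8 else 0)
    + (if -1 = x then 1 / 8 else 0) := by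
  unfold mu0
  simp only [Finsupp.add_apply, Finsupp.single_apply]

lemma mu0_nonneg (x : ℤ) : 0 ≤ mu0 x := by
  rw [mu0_apply]
  split_ifs <;> norm_num

lemma mu0_isStepLaw : IsStepLaw mu0 where
  nonneg := mu0_nonneg
  total := by
    unfold mu0
    rw [Finsupp.sum_add_index' (by intro a; ring) (by intro a b1 b2; ring),
      Finsupp.sum_add_index' (by intro a; ring) (by intro a b1 b2; ring),
      Finsupp.sum_single_index (by ring), Finsupp.sum_single_index (by ring),
      Finsupp.sum_single_index (by ring)]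
    norm_num
  gcd_one := by
    intro d hd
    have h0 : (0 : ℤ) ∈ mu0.support := by
      rw [Finsupp.mem_support_iff, mu0_apply]; norm_num
    have h1 : (1 : ℤ) ∈ mu0.support := by
      rw [Finsupp.mem_support_iff, mu0_apply]; norm_num
    have := hd 1 h1 0 h0
    rw [sub_zero] at this
    exact isUnit_of_dvd_one this

lemma E_one (a : ℤ) (n : ℕ) : E (law mu0 a n) (fun _ => 1) = 1 := by
  induction n with
  | zero =>
    unfold E
    rw [law, Finsupp.sum_single_index (by ring)]; norm_num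
  | succ n ih =>
    rw [E_law_succ]
    have h : (fun _ : ℤ => (3 / 4 * 1 + 1 / 8 * 1 + 1 / 8 * 1 : ℝ)) = fun _ => 1 := by
      funext x; norm_num
    rw [h, ih]

lemma E_mono {P : ℤ →₀ ℝ} (hP : ∀ x, 0 ≤ P x) {f g : ℤ → ℝ} (h : ∀ x, f x ≤ g x) :
    E P f ≤ E P g := by
  unfold E Finsupp.sum
  exact Finset.sum_le_sum fun x _ => mul_le_mul_of_nonneg_left (h x) (hP x)

/-- The characteristic function of `mu0`. -/
noncomputable def M (θ : ℝ) : ℝ := 3 / 4 + 1 / 4 * Real.cos (2 * Real.pi * θ)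

lemma E_cos (a : ℤ) (n : ℕ) (θ : ℝ) :
    E (law mu0 a n) (fun x => Real.cos (2 * Real.pi * θ * x))
      = ∏ k ∈ range n, M ((a : ℝ) ^ k * θ) := by
  induction n generalizing θ with
  | zero =>
    unfold E
    rw [law, Finsupp.sum_single_index (by ring)]
    simp
  | succ n ih =>
    rw [E_law_succ, Finset.prod_range_succ', pow_zero, one_mul]
    have h1 : (fun x : ℤ => 3 / 4 * Real.cos (2 * Real.pi * θ * ((a * x : ℤ) : ℝ))
        + 1 / 8 * Real.cos (2 * Real.pi * θ * ((a * x + 1 : ℤ) : ℝ))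
        + 1 / 8 * Real.cos (2 * Real.pi * θ * ((a * x - 1 : ℤ) : ℝ)))
        = fun x : ℤ => M θ * Real.cos (2 * Real.pi * (a * θ) * x) := by
      funext x
      unfold M
      push_cast
      have e1 : 2 * Real.pi * θ * ((a : ℝ) * x + 1) = 2 * Real.pi * (a * θ) * x + 2 * Real.pi * θ := by
        ring
      have e2 : 2 * Real.pi * θ * ((a : ℝ) * x - 1) = 2 * Real.pi * (a * θ) * x - 2 * Real.pi * θ := by
        ring
      have e3 : 2 * Real.pi * θ * ((a : ℝ) * x) = 2 * Real.pi * (a * θ) * x := by ring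
      rw [e1, e2, e3, Real.cos_add, Real.cos_sub]
      ring
    rw [h1, E_smul_fun, ih, mul_comm]
    congr 1
    refine Finset.prod_congr rfl fun k _ => ?_
    rw [pow_succ]
    congr 1
    ring

/-- Summation against the residue masses. -/
lemma sum_residueMass (P : ℤ →₀ ℝ) (q : ℕ) (hq : 0 < q) (f : ℤ → ℝ)
    (hf : ∀ x y : ℤ, (q : ℤ) ∣ x - y → f x = f y) :
    ∑ r ∈ range q, residueMass P q r * f r = E P f := by
  unfold residueMass E Finsupp.sum
  simp_rw [Finset.sum_mul]
  rw [Finset.sum_comm]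
  refine Finset.sum_congr rfl fun x _ => ?_
  have hq' : (0 : ℤ) < q := by exact_mod_cast hq
  have h0 : 0 ≤ x % (q : ℤ) := Int.emod_nonneg _ hq'.ne'
  have h1 : x % (q : ℤ) < q := Int.emod_lt_of_pos _ hq'
  have hcast : (((x % (q : ℤ)).toNat : ℕ) : ℤ) = x % (q : ℤ) := Int.toNat_of_nonneg h0
  have hdvd : (q : ℤ) ∣ x - ((x % (q : ℤ)).toNat : ℕ) := by
    rw [hcast]
    exact Int.dvd_self_sub_emod
  rw [Finset.sum_eq_single ((x % (q : ℤ)).toNat)]
  · rw [if_pos hdvd, ← hf x _ hdvd]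
  · intro r hr hne
    rw [if_neg, zero_mul]
    intro hd
    apply hne
    have h2 : (q : ℤ) ∣ ((x % (q : ℤ)).toNat : ℤ) - (r : ℤ) := by
      have := dvd_sub hd hdvd
      have e : x - (r : ℤ) - (x - (((x % (q : ℤ)).toNat : ℕ) : ℤ))
        = (((x % (q : ℤ)).toNat : ℕ) : ℤ) - r := by ring
      rwa [e] at this
    have hr' := Finset.mem_range.mp hr
    have h3 : (((x % (q : ℤ)).toNat : ℕ) : ℤ) - r = 0 := by
      apply Int.eq_zero_of_abs_lt_dvd h2
      rw [hcast, abs_lt]
      constructor <;> omega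
    omega
  · intro hn
    exfalso
    apply hn
    rw [Finset.mem_range]
    omega

end H942JM
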