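import Pool.Agent.H942R3.JMTV

open Finset Filter Topology

namespace H942JM

lemma numeric {m : ℕ} (hm : 1 ≤ m) {δ : ℝ} (hδ : 0 < δ) (hbig : (33280 / δ) ^ 2 ≤ 2 * (m : ℝ)) :
    (256 * (⌈Real.log (2 * m) / 20⌉₊ : ℝ) + 4) * 64 ^ ⌈Real.log (2 * m) / 20⌉₊ / (m : ℝ) ≤ δ := by
  have hmR : (1 : ℝ) ≤ m := by exact_mod_cast hm
  set ℓ : ℝ := Real.log (2 * m) / 20 with hℓ
  have hℓ0 : 0 ≤ ℓ := by
    rw [hℓ]
    exact div_nonneg (Real.log_nonneg (by linarith)) (by norm_num)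
  set L : ℕ := ⌈ℓ⌉₊ with hL
  have hL1 : (L : ℝ) ≤ ℓ + 1 := (Nat.ceil_lt_add_one hℓ0).le
  set y : ℝ := Real.exp (Real.log (2 * m) / 2) with hy
  have hy0 : 0 < y := Real.exp_pos _
  have hy2 : y ^ 2 = 2 * m := by
    rw [hy, ← Real.exp_nat_mul]
    have : ((2 : ℕ) : ℝ) * (Real.log (2 * m) / 2) = Real.log (2 * m) := by push_cast; ring
    rw [this, Real.exp_log (by linarith)]
  have h64 : (64 : ℝ) ^ L ≤ 64 * Real.exp (5 * ℓ) := by
    have hlog : Real.log 64 ≤ 5 := by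
      have : (64 : ℝ) = 2 ^ 6 := by norm_num
      rw [this, Real.log_pow]
      have := Real.log_two_lt_d9
      push_cast
      linarith
    have h1 : (64 : ℝ) ^ L = Real.exp (L * Real.log 64) := by
      rw [Real.exp_nat_mul, Real.exp_log (by norm_num)]
    have hlog0 : 0 ≤ Real.log 64 := Real.log_nonneg (by norm_num)
    rw [h1]
    calc Real.exp (L * Real.log 64) ≤ Real.exp ((ℓ + 1) * Real.log 64) :=
          Real.exp_le_exp.mpr (mul_le_mul_of_nonneg_right hL1 hlog0)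
      _ = Real.exp (Real.log 64) * Real.exp (ℓ * Real.log 64) := by
          rw [← Real.exp_add]; congr 1; ring
      _ = 64 * Real.exp (ℓ * Real.log 64) := by rw [Real.exp_log (by norm_num)]
      _ ≤ 64 * Real.exp (5 * ℓ) :=
          mul_le_mul_of_nonneg_left (Real.exp_le_exp.mpr (by nlinarith)) (by norm_num)
  have h256 : 256 * (L : ℝ) + 4 ≤ 260 * Real.exp (5 * ℓ) := by
    have h1 : 5 * ℓ + 1 ≤ Real.exp (5 * ℓ) := Real.add_one_le_exp _
    nlinarith
  have hprod : (256 * (L : ℝ) + 4) * 64 ^ L ≤ 16640 * y := by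
    calc (256 * (L : ℝ) + 4) * 64 ^ L
        ≤ (260 * Real.exp (5 * ℓ)) * (64 * Real.exp (5 * ℓ)) :=
          mul_le_mul h256 h64 (by positivity) (by positivity)
      _ = 16640 * (Real.exp (5 * ℓ) * Real.exp (5 * ℓ)) := by ring
      _ = 16640 * y := by
          rw [← Real.exp_add, hy, hℓ]; congr 2; ring
  have hyδ : 33280 / δ ≤ y := by
    rw [← hy2] at hbig
    exact (pow_le_pow_iff_left₀ (by positivity) hy0.le (by norm_num)).mp hbig
  have hm' : (m : ℝ) = y ^ 2 / 2 := by linarith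
  rw [div_le_iff₀ (by linarith)]
  refine hprod.trans ?_
  rw [div_le_iff₀ hδ] at hyδ
  rw [hm']
  nlinarith

lemma log_six : Real.log 6 ≤ 2 := by
  rw [Real.log_le_iff_le_exp (by norm_num)]
  have h1 := Real.exp_one_gt_d9
  have h2 : Real.exp 2 = Real.exp 1 * Real.exp 1 := by rw [← Real.exp_add]; norm_num
  rw [h2]
  nlinarith

/-- The slow walks. -/
theorem slow_walks (δ : ℝ) (hδ : 0 < δ) (Q0 : ℕ) :
    ∃ q : ℕ, Q0 ≤ q ∧ Nat.gcd q 6 = 1 ∧ ∀ a ∈ ({2, 3} : Set ℤ), ∀ n : ℕ,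
      (n : ℝ) ≤ 1 / 40 * (Real.log q * Real.log (Real.log q)) → 1 - δ ≤ tvDist mu0 a q n := by
  set k : ℕ := Q0 + ⌈(33280 / δ) ^ 2⌉₊ + 1 with hk
  set m : ℕ := 2 * k + 1 with hm
  have hm3 : 3 ≤ m := by omega
  have hbig : (33280 / δ) ^ 2 ≤ 2 * (m : ℝ) := by
    have h1 : (33280 / δ) ^ 2 ≤ (⌈(33280 / δ) ^ 2⌉₊ : ℝ) := Nat.le_ceil _
    have h2 : ⌈(33280 / δ) ^ 2⌉₊ ≤ m := by omega
    have h3 : (⌈(33280 / δ) ^ 2⌉₊ : ℝ) ≤ (m : ℝ) := by exact_mod_cast h2
    have h4 : (0 : ℝ) ≤ m := Nat.cast_nonneg m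
    linarith
  -- the modulus
  have h2m : 1 ≤ 2 ^ m := Nat.one_le_two_pow
  obtain ⟨A, hA⟩ : ∃ A, 2 ^ m = A + 1 := ⟨2 ^ m - 1, by omega⟩
  have h9 : ∀ j : ℕ, 3 ^ (2 * j + 1) % 12 = 3 := by
    intro j
    induction j with
    | zero => rfl
    | succ j ih =>
      have : 3 ^ (2 * (j + 1) + 1) = 3 ^ (2 * j + 1) * 9 := by ring
      rw [this]
      omega
  have h4 : ∀ j : ℕ, 2 ^ (2 * j + 1) % 3 = 2 := by
    intro j
    induction j with
    | zero => rfl
    | succ j ih =>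
      have : 2 ^ (2 * (j + 1) + 1) = 2 ^ (2 * j + 1) * 4 := by ring
      rw [this]
      omega
  have h3m := h9 k
  rw [← hm] at h3m
  have h2m3 := h4 k
  rw [← hm] at h2m3
  obtain ⟨B, hB⟩ : ∃ B, 3 ^ m = 2 * B + 1 := by
    generalize 3 ^ m = x at h3m
    exact ⟨(x - 1) / 2, by omega⟩
  have hB6 : B % 6 = 1 := by omega
  have h2even : 2 ^ m % 2 = 0 := by
    rw [hm, pow_succ]; omega
  have hA6 : A % 6 = 1 := by omega
  have hmA : m ≤ A := by
    have : m < 2 ^ m := Nat.lt_two_pow_self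
    omega
  have hApos : 0 < A := by omega
  have hBpos : 0 < B := by omega
  have hqpos : 0 < A * B := Nat.mul_pos hApos hBpos
  have hmle : m ≤ A * B := hmA.trans (Nat.le_mul_of_pos_right A hBpos)
  refine ⟨A * B, by omega, ?_, ?_⟩
  · have h6 : (A * B) % 6 = 1 := by
      rw [Nat.mul_mod, hA6, hB6]
    rw [Nat.gcd_comm, Nat.gcd_rec, h6]
    norm_num
  have hmR : (3 : ℝ) ≤ m := by exact_mod_cast hm3
  -- the logarithm of the modulus
  have hqR : (m : ℝ) ≤ ((A * B : ℕ) : ℝ) := by exact_mod_cast hmle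
  have hlogq : Real.log ((A * B : ℕ) : ℝ) ≤ 2 * m := by
    have hle : A * B ≤ 6 ^ m := by
      have : (6 : ℕ) ^ m = 2 ^ m * 3 ^ m := by rw [← mul_pow]; norm_num
      rw [this]
      exact Nat.mul_le_mul (by omega) (by omega)
    calc Real.log ((A * B : ℕ) : ℝ) ≤ Real.log ((6 ^ m : ℕ) : ℝ) :=
          Real.log_le_log (by linarith) (by exact_mod_cast hle)
      _ = m * Real.log 6 := by push_cast; rw [Real.log_pow]
      _ ≤ m * 2 := mul_le_mul_of_nonneg_left log_six (by linarith)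
      _ = 2 * m := by ring
  have hlog1 : 1 ≤ Real.log ((A * B : ℕ) : ℝ) := by
    rw [Real.le_log_iff_exp_le (by linarith)]
    have := Real.exp_one_lt_d9
    linarith
  have hnbound : ∀ n : ℕ, (n : ℝ) ≤ 1 / 40 * (Real.log ((A * B : ℕ) : ℝ)
      * Real.log (Real.log ((A * B : ℕ) : ℝ))) → n ≤ ⌈Real.log (2 * m) / 20⌉₊ * m := by
    intro n hn
    have h1 : Real.log (Real.log ((A * B : ℕ) : ℝ)) ≤ Real.log (2 * m) :=
      Real.log_le_log (by linarith) hlogq
    have h2 : 0 ≤ Real.log (Real.log ((A * B : ℕ) : ℝ)) := Real.log_nonneg hlog1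
    have h3 : Real.log ((A * B : ℕ) : ℝ) * Real.log (Real.log ((A * B : ℕ) : ℝ))
        ≤ (2 * m) * Real.log (2 * m) := mul_le_mul hlogq h1 h2 (by linarith)
    have h4 : Real.log (2 * m) / 20 ≤ (⌈Real.log (2 * m) / 20⌉₊ : ℝ) := Nat.le_ceil _
    have h5 : (n : ℝ) ≤ (⌈Real.log (2 * m) / 20⌉₊ : ℝ) * m := by
      calc (n : ℝ) ≤ 1 / 40 * ((2 * m) * Real.log (2 * m)) := by linarith
        _ = (Real.log (2 * m) / 20) * m := by ring
        _ ≤ _ := mul_le_mul_of_nonneg_right h4 (by linarith)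
    exact_mod_cast h5
  have hnum := numeric (m := m) (by omega) hδ hbig
  have hAR : ((2 : ℕ) : ℝ) ^ m - 1 = A := by
    have : ((2 ^ m : ℕ) : ℝ) = ((A + 1 : ℕ) : ℝ) := by rw [hA]
    push_cast at this ⊢
    linarith
  have hBR : ((3 : ℕ) : ℝ) ^ m - 1 = 2 * B := by
    have : ((3 ^ m : ℕ) : ℝ) = ((2 * B + 1 : ℕ) : ℝ) := by rw [hB]
    push_cast at this ⊢
    linarith
  have hA0 : (A : ℝ) ≠ 0 := by exact_mod_cast hApos.ne'
  have hB0 : (B : ℝ) ≠ 0 := by exact_mod_cast hBpos.ne'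
  intro a ha n hn
  have hn' := hnbound n hn
  rcases ha with ha | ha
  · rw [ha]
    have hpow : 1 * 2 ^ (m - 1) + 1 < 2 ^ m := by
      have e : 2 ^ m = 2 ^ (m - 1) * 2 := by rw [← pow_succ, Nat.sub_add_cancel (by omega)]
      have h5 : 2 ^ 2 ≤ 2 ^ (m - 1) := Nat.pow_le_pow_right (by norm_num) (by omega)
      omega
    have h := tv_lower (a := 2) (c := 1) (m := m) (q := A * B) (n := n)
      (L := ⌈Real.log (2 * m) / 20⌉₊) le_rfl le_rfl (by omega) hpow hqpos (by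
        intro i
        refine ⟨2 ^ i * B, ?_⟩
        unfold g
        rw [hAR]
        push_cast
        field_simp) hn'
    have e : ((2 : ℕ) : ℤ) = 2 := rfl
    rw [e] at h
    linarith
  · rw [Set.mem_singleton_iff] at ha
    rw [ha]
    have hpow : 2 * 3 ^ (m - 1) + 1 < 3 ^ m := by
      have e : 3 ^ m = 3 ^ (m - 1) * 3 := by rw [← pow_succ, Nat.sub_add_cancel (by omega)]
      have h5 : 3 ^ 2 ≤ 3 ^ (m - 1) := Nat.pow_le_pow_right (by norm_num) (by omega)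
      omega
    have h := tv_lower (a := 3) (c := 2) (m := m) (q := A * B) (n := n)
      (L := ⌈Real.log (2 * m) / 20⌉₊) (by norm_num) (by norm_num) (by omega) hpow hqpos (by
        intro i
        refine ⟨3 ^ i * A, ?_⟩
        unfold g
        rw [hBR]
        push_cast
        field_simp) hn'
    have e : ((3 : ℕ) : ℤ) = 3 := rfl
    rw [e] at h
    linarith

theorem not_jointMixing : ¬ JointMixing := by
  intro h
  obtain ⟨q₀, hq₀⟩ := h mu0 mu0_isStepLaw (1 / 2) (by norm_num)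
  set H2 := entropyRate mu0 2 with hH2
  set H3 := entropyRate mu0 3 with hH3
  set K : ℝ := |(1 + 1 / 2) / H2| + |(1 + 1 / 2) / H3| + 1 with hK
  have hK1 : 1 ≤ K := by
    rw [hK]
    have := abs_nonneg ((1 + 1 / 2) / H2)
    have := abs_nonneg ((1 + 1 / 2) / H3)
    linarith
  obtain ⟨q, hqge, hq6, hslow⟩ := slow_walks (1 / 4) (by norm_num)
    (max q₀ ⌈Real.exp (Real.exp (40 * K))⌉₊)
  have hq1 : q₀ ≤ q := (le_max_left _ _).trans hqge
  have hq2 : Real.exp (Real.exp (40 * K)) ≤ q := by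
    have h1 : ⌈Real.exp (Real.exp (40 * K))⌉₊ ≤ q := (le_max_right _ _).trans hqge
    exact (Nat.le_ceil _).trans (by exact_mod_cast h1)
  have hqpos : (0 : ℝ) < q := (Real.exp_pos _).trans_le hq2
  have hlog : Real.exp (40 * K) ≤ Real.log q := by
    rw [Real.le_log_iff_exp_le hqpos]; exact hq2
  have hlogpos : 0 < Real.log q := (Real.exp_pos _).trans_le hlog
  have hlog1 : 1 ≤ Real.log q := by
    have := Real.add_one_le_exp (40 * K)
    linarith
  have hloglog : 40 * K ≤ Real.log (Real.log q) := by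
    rw [Real.le_log_iff_exp_le hlogpos]; exact hlog
  have hmain : ∀ a ∈ ({2, 3} : Set ℤ), ∀ H : ℝ, |(1 + 1 / 2) / H| + 1 ≤ K →
      ¬ (∀ n : ℕ, (1 + 1 / 2) * Real.log q / H ≤ (n : ℝ) → tvDist mu0 a q n ≤ 1 / 2) := by
    intro a ha H hH hmix
    set x : ℝ := (1 + 1 / 2) * Real.log q / H with hx
    have hxabs : x ≤ |(1 + 1 / 2) / H| * Real.log q := by
      have e : x = ((1 + 1 / 2) / H) * Real.log q := by rw [hx]; ring
      rw [e]
      exact mul_le_mul_of_nonneg_right (le_abs_self _) hlogpos.le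
    have hxn := Nat.le_ceil (|(1 + 1 / 2) / H| * Real.log q)
    have h1 := hmix ⌈|(1 + 1 / 2) / H| * Real.log q⌉₊ (hxabs.trans hxn)
    have h0 : 0 ≤ |(1 + 1 / 2) / H| * Real.log q := mul_nonneg (abs_nonneg _) hlogpos.le
    have hup := (Nat.ceil_lt_add_one h0).le
    have h2 := hslow a ha ⌈|(1 + 1 / 2) / H| * Real.log q⌉₊ (by
      refine hup.trans ?_
      calc |(1 + 1 / 2) / H| * Real.log q + 1 ≤ (|(1 + 1 / 2) / H| + 1) * Real.log q := by
            linarith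
        _ ≤ K * Real.log q := mul_le_mul_of_nonneg_right hH hlogpos.le
        _ ≤ 1 / 40 * (Real.log q * Real.log (Real.log q)) := by nlinarith)
    linarith
  rcases hq₀ q hq1 hq6 with h2 | h3
  · exact hmain 2 (by simp) H2 (by rw [hK]; linarith [abs_nonneg ((1 + 1 / 2) / H3)]) h2
  · exact hmain 3 (by simp) H3 (by rw [hK]; linarith [abs_nonneg ((1 + 1 / 2) / H2)]) h3

end H942JM
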