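import Pool.Agent.H942R3.JMCore

open Finset Filter Topology

namespace H942JM

lemma cos_sum_zero (q : ℕ) (η : ℝ) (hq : ∃ z : ℤ, η * q = z) (hη : ∀ z : ℤ, η ≠ z) :
    ∑ r ∈ range q, Real.cos (2 * Real.pi * η * r) = 0 := by
  have key : ∀ N : ℕ, 2 * Real.sin (Real.pi * η) * ∑ r ∈ range N, Real.cos (2 * Real.pi * η * r)
      = Real.sin (2 * Real.pi * η * N - Real.pi * η) + Real.sin (Real.pi * η) := by
    intro N
    induction N with
    | zero => simp
    | succ N ih =>
      rw [Finset.sum_range_succ, mul_add, ih]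
      push_cast
      have e : 2 * Real.pi * η * ((N : ℝ) + 1) - Real.pi * η
        = 2 * Real.pi * η * N + Real.pi * η := by ring
      rw [e, Real.sin_add, Real.sin_sub]
      ring
  obtain ⟨z, hz⟩ := hq
  have h1 := key q
  have e : 2 * Real.pi * η * (q : ℝ) - Real.pi * η = -(Real.pi * η) + z * (2 * Real.pi) := by
    rw [← hz]; ring
  rw [e, Real.sin_add_int_mul_two_pi, Real.sin_neg, neg_add_cancel] at h1
  have h2 : Real.sin (Real.pi * η) ≠ 0 := by
    intro h
    rw [Real.sin_eq_zero_iff] at h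
    obtain ⟨w, hw⟩ := h
    apply hη w
    have hp := Real.pi_pos
    have : Real.pi * (η - w) = 0 := by linarith
    rcases mul_eq_zero.mp this with h | h
    · exact absurd h hp.ne'
    · linarith
  rcases mul_eq_zero.mp h1 with h | h
  · rcases mul_eq_zero.mp h with h | h
    · norm_num at h
    · exact absurd h h2
  · exact h

lemma cos_mod (q : ℕ) (η : ℝ) (hq : ∃ z : ℤ, η * q = z) (x y : ℤ) (h : (q : ℤ) ∣ x - y) :
    Real.cos (2 * Real.pi * η * x) = Real.cos (2 * Real.pi * η * y) := by
  obtain ⟨z, hz⟩ := hq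
  obtain ⟨t, ht⟩ := h
  have hx : (x : ℝ) = y + q * t := by
    have : x = y + q * t := by linarith
    rw [this]; push_cast; ring
  have e : 2 * Real.pi * η * x = 2 * Real.pi * η * y + ((z * t : ℤ) : ℝ) * (2 * Real.pi) := by
    rw [hx]; push_cast; rw [← hz]; ring
  rw [e, Real.cos_add_int_mul_two_pi]

lemma tv_test (q : ℕ) (w α : ℕ → ℝ) (hw : ∑ r ∈ range q, w r = 0)
    (hα : ∀ r, α r = 0 ∨ α r = 1) :
    ∑ r ∈ range q, w r * α r ≤ (1 / 2) * ∑ r ∈ range q, |w r| := by
  have h1 : ∑ r ∈ range q, (2 * α r - 1) * w r ≤ ∑ r ∈ range q, |w r| := by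
    refine Finset.sum_le_sum fun r _ => ?_
    rcases hα r with h | h
    · rw [h]
      have := neg_abs_le (w r)
      linarith
    · rw [h]
      have := le_abs_self (w r)
      linarith
  have h2 : ∑ r ∈ range q, (2 * α r - 1) * w r
      = 2 * (∑ r ∈ range q, w r * α r) - ∑ r ∈ range q, w r := by
    rw [Finset.mul_sum, ← Finset.sum_sub_distrib]
    exact Finset.sum_congr rfl fun r _ => by ring
  rw [h2, hw] at h1
  linarith

/-- Cosine sum. -/
noncomputable def Cf (a c m : ℕ) (x : ℤ) : ℝ :=
  ∑ i ∈ range m, Real.cos (2 * Real.pi * g a c m i * x)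

/-- Squared modulus of the exponential sum. -/
noncomputable def Df (a c m : ℕ) (x : ℤ) : ℝ :=
  ∑ i ∈ range m, ∑ j ∈ range m, Real.cos (2 * Real.pi * (g a c m i - g a c m j) * x)

lemma Cf_sq_le (a c m : ℕ) (x : ℤ) : (Cf a c m x) ^ 2 ≤ Df a c m x := by
  have h : Df a c m x = (Cf a c m x) ^ 2
      + (∑ i ∈ range m, Real.sin (2 * Real.pi * g a c m i * x)) ^ 2 := by
    unfold Df Cf
    rw [sq, sq, Finset.sum_mul_sum, Finset.sum_mul_sum, ← Finset.sum_add_distrib]
    refine Finset.sum_congr rfl fun i _ => ?_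
    rw [← Finset.sum_add_distrib]
    refine Finset.sum_congr rfl fun j _ => ?_
    rw [← Real.cos_sub]
    congr 1
    ring
  rw [h]
  nlinarith [sq_nonneg (∑ i ∈ range m, Real.sin (2 * Real.pi * g a c m i * x))]

theorem tv_lower {a c m q n L : ℕ} (ha : 2 ≤ a) (hc : 1 ≤ c) (hm : 2 ≤ m)
    (h1 : c * a ^ (m - 1) + 1 < a ^ m) (hq0 : 0 < q) (hq : ∀ i, ∃ z : ℤ, g a c m i * q = z)
    (hn : n ≤ L * m) :
    1 - (256 * L + 4) * 64 ^ L / (m : ℝ) ≤ tvDist mu0 a q n := by
  have hmR : (0 : ℝ) < m := by exact_mod_cast (by omega : 0 < m)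
  set P := law mu0 (a : ℤ) n with hP
  have hPnn : ∀ x, 0 ≤ P x := fun x => law_nonneg mu0_nonneg _ _ _
  set Φ : ℕ → ℝ := fun i => ∏ k ∈ range n, M (g a c m (i + k)) with hΦ
  set E0 : ℝ := ∑ i ∈ range m, Φ i with hE0
  set ρ : ℝ := (1 / 8) ^ L with hρ
  have hρ0 : 0 < ρ := by positivity
  -- expectation of the cosine sum
  have hEcos : ∀ i, E P (fun x => Real.cos (2 * Real.pi * g a c m i * x)) = Φ i := by
    intro i
    rw [hP, E_cos, hΦ]
    refine Finset.prod_congr rfl fun k _ => ?_
    rw [← g_pow_mul]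
    push_cast
    rfl
  have hEcos2 : ∀ i j, E P (fun x => Real.cos (2 * Real.pi * (g a c m i - g a c m j) * x))
      = ∏ k ∈ range n, M (g a c m (i + k) - g a c m (j + k)) := by
    intro i j
    rw [hP, E_cos]
    refine Finset.prod_congr rfl fun k _ => ?_
    rw [← g_pow_mul, ← g_pow_mul]
    push_cast
    rw [mul_sub]
  have hEC : E P (Cf a c m) = E0 := by
    unfold Cf
    rw [E_sum_fun]
    exact Finset.sum_congr rfl fun i _ => hEcos i
  have hED : E P (Df a c m)
      = ∑ i ∈ range m, ∑ j ∈ range m, ∏ k ∈ range n, M (g a c m (i + k) - g a c m (j + k)) := by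
    unfold Df
    rw [E_sum_fun]
    refine Finset.sum_congr rfl fun i _ => ?_
    rw [E_sum_fun]
    exact Finset.sum_congr rfl fun j _ => hEcos2 i j
  have hE0low : m * ρ ≤ E0 := by
    have hlow : ∀ i, ρ ≤ Φ i := by
      intro i
      rw [hΦ]
      have hF : ∀ j, M (g a c m (j + m)) = M (g a c m j) := by
        intro j
        rw [g_period ha hm, M_add_int]
      have h2 := prod_lower_n (fun j => M (g a c m j)) m hF
        (fun j => by have := half_le_M (g a c m j); linarith) (fun j => M_le_one _) i L n hn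
      refine le_trans ?_ h2
      rw [hρ]
      exact pow_le_pow_left₀ (by norm_num) (period_prod ha hc hm h1) L
    rw [hE0]
    calc (m : ℝ) * ρ = ∑ i ∈ range m, ρ := by
          rw [Finset.sum_const, Finset.card_range, nsmul_eq_mul]
      _ ≤ _ := Finset.sum_le_sum fun i _ => hlow i
  have hVar : E P (Df a c m) - E0 ^ 2 ≤ 64 * n := by
    have e : E P (Df a c m) - E0 ^ 2 = ∑ i ∈ range m, ∑ j ∈ range m,
        (∏ k ∈ range n, M (g a c m (i + k) - g a c m (j + k)) - Φ i * Φ j) := by
      rw [hED, sq, hE0, Finset.sum_mul_sum, ← Finset.sum_sub_distrib]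
      refine Finset.sum_congr rfl fun i _ => ?_
      rw [← Finset.sum_sub_distrib]
    rw [e]
    calc _ ≤ ∑ i ∈ range m, ∑ j ∈ range m, ∑ k ∈ range n, G a c m (i + k) (j + k) := by
          refine Finset.sum_le_sum fun i _ => Finset.sum_le_sum fun j _ => ?_
          have h2 : Φ i * Φ j = ∏ k ∈ range n, (M (g a c m (i + k)) * M (g a c m (j + k))) := by
            rw [hΦ]; simp only; rw [← Finset.prod_mul_distrib]
          rw [h2]
          refine (le_abs_self _).trans (prod_sub_prod _ _ (fun k => M_nonneg _)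
            (fun k => M_le_one _) (fun k => mul_nonneg (M_nonneg _) (M_nonneg _))
            (fun k => mul_le_one₀ (M_le_one _) (M_nonneg _) (M_le_one _)) n)
      _ = ∑ k ∈ range n, ∑ i ∈ range m, ∑ j ∈ range m, G a c m (i + k) (j + k) := by
          have h3 : ∀ i, ∑ j ∈ range m, ∑ k ∈ range n, G a c m (i + k) (j + k)
            = ∑ k ∈ range n, ∑ j ∈ range m, G a c m (i + k) (j + k) :=
            fun i => Finset.sum_comm
          simp_rw [h3]
          exact Finset.sum_comm
      _ = ∑ k ∈ range n, ∑ i ∈ range m, ∑ j ∈ range m, G a c m i j :=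
          Finset.sum_congr rfl fun k _ => G_sum_shift ha hm k
      _ ≤ ∑ k ∈ range n, (64 : ℝ) := Finset.sum_le_sum fun k _ => G_total ha hc hm h1
      _ = 64 * n := by rw [Finset.sum_const, Finset.card_range, nsmul_eq_mul, mul_comm]
  -- the test event
  set s : ℝ := m * ρ / 2 with hs
  have hs0 : 0 < s := by positivity
  set α : ℤ → ℝ := fun x => if s ≤ Cf a c m x then 1 else 0 with hα
  have hα01 : ∀ x, α x = 0 ∨ α x = 1 := by
    intro x
    rw [hα]
    simp only
    split_ifs
    · exact Or.inr rfl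
    · exact Or.inl rfl
  have hcosq : ∀ i (x y : ℤ), (q : ℤ) ∣ x - y →
      Real.cos (2 * Real.pi * g a c m i * x) = Real.cos (2 * Real.pi * g a c m i * y) :=
    fun i x y h => cos_mod q _ (hq i) x y h
  have hCmod : ∀ x y : ℤ, (q : ℤ) ∣ x - y → Cf a c m x = Cf a c m y := by
    intro x y h
    unfold Cf
    exact Finset.sum_congr rfl fun i _ => hcosq i x y h
  have hαmod : ∀ x y : ℤ, (q : ℤ) ∣ x - y → α x = α y := by
    intro x y h
    rw [hα]
    simp only
    rw [hCmod x y h]
  -- lower bound for the probability under the walk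
  have hPα : 1 - 256 * L / (m * ρ ^ 2) ≤ E P α := by
    have hpt : ∀ x, 1 + (-1 / s ^ 2) * (Df a c m x + (-2 * E0) * Cf a c m x + E0 ^ 2 * 1) ≤ α x := by
      intro x
      have hCD := Cf_sq_le a c m x
      have hsq : (Cf a c m x - E0) ^ 2 ≤ Df a c m x + (-2 * E0) * Cf a c m x + E0 ^ 2 * 1 := by
        nlinarith
      have hinv : 0 < 1 / s ^ 2 := by positivity
      rw [hα]
      simp only
      split_ifs with h
      · have : 0 ≤ (1 / s ^ 2) * (Df a c m x + (-2 * E0) * Cf a c m x + E0 ^ 2 * 1) :=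
          mul_nonneg hinv.le ((sq_nonneg _).trans hsq)
        have e : (-1 / s ^ 2) = -(1 / s ^ 2) := by ring
        rw [e]
        linarith
      · have h2 : s ≤ E0 - Cf a c m x := by
          push Not at h
          rw [hs] at h ⊢
          linarith
        have h3 : s ^ 2 ≤ (Cf a c m x - E0) ^ 2 := by nlinarith
        have h4 : s ^ 2 ≤ Df a c m x + (-2 * E0) * Cf a c m x + E0 ^ 2 * 1 := h3.trans hsq
        have h5 : (1 / s ^ 2) * s ^ 2 ≤
            (1 / s ^ 2) * (Df a c m x + (-2 * E0) * Cf a c m x + E0 ^ 2 * 1) :=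
          mul_le_mul_of_nonneg_left h4 hinv.le
        have h6 : (1 / s ^ 2) * s ^ 2 = 1 := by field_simp
        have e : (-1 / s ^ 2) = -(1 / s ^ 2) := by ring
        rw [e]
        linarith
    have h2 := E_mono hPnn hpt
    rw [E_add_fun, E_smul_fun, E_add_fun, E_add_fun, E_smul_fun, E_smul_fun, hEC] at h2
    have hone : E P (fun _ => 1) = 1 := E_one _ _
    rw [hone] at h2
    have hEDid : (E P fun x => Df a c m x) = E P (Df a c m) := rfl
    have h3 : (E P fun x => Df a c m x) + -2 * E0 * E0 + E0 ^ 2 * 1 ≤ 64 * n := by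
      rw [hEDid]; linarith
    refine le_trans ?_ h2
    have h4 : (-1 / s ^ 2) * ((E P fun x => Df a c m x) + -2 * E0 * E0 + E0 ^ 2 * 1)
        ≥ -(1 / s ^ 2 * (64 * n)) := by
      have : (1 / s ^ 2) * ((E P fun x => Df a c m x) + -2 * E0 * E0 + E0 ^ 2 * 1)
        ≤ 1 / s ^ 2 * (64 * n) := mul_le_mul_of_nonneg_left h3 (by positivity)
      have e : (-1 / s ^ 2) = -(1 / s ^ 2) := by ring
      rw [e]
      linarith
    have h5 : 1 / s ^ 2 * (64 * n) ≤ 256 * L / (m * ρ ^ 2) := by
      have h6 : 1 / s ^ 2 = 4 / (m ^ 2 * ρ ^ 2) := by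
        rw [hs]; field_simp; norm_num
      have hnR : (n : ℝ) ≤ L * m := by exact_mod_cast hn
      rw [h6]
      calc 4 / ((m : ℝ) ^ 2 * ρ ^ 2) * (64 * n) ≤ 4 / ((m : ℝ) ^ 2 * ρ ^ 2) * (64 * (L * m)) := by
            gcongr
        _ = 256 * L / (m * ρ ^ 2) := by field_simp; ring
    linarith
  -- upper bound for the probability under the uniform measure
  have hUα : ∑ r ∈ range q, α r ≤ q * (4 / (m * ρ ^ 2)) := by
    have hpt : ∀ x, α x ≤ (1 / s ^ 2) * Df a c m x := by
      intro x
      have hCD := Cf_sq_le a c m x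
      have hD0 : 0 ≤ Df a c m x := (sq_nonneg _).trans hCD
      rw [hα]
      simp only
      split_ifs with h
      · have h2 : s ^ 2 ≤ Df a c m x := (pow_le_pow_left₀ hs0.le h 2).trans hCD
        have h3 : (1 / s ^ 2) * s ^ 2 ≤ (1 / s ^ 2) * Df a c m x :=
          mul_le_mul_of_nonneg_left h2 (by positivity)
        have h4 : (1 / s ^ 2) * s ^ 2 = 1 := by field_simp
        linarith
      · positivity
    have hD : ∑ r ∈ range q, Df a c m (r : ℤ) = q * m := by
      unfold Df
      rw [Finset.sum_comm]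
      have h2 : ∀ i ∈ range m, ∑ r ∈ range q, ∑ j ∈ range m,
          Real.cos (2 * Real.pi * (g a c m i - g a c m j) * ((r : ℤ) : ℝ)) = q := by
        intro i hi
        rw [Finset.sum_comm]
        rw [Finset.sum_eq_single i]
        · simp
        · intro j hj hne
          have hi' := Finset.mem_range.mp hi
          have hj' := Finset.mem_range.mp hj
          have hlast := g_last ha hm h1
          have hmono := g_strictMono (c := c) ha hc hm
          have hlt : ∀ k, k < m → g a c m k < 1 := fun k hk =>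
            (hmono.monotone (by omega : k ≤ m - 1)).trans_lt hlast
          have := cos_sum_zero q (g a c m i - g a c m j) (by
            obtain ⟨z1, hz1⟩ := hq i
            obtain ⟨z2, hz2⟩ := hq j
            exact ⟨z1 - z2, by rw [sub_mul, hz1, hz2]; push_cast; ring⟩) (by
            intro z hz
            have hpi := g_pos (c := c) ha hc hm i
            have hpj := g_pos (c := c) ha hc hm j
            have hli := hlt i hi'
            have hlj := hlt j hj'
            have hz1 : (z : ℝ) < 1 := by rw [← hz]; linarith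
            have hz2 : (-1 : ℝ) < z := by rw [← hz]; linarith
            have hz1' : z < 1 := by exact_mod_cast hz1
            have hz2' : -1 < z := by exact_mod_cast hz2
            have hz0 : z = 0 := by omega
            rw [hz0] at hz
            push_cast at hz
            exact hne (hmono.injective (by linarith)).symm)
          rw [← this]
          exact Finset.sum_congr rfl fun r _ => by push_cast; rfl
        · intro h; exact absurd hi h
      rw [Finset.sum_congr rfl h2, Finset.sum_const, Finset.card_range, nsmul_eq_mul, mul_comm]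
    calc ∑ r ∈ range q, α r ≤ ∑ r ∈ range q, (1 / s ^ 2) * Df a c m (r : ℤ) :=
          Finset.sum_le_sum fun r _ => hpt _
      _ = (1 / s ^ 2) * (q * m) := by rw [← Finset.mul_sum, hD]
      _ = q * (4 / (m * ρ ^ 2)) := by
          rw [hs]; field_simp; norm_num
  -- conclusion
  have hqR : (0 : ℝ) < q := by exact_mod_cast hq0
  have hmass : ∑ r ∈ range q, residueMass P q r = 1 := by
    have := sum_residueMass P q hq0 (fun _ => 1) (fun _ _ _ => rfl)
    simp only [mul_one] at this
    rw [this]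
    exact E_one _ _
  have hw : ∑ r ∈ range q, (residueMass P q r - 1 / (q : ℝ)) = 0 := by
    rw [Finset.sum_sub_distrib, hmass, Finset.sum_const, Finset.card_range, nsmul_eq_mul]
    field_simp
    ring
  have htest := tv_test q (fun r => residueMass P q r - 1 / (q : ℝ)) (fun r => α r) hw
    (fun r => hα01 r)
  have hsplit : ∑ r ∈ range q, (residueMass P q r - 1 / (q : ℝ)) * α (r : ℤ)
      = E P α - (1 / (q : ℝ)) * ∑ r ∈ range q, α (r : ℤ) := by
    rw [← sum_residueMass P q hq0 α hαmod, Finset.mul_sum, ← Finset.sum_sub_distrib]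
    exact Finset.sum_congr rfl fun r _ => by ring
  rw [hsplit] at htest
  have hU2 : (1 / (q : ℝ)) * ∑ r ∈ range q, α (r : ℤ) ≤ 4 / (m * ρ ^ 2) := by
    calc (1 / (q : ℝ)) * ∑ r ∈ range q, α (r : ℤ) ≤ (1 / (q : ℝ)) * (q * (4 / (m * ρ ^ 2))) :=
          mul_le_mul_of_nonneg_left hUα (by positivity)
      _ = 4 / (m * ρ ^ 2) := by field_simp
  have hfin : (256 * L + 4) * 64 ^ L / (m : ℝ) = 256 * L / (m * ρ ^ 2) + 4 / (m * ρ ^ 2) := by
    have h64 : ρ ^ 2 = 1 / 64 ^ L := by
      rw [hρ, ← pow_mul, mul_comm L 2, pow_mul, one_div, one_div, ← inv_pow]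
      norm_num
    rw [h64]
    field_simp
  unfold tvDist
  rw [hfin]
  linarith

end H942JM
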