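import Mathlib

set_option autoImplicit false

open Classical Finset Filter Topology

namespace H942R3

variable {V : Type} [Fintype V]

/-- lazy node-weighted walk -/
noncomputable def ker (A : V → V → Prop) (W : V → ℝ) : Matrix V V ℝ :=
  Matrix.of (fun u v : V => (if u = v then (1/2 : ℝ) else 0) +
    (if A u v then W v / (2 * (∑ w : V, if A u w then W w else 0)) else 0))

/-- stationary law -/
noncomputable def st (A : V → V → Prop) (W : V → ℝ) (y : V) : ℝ :=
  W y * (∑ w : V, if A y w then W w else 0) /
    (∑ z : V, W z * (∑ w : V, if A z w then W w else 0))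

noncomputable def tv (A : V → V → Prop) (W : V → ℝ) (t : ℕ) (x : V) : ℝ :=
  (1/2 : ℝ) * ∑ y : V, |(ker A W ^ t) x y - st A W y|

theorem submatrix_pow {U : Type} [Fintype U] (e : U ≃ V) (M : Matrix V V ℝ) (t : ℕ) :
    (M.submatrix e e) ^ t = (M ^ t).submatrix e e := by
  induction t with
  | zero => simp
  | succ t ih => rw [pow_succ, ih, pow_succ, Matrix.submatrix_mul_equiv]

theorem tv_transport {U : Type} [Fintype U] (e : U ≃ V) (A : V → V → Prop) (W : V → ℝ) (t : ℕ)
    (x : U) : tv (fun u v : U => A (e u) (e v)) (fun u => W (e u)) t x = tv A W t (e x) := by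
  have h1 : ∀ u : U, (∑ w : U, if A (e u) (e w) then W (e w) else 0)
      = ∑ w : V, if A (e u) w then W w else 0 := by
    intro u
    rw [← e.sum_comp]
  have hk : ker (fun u v : U => A (e u) (e v)) (fun u => W (e u)) = (ker A W).submatrix e e := by
    ext u v
    simp only [ker, Matrix.of_apply, Matrix.submatrix_apply]
    rw [h1]
    simp
  have hs : ∀ y : U, st (fun u v : U => A (e u) (e v)) (fun u => W (e u)) y = st A W (e y) := by
    intro y
    simp only [st]
    rw [h1, ← e.sum_comp (fun z => W z * (∑ w : V, if A z w then W w else 0))]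
    simp only [h1]
  simp only [tv]
  rw [hk, submatrix_pow, ← e.sum_comp (fun y => |(ker A W ^ t) (e x) y - st A W y|)]
  simp only [hs, Matrix.submatrix_apply]

/-! ### weights `a v * x ^ c v`, and the limit `x → 0` -/

/-- the kernel after cancellation of `x ^ m u` -/
noncomputable def kx (A : V → V → Prop) (a : V → ℝ) (c m : V → ℕ) (x : ℝ) : Matrix V V ℝ :=
  Matrix.of (fun u v : V => (if u = v then (1/2 : ℝ) else 0) +
    (if A u v then a v * x ^ (c v - m u) / (2 * (∑ w : V, if A u w then a w * x ^ (c w - m u) else 0)) else 0))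

theorem ker_eq (A : V → V → Prop) (a : V → ℝ) (c m : V → ℕ) (x : ℝ) (hx : 0 < x)
    (hm : ∀ u w, A u w → m u ≤ c w) :
    ker A (fun v => a v * x ^ c v) = kx A a c m x := by
  ext u v
  simp only [ker, kx, Matrix.of_apply]
  congr 1
  by_cases h : A u v
  · rw [if_pos h, if_pos h]
    have h1 : (∑ w : V, if A u w then a w * x ^ c w else 0)
        = x ^ m u * ∑ w : V, if A u w then a w * x ^ (c w - m u) else 0 := by
      rw [Finset.mul_sum]
      refine Finset.sum_congr rfl fun w _ => ?_
      split_ifs with hw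
      · have : x ^ c w = x ^ m u * x ^ (c w - m u) := by
          rw [← pow_add, Nat.add_sub_cancel' (hm u w hw)]
        rw [this]; ring
      · simp
    have h2 : x ^ c v = x ^ m u * x ^ (c v - m u) := by
      rw [← pow_add, Nat.add_sub_cancel' (hm u v h)]
    rw [h1, h2]
    have hp : x ^ m u ≠ 0 := (pow_pos hx _).ne'
    rw [show a v * (x ^ m u * x ^ (c v - m u)) = x ^ m u * (a v * x ^ (c v - m u)) by ring,
      show 2 * (x ^ m u * ∑ w : V, if A u w then a w * x ^ (c w - m u) else 0)
        = x ^ m u * (2 * ∑ w : V, if A u w then a w * x ^ (c w - m u) else 0) by ring,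
      mul_div_mul_left _ _ hp]
  · rw [if_neg h, if_neg h]

/-- the stationary law after cancellation of `x ^ μ` -/
noncomputable def sx (A : V → V → Prop) (a : V → ℝ) (c m : V → ℕ) (x : ℝ) (y : V) : ℝ :=
  a y * (∑ w : V, if A y w then a w * x ^ (c w - m y) else 0) * x ^ (c y + m y - 1) /
    (∑ z : V, a z * (∑ w : V, if A z w then a w * x ^ (c w - m z) else 0) * x ^ (c z + m z - 1))

theorem st_eq (A : V → V → Prop) (a : V → ℝ) (c m : V → ℕ) (x : ℝ) (hx : 0 < x)
    (hm : ∀ u w, A u w → m u ≤ c w) (hcm : ∀ u, 1 ≤ c u + m u) (y : V) :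
    st A (fun v => a v * x ^ c v) y = sx A a c m x y := by
  have key : ∀ u : V, a u * x ^ c u * (∑ w : V, if A u w then a w * x ^ c w else 0)
      = x * (a u * (∑ w : V, if A u w then a w * x ^ (c w - m u) else 0) * x ^ (c u + m u - 1)) := by
    intro u
    have h1 : (∑ w : V, if A u w then a w * x ^ c w else 0)
        = x ^ m u * ∑ w : V, if A u w then a w * x ^ (c w - m u) else 0 := by
      rw [Finset.mul_sum]
      refine Finset.sum_congr rfl fun w _ => ?_
      split_ifs with hw
      · have : x ^ c w = x ^ m u * x ^ (c w - m u) := by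
          rw [← pow_add, Nat.add_sub_cancel' (hm u w hw)]
        rw [this]; ring
      · simp
    have h2 : x ^ c u * x ^ m u = x * x ^ (c u + m u - 1) := by
      rw [← pow_add, ← pow_succ']
      congr 1
      have := hcm u
      omega
    rw [h1]
    calc a u * x ^ c u * (x ^ m u * ∑ w : V, if A u w then a w * x ^ (c w - m u) else 0)
        = a u * (∑ w : V, if A u w then a w * x ^ (c w - m u) else 0) * (x ^ c u * x ^ m u) := by
          ring
      _ = _ := by rw [h2]; ring
  simp only [st, sx, key]
  rw [← Finset.mul_sum, mul_div_mul_left _ _ hx.ne']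

theorem continuousAt_kx (A : V → V → Prop) (a : V → ℝ) (c m : V → ℕ)
    (hpos : ∀ u v, A u v → (∑ w : V, if A u w then a w * (0:ℝ) ^ (c w - m u) else 0) ≠ 0) :
    ContinuousAt (fun x => kx A a c m x) 0 := by
  apply continuousAt_pi.2
  intro u
  apply continuousAt_pi.2
  intro v
  simp only [kx, Matrix.of_apply]
  apply ContinuousAt.add continuousAt_const
  by_cases h : A u v
  · simp only [if_pos h]
    apply ContinuousAt.div
    · fun_prop
    · apply Continuous.continuousAt
      apply Continuous.mul continuous_const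
      apply continuous_finsetSum
      intro w _
      split_ifs <;> fun_prop
    · exact mul_ne_zero two_ne_zero (hpos u v h)
  · simp only [if_neg h]
    exact continuousAt_const

theorem continuousAt_sx (A : V → V → Prop) (a : V → ℝ) (c m : V → ℕ)
    (hpos : (∑ z : V, a z * (∑ w : V, if A z w then a w * (0:ℝ) ^ (c w - m z) else 0) * (0:ℝ) ^ (c z + m z - 1)) ≠ 0)
    (y : V) : ContinuousAt (fun x => sx A a c m x y) 0 := by
  have h1 : ∀ u : V, Continuous fun x : ℝ => ∑ w : V, if A u w then a w * x ^ (c w - m u) else 0 := by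
    intro u
    apply continuous_finsetSum
    intro w _
    split_ifs <;> fun_prop
  simp only [sx]
  apply ContinuousAt.div
  · exact ((continuous_const.mul (h1 y)).mul (continuous_pow _)).continuousAt
  · apply Continuous.continuousAt
    apply continuous_finsetSum
    intro z _
    exact (continuous_const.mul (h1 z)).mul (continuous_pow _)
  · exact hpos

/-- total variation distance in the rescaled form -/
noncomputable def tx (A : V → V → Prop) (a : V → ℝ) (c m : V → ℕ) (t : ℕ) (y : V) (x : ℝ) : ℝ :=
  (1/2 : ℝ) * ∑ z : V, |(kx A a c m x ^ t) y z - sx A a c m x z|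

theorem tv_eq (A : V → V → Prop) (a : V → ℝ) (c m : V → ℕ) (x : ℝ) (hx : 0 < x)
    (hm : ∀ u w, A u w → m u ≤ c w) (hcm : ∀ u, 1 ≤ c u + m u) (t : ℕ) (y : V) :
    tv A (fun v => a v * x ^ c v) t y = tx A a c m t y x := by
  simp only [tv, tx, ker_eq A a c m x hx hm, st_eq A a c m x hx hm hcm]

theorem continuousAt_tx (A : V → V → Prop) (a : V → ℝ) (c m : V → ℕ)
    (h1 : ∀ u v, A u v → (∑ w : V, if A u w then a w * (0:ℝ) ^ (c w - m u) else 0) ≠ 0)
    (h2 : (∑ z : V, a z * (∑ w : V, if A z w then a w * (0:ℝ) ^ (c w - m z) else 0) * (0:ℝ) ^ (c z + m z - 1)) ≠ 0)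
    (t : ℕ) (y : V) : ContinuousAt (fun x => tx A a c m t y x) 0 := by
  have hk : ContinuousAt (fun x => kx A a c m x ^ t) 0 := (continuousAt_kx A a c m h1).pow t
  simp only [tx]
  apply ContinuousAt.mul continuousAt_const
  apply tendsto_finsetSum
  intro z _
  apply Tendsto.abs
  apply Tendsto.sub
  · exact (continuousAt_pi.1 (continuousAt_pi.1 hk y)) z
  · exact continuousAt_sx A a c m h2 z

end H942R3
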