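import Pool.Agent.H942R3.NWGraph

set_option autoImplicit false

open Classical Finset Filter Topology

namespace H942R3

open NV

/-- the two chains: for every `K` there are a finite graph, comparable weights and a time -/
theorem exists_example (K : ℝ) (hK : 0 < K) :
    ∃ (m l : ℕ) (W W' : NV m l → ℝ) (t : ℕ), (∀ v, 0 < W v) ∧
      (∀ v, W v ≤ 2 * W' v ∧ W' v ≤ 2 * W v) ∧
      (∀ y, tv (fun u v => (NV.G m l).Adj u v) W t y ≤ 1 / 4) ∧
      ∃ y, 1 / 4 < tv (fun u v => (NV.G m l).Adj u v) W' ⌈K * (t : ℝ)⌉₊ y := by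
  -- choose `l`
  obtain ⟨l, hl⟩ : ∃ l : ℕ, 20 * (50 * K + 3) < (8 / 5 : ℝ) ^ l :=
    pow_unbounded_of_one_lt _ (by norm_num)
  set m : ℕ := 2 ^ l with hm'
  set M : ℝ := (m : ℝ) with hMd
  have hmpos : 0 < m := by positivity
  have hM : 0 < M := by rw [hMd]; exact_mod_cast hmpos
  have hmM : (m : ℝ) ≤ 2 ^ l := by rw [hm']; push_cast; exact le_rfl
  set t0 : ℕ := 8 * (10 * m + 12) with ht0
  set t : ℕ := t0 + 1 with ht
  set t' : ℕ := ⌈K * (t : ℝ)⌉₊ with ht'
  have hA : ∀ u w : NV m l, A u w → mm u ≤ c w := NV.hm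
  have hO : ∀ u v : NV m l, v ∈ out u ↔ A u v ∧ c v = mm u := NV.ho
  have h12 : (fin1 : NV m l) ≠ fin2 := by simp
  -- upper bound in the limit
  have hup : ∀ y : NV m l, tx A (a M) c mm t y 0 < 1 / 4 := by
    intro y
    have h1 := upper_bound (kx A (a M) c mm 0) (kx_zero_nonneg A (a M) c mm out hA hO (a_pos M hM))
      ind (f M) (f_nonneg M hM) (Qind M hM) (Qf M hM) t0 y
    have h2 := f_le M hM hmM y
    have h3 : (((kx A (a M) c mm 0) ^ t0).mulVec ind) y ≤ 1 / 8 := by
      have h4 : (t0 : ℝ) = 8 * (2 * ((m:ℝ) + 2) + 8 * (M + 1)) := by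
        rw [ht0, hMd]; push_cast; ring
      have h5 : (0:ℝ) < (2 * ((m:ℝ) + 2) + 8 * (M + 1)) := by positivity
      rw [h4] at h1
      by_contra hcon
      push Not at hcon
      have : 8 * (2 * ((m:ℝ) + 2) + 8 * (M + 1)) * (1 / 8) <
          8 * (2 * ((m:ℝ) + 2) + 8 * (M + 1)) * (((kx A (a M) c mm 0) ^ t0).mulVec ind) y :=
        mul_lt_mul_of_pos_left hcon (by positivity)
      linarith
    have h6 := tx_upper A (a M) c mm out hA hO (a_pos M hM) NV.hne fin1 fin2 h12 rfl rfl rfl rfl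
      (fun v h1 h2 => c_add v h1 h2) t0 y (1 / 8) (by
        refine le_trans (le_of_eq ?_) h3
        rfl)
    exact lt_of_le_of_lt h6 (by norm_num)
  -- lower bound in the limit
  have hlow : 1 / 4 < tx A (a' M) c mm t' (node (Fin.last m) 0 : NV m l) 0 := by
    set x0 : NV m l := node (Fin.last m) 0 with hx0
    have h1 := lower_bound (kx A (a' M) c mm 0)
      (kx_zero_nonneg A (a' M) c mm out hA hO (a'_pos M hM)) g (1 + 1 / (2 * (M + 1)))
      (by positivity) (Qg M hM) t' x0
    have h2 : g x0 = 2 * (1 - (1 / 20) * (4 / 5 : ℝ) ^ l) ^ m := by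
      rw [hx0]
      simp [g, del]
    have h3 : (1 + 1 / (2 * (M + 1))) ^ t' * g x0 ≤ 1 / 2 := by
      rw [h2]
      have e1 : (1 + 1 / (2 * (M + 1))) ^ t' ≤ Real.exp (50 * K + 1) := by
        have b1 : 1 + 1 / (2 * (M + 1)) ≤ Real.exp (1 / (2 * (M + 1))) := by
          have := Real.add_one_le_exp (1 / (2 * (M + 1)))
          linarith
        calc (1 + 1 / (2 * (M + 1))) ^ t' ≤ (Real.exp (1 / (2 * (M + 1)))) ^ t' :=
              pow_le_pow_left₀ (by positivity) b1 _
          _ = Real.exp (t' * (1 / (2 * (M + 1)))) := by rw [← Real.exp_nat_mul]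
          _ ≤ Real.exp (50 * K + 1) := by
              apply Real.exp_le_exp.2
              have b2 : (t' : ℝ) < K * (t : ℝ) + 1 := Nat.ceil_lt_add_one (by positivity)
              have b3 : (t : ℝ) = 80 * M + 97 := by
                rw [ht, ht0, hMd]; push_cast; ring
              rw [b3] at b2
              rw [mul_one_div, div_le_iff₀ (by positivity)]
              nlinarith
      have e2 : (1 - (1 / 20) * (4 / 5 : ℝ) ^ l) ^ m ≤ Real.exp (-(50 * K + 3)) := by
        have b1 : 1 - (1 / 20) * (4 / 5 : ℝ) ^ l ≤ Real.exp (-((1 / 20) * (4 / 5 : ℝ) ^ l)) := by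
          have := Real.add_one_le_exp (-((1 / 20) * (4 / 5 : ℝ) ^ l))
          linarith
        have b0 : 0 ≤ 1 - (1 / 20) * (4 / 5 : ℝ) ^ l := by
          have := eps_le l
          linarith
        calc (1 - (1 / 20) * (4 / 5 : ℝ) ^ l) ^ m ≤ (Real.exp (-((1 / 20) * (4 / 5 : ℝ) ^ l))) ^ m :=
              pow_le_pow_left₀ b0 b1 _
          _ = Real.exp (m * (-((1 / 20) * (4 / 5 : ℝ) ^ l))) := by rw [← Real.exp_nat_mul]
          _ ≤ Real.exp (-(50 * K + 3)) := by
              apply Real.exp_le_exp.2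
              have b2 : (m : ℝ) * (4 / 5 : ℝ) ^ l = (8 / 5) ^ l := by
                rw [hm']; push_cast; rw [← mul_pow]; norm_num
              have b3 : (m : ℝ) * (-((1 / 20) * (4 / 5 : ℝ) ^ l)) = -(1 / 20) * ((m : ℝ) * (4 / 5 : ℝ) ^ l) := by
                ring
              rw [b3, b2]
              linarith
      have e3 : Real.exp (50 * K + 1) * (2 * Real.exp (-(50 * K + 3))) ≤ 1 / 2 := by
        rw [show Real.exp (50 * K + 1) * (2 * Real.exp (-(50 * K + 3))) =
          2 * (Real.exp (50 * K + 1) * Real.exp (-(50 * K + 3))) by ring, ← Real.exp_add]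
        rw [show 50 * K + 1 + -(50 * K + 3) = -2 by ring]
        have : Real.exp (-2) ≤ 1 / 4 := by
          rw [Real.exp_neg]
          have h1 : (4 : ℝ) ≤ Real.exp 2 := by
            have := Real.add_one_le_exp (1:ℝ)
            have h2 : Real.exp 2 = Real.exp 1 * Real.exp 1 := by rw [← Real.exp_add]; norm_num
            rw [h2]
            nlinarith
          rw [inv_eq_one_div]
          exact one_div_le_one_div_of_le (by norm_num) h1
        linarith
      have e0 : 0 ≤ (1 - (1 / 20) * (4 / 5 : ℝ) ^ l) ^ m := by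
        have := eps_le l
        exact pow_nonneg (by linarith) _
      calc (1 + 1 / (2 * (M + 1))) ^ t' * (2 * (1 - (1 / 20) * (4 / 5 : ℝ) ^ l) ^ m)
          ≤ Real.exp (50 * K + 1) * (2 * Real.exp (-(50 * K + 3))) :=
            mul_le_mul e1 (by linarith) (by positivity) (Real.exp_pos _).le
        _ ≤ 1 / 2 := e3
    have h4 := tx_lower A (a' M) c mm out hA hO (a'_pos M hM) NV.hne fin1 fin2 h12 rfl rfl rfl rfl
      (fun v h1 h2 => c_add v h1 h2) t' x0 g g_nonneg (by simp [g]) (by simp [g]) (1 / 2)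
      (h1.trans h3)
    linarith
  -- continuity at zero
  have hden : ∀ (b : NV m l → ℝ), (∀ v, 0 < b v) → ∀ u v : NV m l, A u v →
      (∑ w : NV m l, if A u w then b w * (0:ℝ) ^ (c w - mm u) else 0) ≠ 0 := by
    intro b hb u v _
    rw [sum_zero A b c mm out hA hO]
    exact (Finset.sum_pos (fun w _ => hb w) (NV.hne u)).ne'
  have hst : ∀ (b : NV m l → ℝ), (∀ v, 0 < b v) →
      (∑ z : NV m l, b z * (∑ w : NV m l, if A z w then b w * (0:ℝ) ^ (c w - mm z) else 0) *
      (0:ℝ) ^ (c z + mm z - 1)) ≠ 0 := by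
    intro b hb
    exact (sx_zero A b c mm out hA hO fin1 fin2 h12 (hb _) (hb _) rfl rfl rfl rfl
      (fun v h1 h2 => c_add v h1 h2)).1
  have ev1 : ∀ᶠ x : ℝ in 𝓝[>] 0, ∀ y : NV m l, tx A (a M) c mm t y x < 1 / 4 := by
    rw [eventually_all]
    intro y
    have hc := continuousAt_tx A (a M) c mm (hden _ (a_pos M hM)) (hst _ (a_pos M hM)) t y
    exact (hc.eventually (gt_mem_nhds (hup y))).filter_mono nhdsWithin_le_nhds
  have ev2 : ∀ᶠ x : ℝ in 𝓝[>] 0, 1 / 4 < tx A (a' M) c mm t' (node (Fin.last m) 0 : NV m l) x := by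
    have hc := continuousAt_tx A (a' M) c mm (hden _ (a'_pos M hM)) (hst _ (a'_pos M hM)) t'
      (node (Fin.last m) 0)
    exact (hc.eventually (lt_mem_nhds hlow)).filter_mono nhdsWithin_le_nhds
  obtain ⟨x, hx1, hx2, hx⟩ := (ev1.and (ev2.and self_mem_nhdsWithin)).exists
  have hx0 : 0 < x := hx
  refine ⟨m, l, fun v => a M v * x ^ c v, fun v => a' M v * x ^ c v, t, ?_, ?_, ?_, ?_⟩
  · intro v
    exact mul_pos (a_pos M hM v) (pow_pos hx0 _)
  · intro v
    have hp := pow_pos hx0 (c v)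
    have := compare (m := m) (l := l) M hM v
    constructor
    · have := mul_le_mul_of_nonneg_right this.1 hp.le
      linarith
    · have := mul_le_mul_of_nonneg_right this.2 hp.le
      linarith
  · intro y
    have h := tv_eq A (a M) c mm x hx0 hA one_le_c_add t y
    have h2 := hx1 y
    rw [← h] at h2
    exact h2.le
  · refine ⟨node (Fin.last m) 0, ?_⟩
    have h := tv_eq A (a' M) c mm x hx0 hA one_le_c_add t' (node (Fin.last m) 0)
    rw [← h] at hx2
    exact hx2

end H942R3
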