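import Pool.Agent.H942R3.NWLimit

set_option autoImplicit false

open Classical Finset Filter Topology

namespace H942R3

/-- vertices: `node n j` (`n` layers left, current run length `j`), a pendant vertex at every
`node (n+1) l`, and the two end vertices -/
inductive NV (m l : ℕ) : Type
  | node (n : Fin (m + 1)) (j : Fin (l + 1))
  | pend (n : Fin m)
  | fin1
  | fin2

namespace NV

variable {m l : ℕ}

def toSum : NV m l → (Fin (m + 1) × Fin (l + 1)) ⊕ (Fin m ⊕ Bool)
  | node n j => .inl (n, j)
  | pend n => .inr (.inl n)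
  | fin1 => .inr (.inr true)
  | fin2 => .inr (.inr false)

def ofSum : (Fin (m + 1) × Fin (l + 1)) ⊕ (Fin m ⊕ Bool) → NV m l
  | .inl (n, j) => node n j
  | .inr (.inl n) => pend n
  | .inr (.inr true) => fin1
  | .inr (.inr false) => fin2

def eqv : NV m l ≃ (Fin (m + 1) × Fin (l + 1)) ⊕ (Fin m ⊕ Bool) where
  toFun := toSum
  invFun := ofSum
  left_inv := by intro v; cases v <;> rfl
  right_inv := by rintro (⟨n, j⟩ | n | b) <;> [rfl; rfl; (cases b <;> rfl)]

noncomputable instance : Fintype (NV m l) := Fintype.ofEquiv _ eqv.symm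

/-- the out-neighbours in the limit -/
noncomputable def out : NV m l → Finset (NV m l)
  | node ⟨0, _⟩ _ => {fin1}
  | node ⟨n + 1, h⟩ j =>
      if hj : j.1 < l then
        {node ⟨n, by omega⟩ ⟨j.1 + 1, by omega⟩, node ⟨n, by omega⟩ 0}
      else {pend ⟨n, by omega⟩, node ⟨n, by omega⟩ 0}
  | pend n => {node n.succ (Fin.last l)}
  | fin1 => {fin2}
  | fin2 => {fin1}

/-- exponents of the weights -/
def c : NV m l → ℕ
  | node n _ => n.1 + 2
  | pend n => n.1 + 2
  | fin1 => 1
  | fin2 => 0

/-- smallest exponent of a neighbour -/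
def mm : NV m l → ℕ
  | node n _ => n.1 + 1
  | pend n => n.1 + 3
  | fin1 => 0
  | fin2 => 1

def A (u v : NV m l) : Prop := v ∈ out u ∨ u ∈ out v

theorem c_of_mem (u v : NV m l) (h : v ∈ out u) : c v = mm u := by
  match u with
  | node ⟨0, _⟩ _ =>
    simp only [out, Finset.mem_singleton] at h
    subst h; rfl
  | node ⟨n + 1, hn⟩ j =>
    simp only [out] at h
    split_ifs at h with hj
    · simp only [Finset.mem_insert, Finset.mem_singleton] at h
      rcases h with h | h <;> subst h <;> simp [c, mm]
    · simp only [Finset.mem_insert, Finset.mem_singleton] at h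
      rcases h with h | h <;> subst h <;> simp [c, mm]
  | pend n =>
    simp only [out, Finset.mem_singleton] at h
    subst h; simp [c, mm]
  | fin1 =>
    simp only [out, Finset.mem_singleton] at h
    subst h; rfl
  | fin2 =>
    simp only [out, Finset.mem_singleton] at h
    subst h; rfl

/-- an in-neighbour which is not an out-neighbour has a larger exponent -/
theorem mem_or_lt (u v : NV m l) (h : u ∈ out v) : v ∈ out u ∨ mm u < c v := by
  match v with
  | node ⟨0, _⟩ _ =>
    simp only [out, Finset.mem_singleton] at h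
    subst h; right; simp [c, mm]
  | node ⟨n + 1, hn⟩ j =>
    simp only [out] at h
    split_ifs at h with hj
    · simp only [Finset.mem_insert, Finset.mem_singleton] at h
      rcases h with h | h <;> subst h <;> right <;> simp [c, mm]
    · simp only [Finset.mem_insert, Finset.mem_singleton] at h
      rcases h with h | h
      · subst h
        left
        simp only [out, Finset.mem_singleton]
        have : j = Fin.last l := by
          apply Fin.ext
          simp only [Fin.val_last]
          omega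
        rw [this]
        rfl
      · subst h
        right; simp [c, mm]
  | pend n =>
    simp only [out, Finset.mem_singleton] at h
    subst h
    left
    have : (node n.succ (Fin.last l) : NV m l) = node ⟨n.1 + 1, by omega⟩ (Fin.last l) := rfl
    rw [this]
    simp [out]
  | fin1 =>
    simp only [out, Finset.mem_singleton] at h
    subst h; left; simp [out]
  | fin2 =>
    simp only [out, Finset.mem_singleton] at h
    subst h; left; simp [out]

theorem hm (u w : NV m l) (h : A u w) : mm u ≤ c w := by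
  rcases h with h | h
  · exact (c_of_mem u w h).ge
  · rcases mem_or_lt u w h with h | h
    · exact (c_of_mem u w h).ge
    · exact h.le

theorem ho (u v : NV m l) : v ∈ out u ↔ A u v ∧ c v = mm u := by
  constructor
  · intro h
    exact ⟨Or.inl h, c_of_mem u v h⟩
  · rintro ⟨h | h, h'⟩
    · exact h
    · rcases mem_or_lt u v h with h | h
      · exact h
      · omega

theorem not_mem_self (u : NV m l) : u ∉ out u := by
  intro h
  have h1 := c_of_mem u u h
  match u with
  | node n _ => simp [c, mm] at h1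
  | pend n => simp [c, mm] at h1
  | fin1 => simp [c, mm] at h1
  | fin2 => simp [c, mm] at h1

def G (m l : ℕ) : SimpleGraph (NV m l) where
  Adj := A
  symm := ⟨fun _ _ h => Or.symm h⟩
  loopless := ⟨fun u h => not_mem_self u (by rcases h with h | h <;> exact h)⟩

theorem hne (u : NV m l) : (out u).Nonempty := by
  match u with
  | node ⟨0, _⟩ _ => simp [out]
  | node ⟨n + 1, hn⟩ j =>
    simp only [out]
    split_ifs <;> simp
  | pend n => simp [out]
  | fin1 => simp [out]
  | fin2 => simp [out]

theorem reach (u : NV m l) : (G m l).Reachable u fin1 := by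
  have hnode : ∀ (n : ℕ) (hn : n < m + 1) (j : Fin (l + 1)),
      (G m l).Reachable (node ⟨n, hn⟩ j) fin1 := by
    intro n
    induction n with
    | zero =>
      intro hn j
      apply SimpleGraph.Adj.reachable
      left
      simp [out]
    | succ n ih =>
      intro hn j
      have h1 : (G m l).Adj (node ⟨n + 1, hn⟩ j) (node ⟨n, by omega⟩ 0) := by
        left
        simp only [out]
        split_ifs <;> simp
      exact h1.reachable.trans (ih _ _)
  match u with
  | node ⟨n, hn⟩ j => exact hnode n hn j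
  | pend n =>
    have h1 : (G m l).Adj (pend n) (node n.succ (Fin.last l)) := by
      left
      simp [out]
    exact h1.reachable.trans (hnode _ _ _)
  | fin1 => exact SimpleGraph.Reachable.refl _
  | fin2 =>
    apply SimpleGraph.Adj.reachable
    left
    simp [out]

theorem connected : (G m l).Connected := by
  exact (SimpleGraph.connected_iff _).2 ⟨fun u v => (reach u).trans (reach v).symm, ⟨fin1⟩⟩

/-! ### the two weight functions -/

/-- original weights; `M` is the strength of the pendant vertices -/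
noncomputable def a (M : ℝ) : NV m l → ℝ
  | node _ _ => 1
  | pend _ => M
  | fin1 => 1
  | fin2 => 1

/-- perturbed weights -/
noncomputable def a' (M : ℝ) : NV m l → ℝ
  | node _ j => if j.1 = 0 then 1 / 2 else 2
  | pend _ => M / 2
  | fin1 => 1
  | fin2 => 1

theorem a_pos (M : ℝ) (hM : 0 < M) (v : NV m l) : 0 < a M v := by
  match v with
  | node _ _ => simp [a]
  | pend _ => simpa [a] using hM
  | fin1 => simp [a]
  | fin2 => simp [a]

theorem a'_pos (M : ℝ) (hM : 0 < M) (v : NV m l) : 0 < a' M v := by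
  match v with
  | node _ j => simp only [a']; split_ifs <;> norm_num
  | pend _ => simp only [a']; positivity
  | fin1 => simp [a']
  | fin2 => simp [a']

theorem compare (M : ℝ) (hM : 0 < M) (v : NV m l) : a M v ≤ 2 * a' M v ∧ a' M v ≤ 2 * a M v := by
  match v with
  | node _ j => simp only [a, a']; split_ifs <;> norm_num
  | pend _ => simp only [a, a']; constructor <;> linarith
  | fin1 => simp [a, a']
  | fin2 => simp [a, a']

theorem c_add (v : NV m l) (h1 : v ≠ fin1) (h2 : v ≠ fin2) : 2 ≤ c v + mm v := by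
  match v with
  | node n _ => simp only [c, mm]; omega
  | pend n => simp only [c, mm]; omega
  | fin1 => exact absurd rfl h1
  | fin2 => exact absurd rfl h2

theorem one_le_c_add (v : NV m l) : 1 ≤ c v + mm v := by
  match v with
  | node n _ => simp only [c, mm]; omega
  | pend n => simp only [c, mm]; omega
  | fin1 => simp [c, mm]
  | fin2 => simp [c, mm]

/-! ### the potential function for the original chain -/

noncomputable def f (M : ℝ) : NV m l → ℝ
  | node n j => 2 * (n.1 + 1) + 4 * (M + 1) * ((2:ℝ) ^ j.1 + n.1) / 2 ^ l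
  | pend n => 2 * ((n.1 + 1 : ℕ) + 1) + 4 * (M + 1) * ((2:ℝ) ^ l + (n.1 + 1 : ℕ)) / 2 ^ l + 2
  | fin1 => 0
  | fin2 => 0

noncomputable def ind : NV m l → ℝ := fun v => if v = fin1 ∨ v = fin2 then 0 else 1

theorem f_nonneg (M : ℝ) (hM : 0 < M) (v : NV m l) : 0 ≤ f M v := by
  match v with
  | node n _ => simp only [f]; positivity
  | pend n => simp only [f]; positivity
  | fin1 => simp [f]
  | fin2 => simp [f]

theorem node_ne {n n' : Fin (m + 1)} {j j' : Fin (l + 1)} (h : j ≠ j') :
    (node n j : NV m l) ≠ node n' j' := by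
  intro h'
  injection h' with _ h2
  exact h h2

theorem Qf (M : ℝ) (hM : 0 < M) (u : NV m l) :
    ((kx A (a M) c mm 0).mulVec (f M)) u ≤ f M u - ind u := by
  rw [mulVec_zero' A (a M) c mm out hm ho]
  match u with
  | node ⟨0, _⟩ j =>
    simp only [out, Finset.sum_singleton, a, f, ind]
    have : 0 ≤ 4 * (M + 1) * ((2:ℝ) ^ j.1 + (0:ℕ)) / 2 ^ l := by positivity
    simp only [reduceCtorEq, or_self, if_false]
    push_cast at this ⊢
    linarith
  | node ⟨n + 1, hn⟩ j =>
    simp only [out]
    split_ifs with hj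
    · rw [Finset.sum_pair, Finset.sum_pair]
      · simp only [a, f, ind, reduceCtorEq, or_self, if_false]
        have h2 : (2:ℝ) ^ (j.1 + 1) = 2 * 2 ^ j.1 := by rw [pow_succ]; ring
        have h0 : (2:ℝ) ^ ((0 : Fin (l+1)) : ℕ) = 1 := by simp
        rw [h2, h0]
        have hk : 0 ≤ 4 * (M + 1) / (2:ℝ) ^ l := by positivity
        push_cast
        have e : ∀ z : ℝ, 4 * (M + 1) * z / (2:ℝ) ^ l = 4 * (M + 1) / (2:ℝ) ^ l * z := by
          intro z; ring
        rw [e, e, e]
        nlinarith
      · apply node_ne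
        intro h
        have := congrArg Fin.val h
        simp at this
      · apply node_ne
        intro h
        have := congrArg Fin.val h
        simp at this
    · rw [Finset.sum_pair (by simp), Finset.sum_pair (by simp)]
      simp only [a, f, ind, reduceCtorEq, or_self, if_false]
      have hjl : j.1 = l := by omega
      rw [hjl]
      have h0 : (2:ℝ) ^ ((0 : Fin (l+1)) : ℕ) = 1 := by simp
      rw [h0]
      have hp : (0:ℝ) < 2 ^ l := by positivity
      push_cast
      have e : ∀ z : ℝ, 4 * (M + 1) * z / (2:ℝ) ^ l = 4 * (M + 1) / (2:ℝ) ^ l * z := by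
        intro z; ring
      have e1 : 4 * (M + 1) / (2:ℝ) ^ l * (2 ^ l + (n + 1)) = 4 * (M + 1) + 4 * (M + 1) / (2:ℝ) ^ l * (n + 1) := by
        field_simp
      rw [e, e, e1]
      set k := 4 * (M + 1) / (2:ℝ) ^ l with hk
      have hM1 : 0 < M + 1 := by linarith
      rw [show ∀ X Y : ℝ, (M * X + 1 * Y) / (2 * (M + 1)) = (M * X + Y) / (2 * (M + 1)) by
        intro X Y; ring]
      rw [← sub_nonneg]
      have : 0 ≤ (2 * (M + 1)) * ((2 * ((n:ℝ) + 1 + 1) + (4 * (M + 1) + k * (n + 1))) - 1 -
          ((2 * ((n:ℝ) + 1 + 1) + (4 * (M + 1) + k * (n + 1))) / 2 +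
            (M * (2 * ((n:ℝ) + 1 + 1) + (4 * (M + 1) + k * (n + 1)) + 2) +
              (2 * ((n:ℝ) + 1) + k * (1 + n))) / (2 * (M + 1)))) := by
        field_simp
        nlinarith
      have h2 : 0 < 2 * (M + 1) := by positivity
      exact nonneg_of_mul_nonneg_right this h2
  | pend n =>
    simp only [out, Finset.sum_singleton, a, f, ind, reduceCtorEq, or_self, if_false]
    simp only [Fin.val_succ, Fin.val_last]
    push_cast
    linarith
  | fin1 =>
    simp [out, a, f, ind]
  | fin2 =>
    simp [out, a, f, ind]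

theorem Qind (M : ℝ) (hM : 0 < M) (u : NV m l) :
    ((kx A (a M) c mm 0).mulVec ind) u ≤ ind u := by
  rw [mulVec_zero' A (a M) c mm out hm ho]
  by_cases h : u = fin1 ∨ u = fin2
  · rcases h with rfl | rfl <;> simp [out, a, ind]
  · have h1 : ∀ v : NV m l, ind v ≤ 1 := by
      intro v; simp only [ind]; split_ifs <;> norm_num
    have hu : ind u = 1 := by simp only [ind]; rw [if_neg h]
    rw [hu]
    have hp : 0 < ∑ w ∈ out u, a M w := Finset.sum_pos (fun w _ => a_pos M hM w) (hne u)
    have h2 : ∑ w ∈ out u, a M w * ind w ≤ ∑ w ∈ out u, a M w :=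
      Finset.sum_le_sum fun w _ => mul_le_of_le_one_right (a_pos M hM w).le (h1 w)
    have h3 : (∑ w ∈ out u, a M w * ind w) / (2 * ∑ w ∈ out u, a M w) ≤ 1 / 2 := by
      rw [div_le_div_iff₀ (by positivity) two_pos]
      linarith
    linarith

theorem f_le (M : ℝ) (hM : 0 < M) (hm : (m:ℝ) ≤ 2 ^ l) (v : NV m l) : f M v ≤ 2 * (m + 2) + 8 * (M + 1) := by
  have hp : (0:ℝ) < 2 ^ l := by positivity
  have e : ∀ z : ℝ, z ≤ 2 * 2 ^ l → 4 * (M + 1) * z / (2:ℝ) ^ l ≤ 8 * (M + 1) := by
    intro z hz
    rw [div_le_iff₀ hp]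
    nlinarith
  match v with
  | node n j =>
    simp only [f]
    have h1 : (n.1 : ℝ) ≤ m := by exact_mod_cast Nat.lt_succ_iff.mp n.2
    have h2 : (2:ℝ) ^ j.1 ≤ 2 ^ l := pow_le_pow_right₀ (by norm_num) (Nat.lt_succ_iff.mp j.2)
    have h3 := e ((2:ℝ) ^ j.1 + n.1) (by linarith)
    linarith
  | pend n =>
    simp only [f]
    have h1 : ((n.1 + 1 : ℕ) : ℝ) ≤ m := by exact_mod_cast n.2
    have h3 := e ((2:ℝ) ^ l + (n.1 + 1 : ℕ)) (by linarith)
    linarith
  | fin1 => simp only [f]; positivity
  | fin2 => simp only [f]; positivity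

/-! ### the potential function for the perturbed chain -/

noncomputable def del (l : ℕ) (j : ℕ) : ℝ := 5 * ((1 / 20) * (4 / 5) ^ l) * ((5 / 4) ^ j - 1)

noncomputable def g : NV m l → ℝ
  | node n j => 2 * (1 - (1 / 20) * (4 / 5 : ℝ) ^ l) ^ n.1 * (1 - del l j.1)
  | pend n => 2 * (1 - (1 / 20) * (4 / 5 : ℝ) ^ l) ^ (n.1 + 1) * (1 - del l l)
  | fin1 => 1
  | fin2 => 1

theorem del_nonneg (l j : ℕ) : 0 ≤ del l j := by
  unfold del
  have : (1:ℝ) ≤ (5 / 4) ^ j := one_le_pow₀ (by norm_num)
  have h2 : (0:ℝ) ≤ (5 / 4) ^ j - 1 := by linarith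
  positivity

theorem del_le (l j : ℕ) (h : j ≤ l) : del l j ≤ 1 / 4 := by
  unfold del
  have h1 : (5 / 4 : ℝ) ^ j ≤ (5 / 4) ^ l := pow_le_pow_right₀ (by norm_num) h
  have h2 : (4 / 5 : ℝ) ^ l * (5 / 4) ^ l = 1 := by
    rw [← mul_pow]; norm_num
  have h3 : (0:ℝ) < (4 / 5) ^ l := by positivity
  nlinarith

theorem del_succ (l j : ℕ) : (4 / 5) * del l (j + 1) = (1 / 20) * (4 / 5) ^ l + del l j := by
  unfold del
  rw [pow_succ]
  ring

theorem eps_pos (l : ℕ) : (0:ℝ) < (1 / 20) * (4 / 5) ^ l := by positivity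

theorem eps_le (l : ℕ) : (1 / 20) * (4 / 5 : ℝ) ^ l ≤ 1 / 20 := by
  have : (4 / 5 : ℝ) ^ l ≤ 1 := pow_le_one₀ (by norm_num) (by norm_num)
  linarith

theorem g_nonneg (v : NV m l) : 0 ≤ g v := by
  have h1 := eps_le l
  have h2 : 0 ≤ 1 - (1 / 20) * (4 / 5 : ℝ) ^ l := by linarith
  match v with
  | node n j =>
    simp only [g]
    have := del_le l j.1 (Nat.lt_succ_iff.mp j.2)
    have h3 : 0 ≤ 1 - del l j.1 := by linarith
    positivity
  | pend n =>
    simp only [g]
    have := del_le l l le_rfl
    have h3 : 0 ≤ 1 - del l l := by linarith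
    positivity
  | fin1 => simp [g]
  | fin2 => simp [g]

theorem Qg (M : ℝ) (hM : 0 < M) (u : NV m l) :
    ((kx A (a' M) c mm 0).mulVec g) u ≤ (1 + 1 / (2 * (M + 1))) * g u := by
  rw [mulVec_zero' A (a' M) c mm out hm ho]
  have hθ : 0 < 1 / (2 * (M + 1)) := by positivity
  set θ := 1 / (2 * (M + 1)) with hθd
  set ε := (1 / 20) * (4 / 5 : ℝ) ^ l with hε
  have hε0 : 0 < ε := eps_pos l
  have hε1 : ε ≤ 1 / 20 := eps_le l
  have hg0 : 0 ≤ g u := g_nonneg u
  have hθg : 0 ≤ θ * g u := mul_nonneg hθ.le hg0
  match u with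
  | node ⟨0, _⟩ j =>
    simp only [out, Finset.sum_singleton, a']
    have hd := del_le l j.1 (Nat.lt_succ_iff.mp j.2)
    simp only [g] at *
    simp only [pow_zero] at *
    nlinarith
  | node ⟨n + 1, hn⟩ j =>
    simp only [out]
    split_ifs with hj
    · have hne0 : ∀ (x : Fin (m+1)) (h : j.1 + 1 < l + 1), (node x ⟨j.1 + 1, h⟩ : NV m l) ≠ node x 0 := by
        intro x h
        apply node_ne
        intro h
        have := congrArg Fin.val h
        simp at this
      rw [Finset.sum_pair (hne0 _ _), Finset.sum_pair (hne0 _ _)]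
      simp only [a', g] at *
      simp only [Nat.add_eq_zero_iff, one_ne_zero, and_false, if_false] at *
      have hz : ((0 : Fin (l+1)) : ℕ) = 0 := rfl
      simp only [hz, if_true] at *
      have h1 := del_succ l j.1
      rw [← hε] at h1
      have h0 : del l 0 = 0 := by simp [del]
      rw [h0]
      have h2 : 0 ≤ del l j.1 := del_nonneg l j.1
      have h3 : del l (j.1 + 1) = 5 / 4 * (ε + del l j.1) := by linarith
      rw [h3]
      rw [← hε] at *
      have hp : 0 ≤ (1 - ε) ^ n := pow_nonneg (by linarith) n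
      set P := (1 - ε) ^ n with hP
      have hP1 : (1 - ε) ^ (n + 1) = P * (1 - ε) := pow_succ _ _
      rw [hP1] at hθg hg0 ⊢
      have h4 : 0 ≤ P * (ε * del l j.1) := mul_nonneg hp (mul_nonneg hε0.le h2)
      linarith
    · have hjl : j.1 = l := by omega
      rw [Finset.sum_pair (by simp), Finset.sum_pair (by simp)]
      simp only [a', g, hjl] at *
      have hz : ((0 : Fin (l+1)) : ℕ) = 0 := rfl
      simp only [hz, if_true] at *
      have h0 : del l 0 = 0 := by simp [del]
      rw [h0]
      rw [← hε] at *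
      have hp : 0 ≤ (1 - ε) ^ n := pow_nonneg (by linarith) n
      set P := (1 - ε) ^ n with hP
      have hP1 : (1 - ε) ^ (n + 1) = P * (1 - ε) := pow_succ _ _
      rw [hP1] at hθg hg0 ⊢
      have hd := del_le l l le_rfl
      set d := del l l with hdd
      have hM1 : 0 < M + 1 := by linarith
      have hkey : P ≤ 2 * (P * (1 - ε) * (1 - d)) := by
        have : 1 ≤ 2 * ((1 - ε) * (1 - d)) := by nlinarith
        nlinarith
      have e1 : M / 2 * (2 * (P * (1 - ε)) * (1 - d)) + 1 / 2 * (2 * P * (1 - 0)) =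
          (M * (P * (1 - ε) * (1 - d)) + P) := by ring
      have e2 : (2 * (M / 2 + 1 / 2)) = M + 1 := by ring
      rw [e1, e2, hθd]
      have e3 : (M * (P * (1 - ε) * (1 - d)) + P) / (M + 1) ≤
          P * (1 - ε) * (1 - d) + P * (1 - ε) * (1 - d) / (M + 1) := by
        rw [div_le_iff₀ hM1]
        have : (P * (1 - ε) * (1 - d) + P * (1 - ε) * (1 - d) / (M + 1)) * (M + 1)
          = P * (1 - ε) * (1 - d) * (M + 1) + P * (1 - ε) * (1 - d) := by
          field_simp
        rw [this]
        linarith
      refine le_trans (add_le_add_right e3 _) (le_of_eq ?_)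
      field_simp
      ring
  | pend n =>
    simp only [out, Finset.sum_singleton, a'] at *
    simp only [g] at *
    simp only [Fin.val_succ, Fin.val_last] at *
    rw [← hε] at *
    have hl : (if l = 0 then (1/2 : ℝ) else 2) ≠ 0 := by split_ifs <;> norm_num
    set w := (if l = 0 then (1/2 : ℝ) else 2) with hw
    have : w * (2 * (1 - ε) ^ (n.1 + 1) * (1 - del l l)) / (2 * w) =
      (2 * (1 - ε) ^ (n.1 + 1) * (1 - del l l)) / 2 := by
      field_simp
    rw [this]
    linarith
  | fin1 =>
    simp only [out, Finset.sum_singleton, a', g] at *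
    linarith
  | fin2 =>
    simp only [out, Finset.sum_singleton, a', g] at *
    linarith

end NV

end H942R3
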