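import Pool.Agent.H942R3.NWBase

set_option autoImplicit false

open Classical Finset Filter Topology

namespace H942R3

variable {V : Type} [Fintype V]

theorem mulVec_mono (M : Matrix V V ℝ) (hM : ∀ u v, 0 ≤ M u v) {f g : V → ℝ} (h : ∀ v, f v ≤ g v)
    (u : V) : (M.mulVec f) u ≤ (M.mulVec g) u := by
  simp only [Matrix.mulVec, dotProduct]
  exact Finset.sum_le_sum fun v _ => mul_le_mul_of_nonneg_left (h v) (hM u v)

theorem pow_nonneg' (M : Matrix V V ℝ) (hM : ∀ u v, 0 ≤ M u v) (t : ℕ) :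
    ∀ u v, 0 ≤ (M ^ t) u v := by
  induction t with
  | zero =>
    intro u v
    rw [pow_zero, Matrix.one_apply]
    split_ifs <;> norm_num
  | succ t ih =>
    intro u v
    rw [pow_succ, Matrix.mul_apply]
    exact Finset.sum_nonneg fun w _ => mul_nonneg (ih u w) (hM w v)

theorem pow_row (M : Matrix V V ℝ) (hM : ∀ u, ∑ v, M u v = 1) (t : ℕ) :
    ∀ u, ∑ v, (M ^ t) u v = 1 := by
  induction t with
  | zero =>
    intro u
    simp [Matrix.one_apply]
  | succ t ih =>
    intro u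
    simp only [pow_succ, Matrix.mul_apply]
    rw [Finset.sum_comm]
    simp only [← Finset.mul_sum, hM, mul_one]
    exact ih u

/-- the potential function bound for the upper bound on the hitting time of `T` -/
theorem upper_bound (Q : Matrix V V ℝ) (hQ : ∀ u v, 0 ≤ Q u v)
    (ind f : V → ℝ) (hf0 : ∀ v, 0 ≤ f v)
    (hi : ∀ u, (Q.mulVec ind) u ≤ ind u)
    (hf : ∀ u, (Q.mulVec f) u ≤ f u - ind u) (t : ℕ) (u : V) :
    t * ((Q ^ t).mulVec ind) u ≤ f u := by
  have key : ∀ (t : ℕ) (u : V), ((Q ^ t).mulVec f) u + t * ((Q ^ t).mulVec ind) u ≤ f u := by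
    intro t
    induction t with
    | zero => intro u; simp
    | succ t ih =>
      intro u
      have hs : ((Q ^ (t + 1)).mulVec f) = (Q ^ t).mulVec (Q.mulVec f) := by
        rw [pow_succ, Matrix.mulVec_mulVec]
      have hs' : ((Q ^ (t + 1)).mulVec ind) = (Q ^ t).mulVec (Q.mulVec ind) := by
        rw [pow_succ, Matrix.mulVec_mulVec]
      have h1 : ((Q ^ (t + 1)).mulVec f) u ≤ ((Q ^ t).mulVec (f - ind)) u := by
        rw [hs]
        exact mulVec_mono _ (pow_nonneg' Q hQ t) (fun v => hf v) u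
      have h2 : ((Q ^ (t + 1)).mulVec ind) u ≤ ((Q ^ t).mulVec ind) u := by
        rw [hs']
        exact mulVec_mono _ (pow_nonneg' Q hQ t) (fun v => hi v) u
      rw [Matrix.mulVec_sub, Pi.sub_apply] at h1
      have h3 := ih u
      push_cast
      have h4 : ((t : ℝ) + 1) * ((Q ^ (t + 1)).mulVec ind) u ≤ ((t : ℝ) + 1) * ((Q ^ t).mulVec ind) u :=
        mul_le_mul_of_nonneg_left h2 (by positivity)
      linarith
  have h := key t u
  have h0 : 0 ≤ ((Q ^ t).mulVec f) u := by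
    simp only [Matrix.mulVec, dotProduct]
    exact Finset.sum_nonneg fun v _ => mul_nonneg (pow_nonneg' Q hQ t u v) (hf0 v)
  linarith

theorem lower_bound (Q : Matrix V V ℝ) (hQ : ∀ u v, 0 ≤ Q u v)
    (g : V → ℝ) (r : ℝ) (hr : 0 ≤ r)
    (hg : ∀ u, (Q.mulVec g) u ≤ r * g u) (t : ℕ) (u : V) :
    ((Q ^ t).mulVec g) u ≤ r ^ t * g u := by
  induction t generalizing u with
  | zero => simp
  | succ t ih =>
    have hs : ((Q ^ (t + 1)).mulVec g) = (Q ^ t).mulVec (Q.mulVec g) := by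
      rw [pow_succ, Matrix.mulVec_mulVec]
    rw [hs]
    calc ((Q ^ t).mulVec (Q.mulVec g)) u ≤ ((Q ^ t).mulVec (r • g)) u :=
          mulVec_mono _ (pow_nonneg' Q hQ t) (fun v => hg v) u
      _ = r * ((Q ^ t).mulVec g) u := by
          rw [Matrix.mulVec_smul]; rfl
      _ ≤ r * (r ^ t * g u) := mul_le_mul_of_nonneg_left (ih u) hr
      _ = r ^ (t + 1) * g u := by ring

/-- the limit kernel through the out-sets -/
theorem kx_zero (A : V → V → Prop) (a : V → ℝ) (c m : V → ℕ) (out : V → Finset V)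
    (hm : ∀ u w, A u w → m u ≤ c w)
    (ho : ∀ u v, v ∈ out u ↔ A u v ∧ c v = m u) (u v : V) :
    kx A a c m 0 u v = (if u = v then (1/2 : ℝ) else 0) +
      if v ∈ out u then a v / (2 * ∑ w ∈ out u, a w) else 0 := by
  simp only [kx, Matrix.of_apply]
  congr 1
  have hs : (∑ w : V, if A u w then a w * (0:ℝ) ^ (c w - m u) else 0) = ∑ w ∈ out u, a w := by
    rw [← Finset.sum_subset (Finset.subset_univ (out u))]
    · refine Finset.sum_congr rfl fun w hw => ?_
      obtain ⟨h1, h2⟩ := (ho u w).1 hw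
      rw [if_pos h1, h2, Nat.sub_self, pow_zero, mul_one]
    · intro w _ hw
      split_ifs with h1
      · have h2 : c w ≠ m u := fun h => hw ((ho u w).2 ⟨h1, h⟩)
        have h3 := hm u w h1
        rw [zero_pow (by omega), mul_zero]
      · rfl
  rw [hs]
  by_cases h : A u v
  · rw [if_pos h]
    by_cases h' : v ∈ out u
    · rw [if_pos h', ((ho u v).1 h').2, Nat.sub_self, pow_zero, mul_one]
    · rw [if_neg h']
      have h2 : c v ≠ m u := fun h2 => h' ((ho u v).2 ⟨h, h2⟩)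
      have h3 := hm u v h
      rw [zero_pow (by omega), mul_zero, zero_div]
  · rw [if_neg h, if_neg]
    exact fun h' => h ((ho u v).1 h').1

theorem sum_zero (A : V → V → Prop) (a : V → ℝ) (c m : V → ℕ) (out : V → Finset V)
    (hm : ∀ u w, A u w → m u ≤ c w)
    (ho : ∀ u v, v ∈ out u ↔ A u v ∧ c v = m u) (u : V) :
    (∑ w : V, if A u w then a w * (0:ℝ) ^ (c w - m u) else 0) = ∑ w ∈ out u, a w := by
  rw [← Finset.sum_subset (Finset.subset_univ (out u))]
  · refine Finset.sum_congr rfl fun w hw => ?_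
    obtain ⟨h1, h2⟩ := (ho u w).1 hw
    rw [if_pos h1, h2, Nat.sub_self, pow_zero, mul_one]
  · intro w _ hw
    split_ifs with h1
    · have h2 : c w ≠ m u := fun h => hw ((ho u w).2 ⟨h1, h⟩)
      have h3 := hm u w h1
      rw [zero_pow (by omega), mul_zero]
    · rfl

theorem mulVec_zero' (A : V → V → Prop) (a : V → ℝ) (c m : V → ℕ) (out : V → Finset V)
    (hm : ∀ u w, A u w → m u ≤ c w)
    (ho : ∀ u v, v ∈ out u ↔ A u v ∧ c v = m u) (f : V → ℝ) (u : V) :
    ((kx A a c m 0).mulVec f) u = f u / 2 + (∑ w ∈ out u, a w * f w) / (2 * ∑ w ∈ out u, a w) := by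
  simp only [Matrix.mulVec, dotProduct, kx_zero A a c m out hm ho, add_mul, Finset.sum_add_distrib]
  congr 1
  · simp only [ite_mul, zero_mul, Finset.sum_ite_eq, Finset.mem_univ, if_true]
    ring
  · rw [← Finset.sum_subset (Finset.subset_univ (out u)), Finset.sum_div]
    · refine Finset.sum_congr rfl fun w hw => ?_
      rw [if_pos hw]; ring
    · intro w _ hw
      rw [if_neg hw, zero_mul]

/-- the limit stationary law: mass `1/2` at each of `o, o'` -/
theorem sx_zero (A : V → V → Prop) (a : V → ℝ) (c m : V → ℕ) (out : V → Finset V)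
    (hm : ∀ u w, A u w → m u ≤ c w)
    (ho : ∀ u v, v ∈ out u ↔ A u v ∧ c v = m u) (o o' : V) (hoo : o ≠ o')
    (ha : 0 < a o) (ha' : 0 < a o')
    (h1 : out o = {o'}) (h2 : out o' = {o}) (hc1 : c o + m o = 1) (hc2 : c o' + m o' = 1)
    (hc : ∀ v, v ≠ o → v ≠ o' → 2 ≤ c v + m v) :
    (∑ z : V, a z * (∑ w : V, if A z w then a w * (0:ℝ) ^ (c w - m z) else 0) *
      (0:ℝ) ^ (c z + m z - 1)) ≠ 0 ∧
    ∀ y, sx A a c m 0 y = if y = o ∨ y = o' then 1 / 2 else 0 := by
  have hS : (∑ z : V, a z * (∑ w : V, if A z w then a w * (0:ℝ) ^ (c w - m z) else 0) *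
      (0:ℝ) ^ (c z + m z - 1)) = 2 * (a o * a o') := by
    simp only [sum_zero A a c m out hm ho]
    rw [← Finset.sum_subset (Finset.subset_univ {o, o'}), Finset.sum_pair hoo, h1, h2,
      Finset.sum_singleton, Finset.sum_singleton, hc1, hc2]
    · simp; ring
    · intro z _ hz
      simp only [Finset.mem_insert, Finset.mem_singleton, not_or] at hz
      have := hc z hz.1 hz.2
      rw [zero_pow (by omega), mul_zero]
  have hpos : 0 < 2 * (a o * a o') := by positivity
  refine ⟨by rw [hS]; exact hpos.ne', fun y => ?_⟩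
  simp only [sx]
  rw [hS]
  rw [sum_zero A a c m out hm ho]
  by_cases hy : y = o
  · subst hy
    rw [h1, Finset.sum_singleton, hc1, if_pos (Or.inl rfl)]
    field_simp
    simp
  · by_cases hy' : y = o'
    · subst hy'
      rw [h2, Finset.sum_singleton, hc2, if_pos (Or.inr rfl)]
      field_simp
      simp
    · have := hc y hy hy'
      rw [zero_pow (by omega), mul_zero, zero_div, if_neg]
      tauto

theorem kx_zero_nonneg (A : V → V → Prop) (a : V → ℝ) (c m : V → ℕ) (out : V → Finset V)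
    (hm : ∀ u w, A u w → m u ≤ c w)
    (ho : ∀ u v, v ∈ out u ↔ A u v ∧ c v = m u) (ha : ∀ v, 0 < a v) (u v : V) :
    0 ≤ kx A a c m 0 u v := by
  rw [kx_zero A a c m out hm ho]
  apply add_nonneg
  · split_ifs <;> norm_num
  · split_ifs
    · apply div_nonneg (ha v).le
      exact mul_nonneg zero_le_two (Finset.sum_nonneg fun w _ => (ha w).le)
    · exact le_rfl

theorem kx_zero_row (A : V → V → Prop) (a : V → ℝ) (c m : V → ℕ) (out : V → Finset V)
    (hm : ∀ u w, A u w → m u ≤ c w)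
    (ho : ∀ u v, v ∈ out u ↔ A u v ∧ c v = m u) (ha : ∀ v, 0 < a v) (hne : ∀ u, (out u).Nonempty)
    (u : V) : ∑ v, kx A a c m 0 u v = 1 := by
  have h := mulVec_zero' A a c m out hm ho (fun _ => 1) u
  simp only [Matrix.mulVec, dotProduct, mul_one] at h
  rw [h]
  have hp : 0 < ∑ w ∈ out u, a w := Finset.sum_pos (fun w _ => ha w) (hne u)
  field_simp
  norm_num

/-- upper bound on the limiting total variation distance -/
theorem tx_upper (A : V → V → Prop) (a : V → ℝ) (c m : V → ℕ) (out : V → Finset V)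
    (hm : ∀ u w, A u w → m u ≤ c w)
    (ho : ∀ u v, v ∈ out u ↔ A u v ∧ c v = m u) (ha : ∀ v, 0 < a v) (hne : ∀ u, (out u).Nonempty)
    (o o' : V) (hoo : o ≠ o')
    (h1 : out o = {o'}) (h2 : out o' = {o}) (hc1 : c o + m o = 1) (hc2 : c o' + m o' = 1)
    (hc : ∀ v, v ≠ o → v ≠ o' → 2 ≤ c v + m v)
    (t : ℕ) (y : V) (ε : ℝ)
    (hε : (((kx A a c m 0) ^ t).mulVec (fun v => if v = o ∨ v = o' then 0 else 1)) y ≤ ε) :
    tx A a c m (t + 1) y 0 ≤ ε := by
  set Q := kx A a c m 0 with hQdef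
  have hnn : ∀ u v, 0 ≤ Q u v := kx_zero_nonneg A a c m out hm ho ha
  have hrow : ∀ u, ∑ v, Q u v = 1 := kx_zero_row A a c m out hm ho ha hne
  have hs := (sx_zero A a c m out hm ho o o' hoo (ha o) (ha o') h1 h2 hc1 hc2 hc).2
  have hpn := pow_nonneg' Q hnn
  have hpr := pow_row Q hrow
  -- split sums over the two target vertices
  have split : ∀ F : V → ℝ, ∑ v, F v = F o + F o' + ∑ v ∈ univ \ {o, o'}, F v := by
    intro F
    rw [← Finset.sum_pair hoo]
    rw [add_comm, Finset.sum_sdiff (Finset.subset_univ _)]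
  have e1 : ((Q ^ t).mulVec (fun v => if v = o ∨ v = o' then 0 else 1)) y
      = ∑ v ∈ univ \ {o, o'}, (Q ^ t) y v := by
    simp only [Matrix.mulVec, dotProduct]
    rw [split]
    simp only [true_or, or_true, if_true, mul_zero, add_zero, zero_add]
    refine Finset.sum_congr rfl fun v hv => ?_
    simp only [Finset.mem_sdiff, Finset.mem_univ, true_and, Finset.mem_insert,
      Finset.mem_singleton] at hv
    rw [if_neg hv, mul_one]
  rw [e1] at hε
  have e2 := hpr t y
  rw [split] at e2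
  have hQoo : Q o o = 1 / 2 := by
    rw [hQdef, kx_zero A a c m out hm ho, h1]
    simp [hoo]
  have hQoo' : Q o o' = 1 / 2 := by
    rw [hQdef, kx_zero A a c m out hm ho, h1]
    have := (ha o').ne'
    simp [hoo]
    field_simp
  have hQo'o' : Q o' o' = 1 / 2 := by
    rw [hQdef, kx_zero A a c m out hm ho, h2]
    simp [hoo.symm]
  have hQo'o : Q o' o = 1 / 2 := by
    rw [hQdef, kx_zero A a c m out hm ho, h2]
    have := (ha o).ne'
    simp [hoo.symm]
    field_simp
  have e3 : (Q ^ t) y o / 2 + (Q ^ t) y o' / 2 ≤ (Q ^ (t + 1)) y o := by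
    rw [pow_succ, Matrix.mul_apply, split, hQoo, hQo'o]
    have : 0 ≤ ∑ v ∈ univ \ {o, o'}, (Q ^ t) y v * Q v o :=
      Finset.sum_nonneg fun v _ => mul_nonneg (hpn t y v) (hnn v o)
    linarith
  have e4 : (Q ^ t) y o / 2 + (Q ^ t) y o' / 2 ≤ (Q ^ (t + 1)) y o' := by
    rw [pow_succ, Matrix.mul_apply, split, hQoo', hQo'o']
    have : 0 ≤ ∑ v ∈ univ \ {o, o'}, (Q ^ t) y v * Q v o' :=
      Finset.sum_nonneg fun v _ => mul_nonneg (hpn t y v) (hnn v o')
    linarith
  have e5 := hpr (t + 1) y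
  rw [split] at e5
  simp only [tx]
  rw [← hQdef, split]
  simp only [hs, true_or, or_true, if_true]
  have e6 : ∑ v ∈ univ \ {o, o'}, |(Q ^ (t + 1)) y v - if v = o ∨ v = o' then 1 / 2 else 0|
      = ∑ v ∈ univ \ {o, o'}, (Q ^ (t + 1)) y v := by
    refine Finset.sum_congr rfl fun v hv => ?_
    simp only [Finset.mem_sdiff, Finset.mem_univ, true_and, Finset.mem_insert,
      Finset.mem_singleton] at hv
    rw [if_neg hv, sub_zero, abs_of_nonneg (hpn (t + 1) y v)]
  rw [e6]
  have hr : 0 ≤ ∑ v ∈ univ \ {o, o'}, (Q ^ (t + 1)) y v :=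
    Finset.sum_nonneg fun v _ => hpn (t + 1) y v
  have a1 : |(Q ^ (t + 1)) y o - 1 / 2| ≤ ε / 2 := by
    rw [abs_le]; constructor <;> linarith
  have a2 : |(Q ^ (t + 1)) y o' - 1 / 2| ≤ ε / 2 := by
    rw [abs_le]; constructor <;> linarith
  linarith

/-- lower bound on the limiting total variation distance -/
theorem tx_lower (A : V → V → Prop) (a : V → ℝ) (c m : V → ℕ) (out : V → Finset V)
    (hm : ∀ u w, A u w → m u ≤ c w)
    (ho : ∀ u v, v ∈ out u ↔ A u v ∧ c v = m u) (ha : ∀ v, 0 < a v) (hne : ∀ u, (out u).Nonempty)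
    (o o' : V) (hoo : o ≠ o')
    (h1 : out o = {o'}) (h2 : out o' = {o}) (hc1 : c o + m o = 1) (hc2 : c o' + m o' = 1)
    (hc : ∀ v, v ≠ o → v ≠ o' → 2 ≤ c v + m v)
    (t : ℕ) (y : V) (g : V → ℝ) (hg0 : ∀ v, 0 ≤ g v) (hgo : 1 ≤ g o) (hgo' : 1 ≤ g o') (q : ℝ)
    (hq : (((kx A a c m 0) ^ t).mulVec g) y ≤ q) :
    1 - q ≤ tx A a c m t y 0 := by
  set Q := kx A a c m 0 with hQdef
  have hnn : ∀ u v, 0 ≤ Q u v := kx_zero_nonneg A a c m out hm ho ha
  have hrow : ∀ u, ∑ v, Q u v = 1 := kx_zero_row A a c m out hm ho ha hne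
  have hs := (sx_zero A a c m out hm ho o o' hoo (ha o) (ha o') h1 h2 hc1 hc2 hc).2
  have hpn := pow_nonneg' Q hnn
  have hpr := pow_row Q hrow
  have split : ∀ F : V → ℝ, ∑ v, F v = F o + F o' + ∑ v ∈ univ \ {o, o'}, F v := by
    intro F
    rw [← Finset.sum_pair hoo]
    rw [add_comm, Finset.sum_sdiff (Finset.subset_univ _)]
  have e0 : (Q ^ t) y o + (Q ^ t) y o' ≤ q := by
    refine le_trans ?_ hq
    simp only [Matrix.mulVec, dotProduct]
    rw [split]
    have b1 : 0 ≤ ∑ v ∈ univ \ {o, o'}, (Q ^ t) y v * g v :=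
      Finset.sum_nonneg fun v _ => mul_nonneg (hpn t y v) (hg0 v)
    have b2 : (Q ^ t) y o ≤ (Q ^ t) y o * g o := le_mul_of_one_le_right (hpn t y o) hgo
    have b3 : (Q ^ t) y o' ≤ (Q ^ t) y o' * g o' := le_mul_of_one_le_right (hpn t y o') hgo'
    linarith
  have e5 := hpr t y
  rw [split] at e5
  simp only [tx]
  rw [← hQdef, split]
  simp only [hs, true_or, or_true, if_true]
  have e6 : ∑ v ∈ univ \ {o, o'}, |(Q ^ t) y v - if v = o ∨ v = o' then 1 / 2 else 0|
      = ∑ v ∈ univ \ {o, o'}, (Q ^ t) y v := by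
    refine Finset.sum_congr rfl fun v hv => ?_
    simp only [Finset.mem_sdiff, Finset.mem_univ, true_and, Finset.mem_insert,
      Finset.mem_singleton] at hv
    rw [if_neg hv, sub_zero, abs_of_nonneg (hpn t y v)]
  rw [e6]
  have a1 : 1 / 2 - (Q ^ t) y o ≤ |(Q ^ t) y o - 1 / 2| := by
    rw [abs_sub_comm]; exact le_abs_self _
  have a2 : 1 / 2 - (Q ^ t) y o' ≤ |(Q ^ t) y o' - 1 / 2| := by
    rw [abs_sub_comm]; exact le_abs_self _
  linarith

end H942R3
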